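import Mathlib

/-! Two elementary inequalities. -/

set_option autoImplicit false

namespace Pool.Agent.H560.MQ

theorem alg_many (c ε δ s σ M P G Q Yq l4 lm cnt rp : ℝ) (hε : 0 < ε) (hε1 : ε ≤ 1 / 40) (hεδ : 40 * ε ≤ δ)
    (hc1 : 1 / 2 ≤ c) (hc2 : c ≤ 2) (hG : 0 ≤ G) (hs0 : 0 < s) (hσ0 : 0 ≤ σ) (hsing : (1 - ε) * s ≤ σ * (1 + G))
    (hσM : σ ≤ M) (hP : (1 - ε) * Q ≤ P) (hQ0 : 0 < Q) (hq : Yq ≤ (1 + ε) * Q) (hY0 : 0 < Yq)
    (m5 : (c - 12 * ε) * (M * P) * (1 + G) ≤ l4 * cnt) (hcnt0 : 0 ≤ cnt) (hcr : cnt ≤ rp)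
    (hl4 : l4 ≤ (1 + ε) * lm) (hlm : 0 < lm) : (c - δ) * (s * Yq) ≤ lm * rp := by
  have hc12 : 0 ≤ c - 12 * ε := by linarith
  have h1e : 0 ≤ 1 - ε := by linarith
  set F := s * Yq with hF
  have hF0 : 0 < F := by positivity
  have hM0 : 0 ≤ M := hσ0.trans hσM
  have a1 : ((1 - ε) * s) * ((1 - ε) * Yq) ≤ (σ * (1 + G)) * ((1 - ε) * ((1 + ε) * Q)) :=
    mul_le_mul hsing (mul_le_mul_of_nonneg_left hq h1e) (mul_nonneg h1e hY0.le) (mul_nonneg hσ0 (by linarith))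
  have a2 : σ * ((1 - ε) * Q) ≤ M * P := mul_le_mul hσM hP (mul_nonneg h1e hQ0.le) hM0
  have a3 : (c - 12 * ε) * (σ * ((1 - ε) * Q)) * (1 + G) ≤ l4 * cnt := by
    refine le_trans ?_ m5
    apply mul_le_mul_of_nonneg_right _ (by linarith)
    exact mul_le_mul_of_nonneg_left a2 hc12
  have a4 : l4 * cnt ≤ (1 + ε) * lm * rp := by
    calc l4 * cnt ≤ (1 + ε) * lm * cnt := mul_le_mul_of_nonneg_right hl4 hcnt0
      _ ≤ (1 + ε) * lm * rp := mul_le_mul_of_nonneg_left hcr (by positivity)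
  have hk1 : (c - 12 * ε) * ((1 - ε) * (1 - ε)) * F ≤ ((1 + ε) * (1 + ε)) * (lm * rp) := by
    calc (c - 12 * ε) * ((1 - ε) * (1 - ε)) * F
        = (c - 12 * ε) * (((1 - ε) * s) * ((1 - ε) * Yq)) := by rw [hF]; ring
      _ ≤ (c - 12 * ε) * ((σ * (1 + G)) * ((1 - ε) * ((1 + ε) * Q))) := mul_le_mul_of_nonneg_left a1 hc12
      _ = (1 + ε) * ((c - 12 * ε) * (σ * ((1 - ε) * Q)) * (1 + G)) := by ring
      _ ≤ (1 + ε) * ((1 + ε) * lm * rp) := by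
          apply mul_le_mul_of_nonneg_left (a3.trans a4)
          linarith
      _ = _ := by ring
  have hrp0 : 0 ≤ rp := hcnt0.trans hcr
  have h1 : (c - δ) * F ≤ (c - 40 * ε) * F := mul_le_mul_of_nonneg_right (by linarith) hF0.le
  refine h1.trans ?_
  rcases le_or_gt (c - 40 * ε) 0 with h2 | h2
  · have h3 : (c - 40 * ε) * F ≤ 0 := mul_nonpos_of_nonpos_of_nonneg h2 hF0.le
    refine h3.trans ?_
    positivity
  · have h3 : ((1 + ε) * (1 + ε)) * ((c - 40 * ε) * F) ≤ ((1 + ε) * (1 + ε)) * (lm * rp) := by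
      refine le_trans ?_ hk1
      rw [← mul_assoc]
      apply mul_le_mul_of_nonneg_right _ hF0.le
      have e1 : (1 + ε) * (1 + ε) ≤ 1 + 3 * ε := by nlinarith
      have e2 : (1 + ε) * (1 + ε) * (c - 40 * ε) ≤ (1 + 3 * ε) * (c - 40 * ε) :=
        mul_le_mul_of_nonneg_right e1 h2.le
      have e3 : 1 - 2 * ε ≤ (1 - ε) * (1 - ε) := by nlinarith
      have e4 : (c - 12 * ε) * (1 - 2 * ε) ≤ (c - 12 * ε) * ((1 - ε) * (1 - ε)) :=
        mul_le_mul_of_nonneg_left e3 hc12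
      nlinarith
    exact le_of_mul_le_mul_left h3 (by positivity)

theorem alg_few (c ε δ s σ P Q Yq L lm cnt rp : ℝ) (hε : 0 < ε) (hε1 : ε ≤ 1 / 40) (hεδ : 40 * ε ≤ δ)
    (hc1 : 1 / 2 ≤ c) (hc2 : c ≤ 2) (hσ0 : 0 ≤ σ) (hsing : σ ≤ s) (hP0 : 0 ≤ P)
    (hP : P ≤ (1 + ε) * Q) (hQ0 : 0 < Q) (hq : Q ≤ Yq)
    (m5 : L * cnt ≤ (c + 12 * ε) * (σ * P)) (hrp0 : 0 ≤ rp) (hcr : rp ≤ cnt)
    (hl : lm ≤ (1 + ε) * L) (hL : 0 < L) : rp * lm ≤ (c + δ) * (s * Yq) := by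
  have hs0 : 0 ≤ s := hσ0.trans hsing
  have hY0 : 0 < Yq := lt_of_lt_of_le hQ0 hq
  have a1 : σ * P ≤ s * ((1 + ε) * Yq) := by
    apply mul_le_mul hsing _ hP0 hs0
    refine hP.trans ?_
    exact mul_le_mul_of_nonneg_left hq (by linarith)
  have a2 : rp * lm ≤ (1 + ε) * (L * cnt) := by
    calc rp * lm ≤ rp * ((1 + ε) * L) := mul_le_mul_of_nonneg_left hl hrp0
      _ = ((1 + ε) * L) * rp := by ring
      _ ≤ ((1 + ε) * L) * cnt := mul_le_mul_of_nonneg_left hcr (by positivity)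
      _ = _ := by ring
  refine a2.trans ?_
  calc (1 + ε) * (L * cnt) ≤ (1 + ε) * ((c + 12 * ε) * (σ * P)) := mul_le_mul_of_nonneg_left m5 (by linarith)
    _ ≤ (1 + ε) * ((c + 12 * ε) * (s * ((1 + ε) * Yq))) := by
        apply mul_le_mul_of_nonneg_left _ (by linarith)
        exact mul_le_mul_of_nonneg_left a1 (by linarith)
    _ = ((1 + ε) * (1 + ε) * (c + 12 * ε)) * (s * Yq) := by ring
    _ ≤ (c + δ) * (s * Yq) := by
        apply mul_le_mul_of_nonneg_right _ (by positivity)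
        have e1 : (1 + ε) * (1 + ε) ≤ 1 + 3 * ε := by nlinarith
        have e2 : (1 + ε) * (1 + ε) * (c + 12 * ε) ≤ (1 + 3 * ε) * (c + 12 * ε) :=
          mul_le_mul_of_nonneg_right e1 (by linarith)
        have e3 : 3 * ε * (c + 12 * ε) ≤ 3 * ε * 3 := mul_le_mul_of_nonneg_left (by linarith) (by linarith)
        linarith

end Pool.Agent.H560.MQ
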