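import Pool.Agent.H560.MQ.Sift

/-!
Sums over the classes of the rows.
-/

set_option autoImplicit false

open Finset Filter Topology
open Pool.Agent.H378R2 Pool.Agent.H510R2.Maier Pool.Agent.T2H52.MG
open Pool.Agent.R529.BU (om om_cont om_ge om_le QA_all RR_crude GG_le_RR)

namespace Pool.Agent.H560.MQ

theorem RR_mono (W : ℕ) {a b : ℕ} (h : a ≤ b) : Pool.Agent.T2H52.MG.RR W a ≤ Pool.Agent.T2H52.MG.RR W b := by
  unfold Pool.Agent.T2H52.MG.RR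
  apply Finset.card_le_card
  apply Finset.filter_subset_filter
  exact Finset.Icc_subset_Icc le_rfl h

theorem card_shift (W h R : ℕ) : ((Icc 1 R).filter (fun r => (r + h).Coprime W)).card + Pool.Agent.T2H52.MG.RR W h =
    Pool.Agent.T2H52.MG.RR W (h + R) := by
  classical
  unfold Pool.Agent.T2H52.MG.RR
  have h1 : (Icc 1 (h + R)).filter (fun t => t.Coprime W) =
      ((Icc 1 R).filter (fun r => (r + h).Coprime W)).image (fun r => r + h) ∪ (Icc 1 h).filter (fun t => t.Coprime W) := by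
    ext t
    rw [mem_filter, mem_union, mem_image, mem_filter, mem_Icc, mem_Icc]
    constructor
    · rintro ⟨⟨h1, h2⟩, h3⟩
      rcases le_or_gt t h with h4 | h4
      · right; exact ⟨⟨h1, h4⟩, h3⟩
      · left
        refine ⟨t - h, mem_filter.2 ⟨mem_Icc.2 ⟨by omega, by omega⟩, ?_⟩, by omega⟩
        rwa [Nat.sub_add_cancel h4.le]
    · rintro (⟨a, ha, rfl⟩ | ⟨⟨h1, h2⟩, h3⟩)
      · rw [mem_filter, mem_Icc] at ha
        exact ⟨⟨by omega, by omega⟩, ha.2⟩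
      · exact ⟨⟨h1, by omega⟩, h3⟩
  rw [h1, Finset.card_union_of_disjoint, Finset.card_image_of_injective _ (fun a b hab => by simpa using hab)]
  rw [Finset.disjoint_left]
  intro t ht ht'
  obtain ⟨a, ha, rfl⟩ := mem_image.1 ht
  rw [mem_filter, mem_Icc] at ha ht'
  omega

theorem sum_VH (W R : ℕ) (H : Finset ℕ) : ∑ r ∈ Icc 1 R, (VH W r H : ℝ) =
    ∑ h ∈ H, ((Pool.Agent.T2H52.MG.RR W (h + R) : ℝ) - Pool.Agent.T2H52.MG.RR W h) := by
  have h1 : ∑ r ∈ Icc 1 R, VH W r H = ∑ h ∈ H, ((Icc 1 R).filter (fun r => (r + h).Coprime W)).card := by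
    unfold VH
    simp only [Finset.card_filter]
    rw [Finset.sum_comm]
  have h2 : ∑ r ∈ Icc 1 R, (VH W r H : ℝ) = ∑ h ∈ H, (((Icc 1 R).filter (fun r => (r + h).Coprime W)).card : ℝ) := by
    exact_mod_cast h1
  rw [h2]
  apply Finset.sum_congr rfl
  intro h _
  have h3 := card_shift W h R
  have h4 : (((Icc 1 R).filter (fun r => (r + h).Coprime W)).card : ℝ) + Pool.Agent.T2H52.MG.RR W h =
    Pool.Agent.T2H52.MG.RR W (h + R) := by exact_mod_cast h3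
  linarith

/-- the number of the classes, for a single shift -/
theorem class_diff (u δ : ℝ) (hu : 1 < u) (hδ : 0 < δ) (hδ1 : δ ≤ 1) : ∃ η : ℝ, 0 < η ∧ η < u - 1 ∧ ∃ (z0 : ℝ) (Z0 : ℕ),
    2 ≤ z0 ∧ 1 ≤ Z0 ∧
    ∀ (X : ℝ) (z Z ps : ℕ) (S : Finset ℕ), 1 ≤ X → z0 ≤ z → Z0 ≤ Z → z ≤ yy X → GoodP Z ps → GoodS X S →
      ∀ R : ℕ, (z : ℝ) ^ (u - η) + 1 ≤ δ * R → 4 * (R : ℝ) ≤ (z : ℝ) ^ (u + η) → ∀ h : ℕ, (h : ℝ) ≤ 3 * R →
        (cw u - 9 * δ) * R ≤ ((RR (WZ X z S ps) (h + R) : ℝ) - RR (WZ X z S ps) h) / BE (PZ X z S ps) ∧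
        ((RR (WZ X z S ps) (h + R) : ℝ) - RR (WZ X z S ps) h) / BE (PZ X z S ps) ≤ (cw u + 9 * δ) * R := by
  obtain ⟨η, hη0, hη1, z0, Z0, hz02, hZ01, hmain⟩ := RRW u δ hu hδ
  refine ⟨η, hη0, hη1, z0, Z0, hz02, hZ01, fun X z Z ps S hX hz hZ hzy hps hS R hR1 hR2 h hh => ?_⟩
  have hm := hmain X z Z ps S hX hz hZ hzy hps hS
  set W := WZ X z S ps with hW
  set B := BE (PZ X z S ps) with hB
  have hB0 : 0 < B := BE_pos fun p hp => PZ_prime hp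
  obtain ⟨hc1, hc2⟩ := cw_bounds u hu.le
  have hR0 : (0 : ℝ) ≤ R := Nat.cast_nonneg _
  have hpow : 0 ≤ (z : ℝ) ^ (u - η) := Real.rpow_nonneg (Nat.cast_nonneg _) _
  have hRδ : δ * (R : ℝ) ≤ R := mul_le_of_le_one_left hR0 hδ1
  have hh0 : (0 : ℝ) ≤ h := Nat.cast_nonneg _
  obtain ⟨a1, a2⟩ := hm (h + R) (by push_cast; linarith) (by push_cast; linarith)
  push_cast at a1 a2
  rw [sub_div]
  rcases le_or_gt ((z : ℝ) ^ (u - η)) h with h1 | h1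
  · obtain ⟨b1, b2⟩ := hm h h1 (by linarith)
    have e1 : 0 ≤ δ * R := by positivity
    constructor
    · nlinarith
    · nlinarith
  · -- small `h`
    set T0 := ⌈(z : ℝ) ^ (u - η)⌉₊ with hT0
    have c1 : (z : ℝ) ^ (u - η) ≤ T0 := Nat.le_ceil _
    have c2 : (T0 : ℝ) ≤ δ * R := by
      have := (Nat.ceil_lt_add_one hpow).le
      linarith
    obtain ⟨b1, b2⟩ := hm T0 c1 (by linarith)
    have c3 : (RR W h : ℝ) / B ≤ (RR W T0 : ℝ) / B := by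
      apply div_le_div_of_nonneg_right _ hB0.le
      have : h ≤ T0 := by
        have : (h : ℝ) ≤ T0 := by linarith
        exact_mod_cast this
      exact_mod_cast RR_mono W this
    have c4 : (0 : ℝ) ≤ (RR W h : ℝ) / B := by positivity
    have c5 : (h : ℝ) ≤ δ * R := by linarith
    have c6 : (cw u + δ) * T0 ≤ 3 * (δ * R) := by
      have : 0 ≤ (T0 : ℝ) := Nat.cast_nonneg _
      nlinarith
    have c7 : cw u * (h : ℝ) ≤ 2 * (δ * R) := by nlinarith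
    have c8 : 0 ≤ cw u * (h : ℝ) := by positivity
    have c9 : δ * (h : ℝ) ≤ δ * R := mul_le_mul_of_nonneg_left (by linarith) hδ.le
    have e1 : 0 ≤ δ * R := by positivity
    constructor
    · nlinarith
    · nlinarith

/-- the sum over the classes -/
theorem class_sum (u δ : ℝ) (hu : 1 < u) (hδ : 0 < δ) (hδ1 : δ ≤ 1) : ∃ η : ℝ, 0 < η ∧ η < u - 1 ∧ ∃ (z0 : ℝ) (Z0 : ℕ),
    2 ≤ z0 ∧ 1 ≤ Z0 ∧
    ∀ (X : ℝ) (z Z ps : ℕ) (S : Finset ℕ), 1 ≤ X → z0 ≤ z → Z0 ≤ Z → z ≤ yy X → GoodP Z ps → GoodS X S →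
      ∀ R : ℕ, (z : ℝ) ^ (u - η) + 1 ≤ δ * R → 4 * (R : ℝ) ≤ (z : ℝ) ^ (u + η) →
        ∀ (Y : ℕ) (H : Finset ℕ), H ⊆ Icc 1 Y → (Y : ℝ) ≤ 3 * R →
        (cw u - 9 * δ) * (R * H.card) ≤ ∑ r ∈ Icc 1 R, (VH (WZ X z S ps) r H : ℝ) / BE (PZ X z S ps) ∧
        ∑ r ∈ Icc 1 R, (VH (WZ X z S ps) r H : ℝ) / BE (PZ X z S ps) ≤ (cw u + 9 * δ) * (R * H.card) := by
  obtain ⟨η, hη0, hη1, z0, Z0, hz02, hZ01, hmain⟩ := class_diff u δ hu hδ hδ1
  refine ⟨η, hη0, hη1, z0, Z0, hz02, hZ01, fun X z Z ps S hX hz hZ hzy hps hS R hR1 hR2 Y H hH hY => ?_⟩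
  have hm := hmain X z Z ps S hX hz hZ hzy hps hS R hR1 hR2
  have h1 : ∑ r ∈ Icc 1 R, (VH (WZ X z S ps) r H : ℝ) / BE (PZ X z S ps) =
      ∑ h ∈ H, ((RR (WZ X z S ps) (h + R) : ℝ) - RR (WZ X z S ps) h) / BE (PZ X z S ps) := by
    rw [← Finset.sum_div, sum_VH, Finset.sum_div]
  have hle : ∀ h ∈ H, (h : ℝ) ≤ 3 * R := by
    intro h hh
    have h2 := (mem_Icc.1 (hH hh)).2
    have h3 : (h : ℝ) ≤ Y := by exact_mod_cast h2
    linarith
  rw [h1]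
  constructor
  · have h2 := Finset.card_nsmul_le_sum H _ _ (fun h hh => (hm h (hle h hh)).1)
    rw [nsmul_eq_mul] at h2
    refine le_trans (le_of_eq ?_) h2
    ring
  · have h2 := Finset.sum_le_card_nsmul H _ _ (fun h hh => (hm h (hle h hh)).2)
    rw [nsmul_eq_mul] at h2
    refine h2.trans (le_of_eq ?_)
    ring

end Pool.Agent.H560.MQ
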