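import Pool.Agent.H560.MQ.ManyG

/-!
The mean value of the factor of the singular series at the primes of medium size, over the rows.
-/

set_option autoImplicit false

open Finset Filter Topology
open Pool.Agent.H378R2 Pool.Agent.H510R2.Maier Pool.Agent.T2H52.MG

namespace Pool.Agent.H560.MQ

theorem count_mod (M c N : ℕ) (hM : 0 < M) :
    (((Icc 1 N).filter (fun n => n ≡ c [MOD M])).card : ℝ) ≤ N / M + 1 := by
  have h1 := Nat.Ioc_filter_modEq_card 0 N hM c
  have h2 : (Icc 1 N).filter (fun n => n ≡ c [MOD M]) = (Ioc 0 N).filter (fun n => n ≡ c [MOD M]) := rfl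
  rw [h2]
  have h3 : (((Ioc 0 N).filter (fun n => n ≡ c [MOD M])).card : ℤ) ≤
      max (⌊((N : ℚ) - c) / M⌋ - ⌊((0 : ℕ) - (c : ℚ)) / M⌋) 0 := h1.le
  have hM0 : (0 : ℚ) < M := by exact_mod_cast hM
  have h4 : ((((Ioc 0 N).filter (fun n => n ≡ c [MOD M])).card : ℤ) : ℚ) ≤ N / M + 1 := by
    refine (Int.cast_le.2 h3).trans ?_
    push_cast
    apply max_le
    · have h5 : (⌊((N : ℚ) - c) / M⌋ : ℚ) ≤ ((N : ℚ) - c) / M := Int.floor_le _
      have h6 : ((0 : ℚ) - (c : ℚ)) / M - 1 < ⌊((0 : ℚ) - (c : ℚ)) / M⌋ := Int.sub_one_lt_floor _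
      have h7 : ((N : ℚ) - c) / M = N / M + (0 - (c : ℚ)) / M := by ring
      generalize ⌊((N : ℚ) - c) / M⌋ = a at h5 ⊢
      generalize ⌊((0 : ℚ) - (c : ℚ)) / M⌋ = b at h6 ⊢
      rw [h7] at h5
      linarith
    · positivity
  have h5 : (((((Ioc 0 N).filter (fun n => n ≡ c [MOD M])).card : ℤ) : ℚ) : ℝ) ≤ (((N : ℚ) / M + 1 : ℚ) : ℝ) := by
    exact_mod_cast h4
  push_cast at h5
  exact h5

theorem count_row (W d r N : ℕ) (hW : 0 < W) (hd : 0 < d) (hco : W.Coprime d) :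
    (((Icc 1 N).filter (fun n => n ≡ r [MOD W] ∧ d ∣ n)).card : ℝ) ≤ N / (W * d) + 1 := by
  obtain ⟨c, hc⟩ := Nat.chineseRemainder hco r 0
  have h1 : (Icc 1 N).filter (fun n => n ≡ r [MOD W] ∧ d ∣ n) ⊆ (Icc 1 N).filter (fun n => n ≡ c [MOD (W * d)]) := by
    intro n hn
    rw [mem_filter] at hn ⊢
    refine ⟨hn.1, ?_⟩
    rw [← Nat.modEq_and_modEq_iff_modEq_mul hco]
    exact ⟨hn.2.1.trans hc.1.symm, ((Nat.modEq_zero_iff_dvd).2 hn.2.2).trans hc.2.symm⟩
  have h2 : (((Icc 1 N).filter (fun n => n ≡ r [MOD W] ∧ d ∣ n)).card : ℝ) ≤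
      ((Icc 1 N).filter (fun n => n ≡ c [MOD (W * d)])).card := by exact_mod_cast Finset.card_le_card h1
  refine h2.trans ((count_mod (W * d) c N (Nat.mul_pos hW hd)).trans (le_of_eq ?_))
  push_cast
  ring

theorem prod_expand (P : Finset ℕ) (hP : ∀ p ∈ P, p.Prime) (f : ℕ → ℝ) (n : ℕ) :
    ∏ p ∈ P.filter (fun p => p ∣ n), (1 + f p) = ∑ A ∈ P.powerset, if (∏ p ∈ A, p) ∣ n then ∏ p ∈ A, f p else 0 := by
  classical
  rw [Finset.prod_one_add, ← Finset.sum_filter]
  apply Finset.sum_congr _ (fun _ _ => rfl)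
  ext A
  rw [mem_powerset, mem_filter, mem_powerset]
  constructor
  · intro h
    refine ⟨fun p hp => (mem_filter.1 (h hp)).1, ?_⟩
    apply Finset.prod_primes_dvd
    · intro p hp
      exact (hP p (mem_filter.1 (h hp)).1).prime
    · intro p hp
      exact (mem_filter.1 (h hp)).2
  · rintro ⟨h1, h2⟩ p hp
    exact mem_filter.2 ⟨h1 hp, (Finset.dvd_prod_of_mem _ hp).trans h2⟩

/-- the mean value over a row -/
theorem row_excess (P : Finset ℕ) (hP : ∀ p ∈ P, p.Prime) (f : ℕ → ℝ) (hf : ∀ p, 0 ≤ f p) (W r N : ℕ) (hW : 0 < W)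
    (hco : ∀ p ∈ P, W.Coprime p) :
    ∑ n ∈ (Icc 1 N).filter (fun n => n ≡ r [MOD W]), (∏ p ∈ P.filter (fun p => p ∣ n), (1 + f p) - 1) ≤
      N / W * (∏ p ∈ P, (1 + f p / p) - 1) + ∏ p ∈ P, (1 + f p) := by
  classical
  have hempty : (∅ : Finset ℕ) ∈ P.powerset := Finset.empty_mem_powerset P
  have hW0 : (0 : ℝ) < W := by exact_mod_cast hW
  have hNW : (0 : ℝ) ≤ N / W := by positivity
  have h1 : ∀ n, ∏ p ∈ P.filter (fun p => p ∣ n), (1 + f p) - 1 =
      ∑ A ∈ P.powerset.erase ∅, if (∏ p ∈ A, p) ∣ n then ∏ p ∈ A, f p else 0 := by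
    intro n
    rw [prod_expand P hP f n, ← Finset.add_sum_erase _ _ hempty]
    simp
  calc ∑ n ∈ (Icc 1 N).filter (fun n => n ≡ r [MOD W]), (∏ p ∈ P.filter (fun p => p ∣ n), (1 + f p) - 1)
      = ∑ n ∈ (Icc 1 N).filter (fun n => n ≡ r [MOD W]), ∑ A ∈ P.powerset.erase ∅,
          (if (∏ p ∈ A, p) ∣ n then ∏ p ∈ A, f p else 0) := Finset.sum_congr rfl fun n _ => h1 n
    _ = ∑ A ∈ P.powerset.erase ∅, ∑ n ∈ (Icc 1 N).filter (fun n => n ≡ r [MOD W]),
          (if (∏ p ∈ A, p) ∣ n then ∏ p ∈ A, f p else 0) := Finset.sum_comm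
    _ ≤ ∑ A ∈ P.powerset.erase ∅, (∏ p ∈ A, f p) * (N / (W * (∏ p ∈ A, (p : ℝ))) + 1) := by
        apply Finset.sum_le_sum
        intro A hA
        have hAP : A ⊆ P := mem_powerset.1 (mem_of_mem_erase hA)
        have hfA : 0 ≤ ∏ p ∈ A, f p := Finset.prod_nonneg fun p _ => hf p
        rw [← Finset.sum_filter, Finset.sum_const, nsmul_eq_mul, mul_comm]
        apply mul_le_mul_of_nonneg_left _ hfA
        rw [Finset.filter_filter]
        have h2 := count_row W (∏ p ∈ A, p) r N hW (Finset.prod_pos fun p hp => (hP p (hAP hp)).pos)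
          (Nat.Coprime.prod_right fun p hp => hco p (hAP hp))
        push_cast at h2
        exact h2
    _ = N / W * ∑ A ∈ P.powerset.erase ∅, (∏ p ∈ A, (f p / p)) + ∑ A ∈ P.powerset.erase ∅, ∏ p ∈ A, f p := by
        rw [Finset.mul_sum, ← Finset.sum_add_distrib]
        apply Finset.sum_congr rfl
        intro A hA
        rw [Finset.prod_div_distrib]
        have hAP : A ⊆ P := mem_powerset.1 (mem_of_mem_erase hA)
        have h3 : (0 : ℝ) < ∏ p ∈ A, (p : ℝ) := Finset.prod_pos fun p hp => by exact_mod_cast (hP p (hAP hp)).pos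
        field_simp
    _ ≤ N / W * (∏ p ∈ P, (1 + f p / p) - 1) + ∏ p ∈ P, (1 + f p) := by
        have h4 : ∑ A ∈ P.powerset.erase ∅, (∏ p ∈ A, (f p / p)) = ∏ p ∈ P, (1 + f p / p) - 1 := by
          rw [Finset.prod_one_add, ← Finset.add_sum_erase _ _ hempty]
          simp
        have h5 : ∑ A ∈ P.powerset.erase ∅, ∏ p ∈ A, f p ≤ ∏ p ∈ P, (1 + f p) := by
          rw [Finset.prod_one_add, ← Finset.add_sum_erase _ _ hempty]
          simp
        rw [h4]
        linarith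

theorem exp_sub_le {x : ℝ} (h0 : 0 ≤ x) (h1 : x ≤ 1) : Real.exp x - 1 ≤ 2 * x := by
  have h := Real.abs_exp_sub_one_sub_id_le (x := x) (by rw [abs_of_nonneg h0]; exact h1)
  have h2 := (abs_le.1 h).2
  nlinarith

/-- the primes between `z` and `D` -/
def MP (z D : ℕ) : Finset ℕ := (Ioc z D).filter Nat.Prime

theorem sum_inv_sq (z D : ℕ) (hz : 1 ≤ z) : ∑ p ∈ MP z D, (1 : ℝ) / (p : ℝ) ^ 2 ≤ 1 / z := by
  unfold MP
  have h0 : ∑ p ∈ (Ioc z D).filter Nat.Prime, (1 : ℝ) / (p : ℝ) ^ 2 ≤ ∑ p ∈ Ioc z D, (1 : ℝ) / (p : ℝ) ^ 2 :=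
    Finset.sum_le_sum_of_subset_of_nonneg (filter_subset _ _) fun _ _ _ => by positivity
  refine h0.trans ?_
  rcases le_or_gt z D with h | h
  · have h1 := sum_Ioc_inv_sq_le_sub (α := ℝ) (k := z) (n := D) (by omega) h
    simp only [one_div]
    have h2 : (0 : ℝ) ≤ (D : ℝ)⁻¹ := by positivity
    linarith
  · rw [Finset.Ioc_eq_empty (by omega), Finset.sum_empty]
    positivity

theorem sum_inv (z D : ℕ) : ∑ p ∈ MP z D, (1 : ℝ) / p ≤ 1 + Real.log D := by
  unfold MP
  have h1 : ∑ p ∈ (Ioc z D).filter Nat.Prime, (1 : ℝ) / p ≤ ∑ p ∈ Icc 1 D, (1 : ℝ) / p := by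
    apply Finset.sum_le_sum_of_subset_of_nonneg
    · intro p hp
      rw [mem_filter, mem_Ioc] at hp
      rw [mem_Icc]
      exact ⟨by omega, hp.1.2⟩
    · intro _ _ _
      positivity
  have h2 : ∑ p ∈ Icc 1 D, (1 : ℝ) / p = (harmonic D : ℝ) := by
    rw [harmonic_eq_sum_Icc]
    push_cast
    apply Finset.sum_congr rfl
    intro n _
    rw [one_div]
  rw [h2] at h1
  exact h1.trans (harmonic_le_one_add_log D)

/-- the factor of the primes of medium size -/
noncomputable def GX (z D n : ℕ) : ℝ := Real.exp (∑ p ∈ (MP z D).filter (fun p => p ∣ n), 3 / (p : ℝ)) - 1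

theorem GX_nonneg (z D n : ℕ) : 0 ≤ GX z D n := by
  unfold GX
  have : 0 ≤ ∑ p ∈ (MP z D).filter (fun p => p ∣ n), 3 / (p : ℝ) := Finset.sum_nonneg fun p _ => by positivity
  have := Real.one_le_exp this
  linarith

theorem GX_sum (X : ℝ) (hX : 0 ≤ X) (z D W r : ℕ) (hz : 12 ≤ z) (hW : 0 < W) (hco : ∀ p ∈ MP z D, W.Coprime p) :
    ∑ n ∈ Icc 1 ⌊3 * X⌋₊, nu X W r n * GX z D n ≤ 36 * X / (W * z) + 27 * (D : ℝ) ^ 3 + 27 := by
  classical
  have hW0 : (0 : ℝ) < W := by exact_mod_cast hW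
  have hz12 : (12 : ℝ) ≤ z := by exact_mod_cast hz
  have hP : ∀ p ∈ MP z D, p.Prime := fun p hp => (mem_filter.1 hp).2
  have hPz : ∀ p ∈ MP z D, (12 : ℝ) ≤ p := by
    intro p hp
    have h1 : z < p := (mem_Ioc.1 (mem_filter.1 hp).1).1
    have : (z : ℝ) ≤ p := by exact_mod_cast h1.le
    linarith
  set f : ℕ → ℝ := fun p => Real.exp (3 / p) - 1 with hf
  have hf0 : ∀ p, 0 ≤ f p := by
    intro p
    have : 0 ≤ 3 / (p : ℝ) := by positivity
    have := Real.one_le_exp this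
    rw [hf]
    simp only
    linarith
  have h1 : ∑ n ∈ Icc 1 ⌊3 * X⌋₊, nu X W r n * GX z D n ≤
      ∑ n ∈ (Icc 1 ⌊3 * X⌋₊).filter (fun n => n ≡ r [MOD W]),
        (∏ p ∈ (MP z D).filter (fun p => p ∣ n), (1 + f p) - 1) := by
    rw [Finset.sum_filter]
    apply Finset.sum_le_sum
    intro n _
    have h2 : GX z D n = ∏ p ∈ (MP z D).filter (fun p => p ∣ n), (1 + f p) - 1 := by
      unfold GX
      rw [Real.exp_sum]
      congr 1
      apply Finset.prod_congr rfl
      intro p _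
      rw [hf]
      ring
    split_ifs with h
    · rw [← h2]
      have h3 := nu_le_one X W r n
      have h4 := GX_nonneg z D n
      have h5 := nu_nonneg X W r n
      nlinarith
    · unfold nu
      rw [if_neg h, zero_mul]
  refine h1.trans ((row_excess (MP z D) hP f hf0 W r ⌊3 * X⌋₊ hW hco).trans ?_)
  have hN : (⌊3 * X⌋₊ : ℝ) ≤ 3 * X := Nat.floor_le (by linarith)
  have a1 : ∏ p ∈ MP z D, (1 + f p / p) - 1 ≤ 12 / z := by
    have h2 : ∏ p ∈ MP z D, (1 + f p / p) ≤ Real.exp (6 / z) := by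
      calc ∏ p ∈ MP z D, (1 + f p / p) ≤ ∏ p ∈ MP z D, Real.exp (6 * (1 / (p : ℝ) ^ 2)) := by
            apply Finset.prod_le_prod
            · intro p hp
              have := hf0 p
              positivity
            · intro p hp
              have h3 := hPz p hp
              have h4 : f p ≤ 2 * (3 / p) := exp_sub_le (by positivity) (by
                rw [div_le_one (by linarith)]; linarith)
              have h5 : f p / p ≤ 6 * (1 / (p : ℝ) ^ 2) := by
                calc f p / p ≤ (2 * (3 / p)) / p := by gcongr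
                  _ = _ := by field_simp; norm_num
              have h6 := Real.add_one_le_exp (6 * (1 / (p : ℝ) ^ 2))
              linarith
        _ = Real.exp (6 * ∑ p ∈ MP z D, 1 / (p : ℝ) ^ 2) := by
            rw [← Real.exp_sum, Finset.mul_sum]
        _ ≤ Real.exp (6 / z) := by
            apply Real.exp_le_exp.2
            have := sum_inv_sq z D (by omega)
            calc (6 : ℝ) * ∑ p ∈ MP z D, 1 / (p : ℝ) ^ 2 ≤ 6 * (1 / z) := by gcongr
              _ = 6 / z := by ring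
    have h3 : Real.exp (6 / z) - 1 ≤ 2 * (6 / z) := exp_sub_le (by positivity) (by
      rw [div_le_one (by linarith)]; linarith)
    have h4 : 2 * (6 / (z : ℝ)) = 12 / z := by ring
    linarith
  have a2 : ∏ p ∈ MP z D, (1 + f p) ≤ 27 * (D : ℝ) ^ 3 + 27 := by
    have h2 : ∏ p ∈ MP z D, (1 + f p) = Real.exp (3 * ∑ p ∈ MP z D, 1 / (p : ℝ)) := by
      rw [Finset.mul_sum, Real.exp_sum]
      apply Finset.prod_congr rfl
      intro p _
      rw [hf]
      simp only
      rw [mul_one_div]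
      ring
    rw [h2]
    have he3 : Real.exp 3 ≤ 27 := by
      have h3 := Real.exp_one_lt_d9
      have h4 : Real.exp 3 = Real.exp 1 ^ 3 := by rw [← Real.exp_nat_mul]; norm_num
      rw [h4]
      calc Real.exp 1 ^ 3 ≤ 3 ^ 3 := pow_le_pow_left₀ (Real.exp_pos 1).le (by linarith) 3
        _ = 27 := by norm_num
    rcases Nat.eq_zero_or_pos D with h0 | h0
    · subst h0
      have : MP z 0 = ∅ := by
        unfold MP
        rw [Finset.Ioc_eq_empty (by omega), Finset.filter_empty]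
      rw [this]
      simp
    · have hD1 : (0 : ℝ) < D := by exact_mod_cast h0
      calc Real.exp (3 * ∑ p ∈ MP z D, 1 / (p : ℝ)) ≤ Real.exp (3 * (1 + Real.log D)) := by
            apply Real.exp_le_exp.2
            have := sum_inv z D
            linarith
        _ = Real.exp 3 * (D : ℝ) ^ 3 := by
            rw [mul_add, mul_one, Real.exp_add, show (3 : ℝ) * Real.log D = Real.log D * ((3 : ℕ) : ℝ) by push_cast; ring,
              Real.exp_mul, Real.exp_log hD1, Real.rpow_natCast]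
        _ ≤ 27 * (D : ℝ) ^ 3 := by gcongr
        _ ≤ _ := by linarith
  have a3 : (⌊3 * X⌋₊ : ℝ) / W * (∏ p ∈ MP z D, (1 + f p / p) - 1) ≤ 36 * X / (W * z) := by
    calc (⌊3 * X⌋₊ : ℝ) / W * (∏ p ∈ MP z D, (1 + f p / p) - 1) ≤ (⌊3 * X⌋₊ : ℝ) / W * (12 / z) := by
          apply mul_le_mul_of_nonneg_left a1 (by positivity)
      _ ≤ 3 * X / W * (12 / z) := by gcongr
      _ = _ := by field_simp; ring
  linarith

end Pool.Agent.H560.MQ
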