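import Pool.Agent.H560.MQ.Scales

/-!
Many integers with few, and with many, primes among the shifts, compared with an arbitrary weight of the classes.
-/

set_option autoImplicit false

open Finset Filter Topology
open Pool.Agent.H378R2 Pool.Agent.H510R2.Maier Pool.Agent.T2H52.MG

namespace Pool.Agent.H560.MQ

theorem choose_few' (R : ℕ) (hR : 0 < R) (V σ : ℕ → ℝ) (c T ε : ℝ) (hV : ∀ r ∈ Icc 1 R, 0 ≤ V r) (hT : 0 < T)
    (hc : 0 ≤ c) (hc2 : c ≤ 2) (hε : 0 < ε) (hε1 : ε ≤ 1 / 16)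
    (h1 : ∑ r ∈ Icc 1 R, V r ≤ (c + ε) * (R * T)) (h2 : (1 - ε) * (R : ℝ) ≤ ∑ r ∈ Icc 1 R, σ r) :
    ∃ r ∈ Icc 1 R, ε ≤ σ r ∧ V r ≤ (c + 8 * ε) * (σ r * T) := by
  classical
  by_contra hcon
  push Not at hcon
  have hR0 : (0 : ℝ) < R := by exact_mod_cast hR
  have h3 : ∑ r ∈ (Icc 1 R).filter (fun r => ε ≤ σ r), (c + 8 * ε) * (σ r * T) ≤
      ∑ r ∈ (Icc 1 R).filter (fun r => ε ≤ σ r), V r :=
    Finset.sum_le_sum fun r hr => (hcon r (mem_filter.1 hr).1 (mem_filter.1 hr).2).le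
  have h4 : ∑ r ∈ (Icc 1 R).filter (fun r => ε ≤ σ r), V r ≤ ∑ r ∈ Icc 1 R, V r :=
    Finset.sum_le_sum_of_subset_of_nonneg (filter_subset _ _) fun r hr _ => hV r hr
  have h5 : ∑ r ∈ (Icc 1 R).filter (fun r => ε ≤ σ r), (c + 8 * ε) * (σ r * T) =
      (c + 8 * ε) * T * ∑ r ∈ (Icc 1 R).filter (fun r => ε ≤ σ r), σ r := by
    rw [Finset.mul_sum]
    apply Finset.sum_congr rfl
    intro r _
    ring
  have h6 : ∑ r ∈ Icc 1 R, σ r ≤ ∑ r ∈ (Icc 1 R).filter (fun r => ε ≤ σ r), σ r + ε * R := by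
    rw [← Finset.sum_filter_add_sum_filter_not (Icc 1 R) (fun r => ε ≤ σ r)]
    apply add_le_add le_rfl
    calc ∑ r ∈ (Icc 1 R).filter (fun r => ¬ ε ≤ σ r), σ r ≤ ∑ r ∈ (Icc 1 R).filter (fun r => ¬ ε ≤ σ r), ε :=
          Finset.sum_le_sum fun r hr => (not_le.1 (mem_filter.1 hr).2).le
      _ = (((Icc 1 R).filter (fun r => ¬ ε ≤ σ r)).card : ℝ) * ε := by rw [Finset.sum_const, nsmul_eq_mul]
      _ ≤ (R : ℝ) * ε := by
          apply mul_le_mul_of_nonneg_right _ hε.le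
          have : ((Icc 1 R).filter (fun r => ¬ ε ≤ σ r)).card ≤ R := by
            refine (Finset.card_filter_le _ _).trans ?_
            simp
          exact_mod_cast this
      _ = ε * R := by ring
  have h7 : (1 - 2 * ε) * (R : ℝ) ≤ ∑ r ∈ (Icc 1 R).filter (fun r => ε ≤ σ r), σ r := by linarith
  have h8 : (c + 8 * ε) * T * ((1 - 2 * ε) * (R : ℝ)) ≤ (c + ε) * (R * T) := by
    calc (c + 8 * ε) * T * ((1 - 2 * ε) * (R : ℝ)) ≤
          (c + 8 * ε) * T * ∑ r ∈ (Icc 1 R).filter (fun r => ε ≤ σ r), σ r := by gcongr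
      _ = _ := h5.symm
      _ ≤ _ := h3.trans (h4.trans h1)
  have h9 : (c + ε) * (R * T) < (c + 8 * ε) * T * ((1 - 2 * ε) * (R : ℝ)) := by
    have : (c + 8 * ε) * T * ((1 - 2 * ε) * (R : ℝ)) = ((c + 8 * ε) * (1 - 2 * ε)) * (R * T) := by ring
    rw [this]
    apply mul_lt_mul_of_pos_right _ (by positivity)
    nlinarith
  linarith

theorem choose_many' (R : ℕ) (hR : 0 < R) (V σ : ℕ → ℝ) (c T ε : ℝ) (hσ : ∀ r, 0 ≤ σ r) (hT : 0 < T)
    (hc : 1 / 2 ≤ c) (hc2 : c ≤ 2) (hε : 0 < ε) (hε1 : ε ≤ 1 / 32)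
    (h1 : (c - ε) * (R * T) ≤ ∑ r ∈ Icc 1 R, V r) (h2 : ∑ r ∈ Icc 1 R, σ r ≤ (1 + ε) * (R : ℝ)) :
    ∃ r ∈ Icc 1 R, (c - 8 * ε) * (max (σ r) ε * T) ≤ V r := by
  classical
  by_contra hcon
  push Not at hcon
  have hR0 : (0 : ℝ) < R := by exact_mod_cast hR
  have h3 : ∑ r ∈ Icc 1 R, V r ≤ ∑ r ∈ Icc 1 R, (c - 8 * ε) * (max (σ r) ε * T) :=
    Finset.sum_le_sum fun r hr => (hcon r hr).le
  have h5 : ∑ r ∈ Icc 1 R, (c - 8 * ε) * (max (σ r) ε * T) = (c - 8 * ε) * T * ∑ r ∈ Icc 1 R, max (σ r) ε := by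
    rw [Finset.mul_sum]
    apply Finset.sum_congr rfl
    intro r _
    ring
  have h6 : ∑ r ∈ Icc 1 R, max (σ r) ε ≤ (1 + 2 * ε) * R := by
    calc ∑ r ∈ Icc 1 R, max (σ r) ε ≤ ∑ r ∈ Icc 1 R, (σ r + ε) := by
          apply Finset.sum_le_sum
          intro r _
          exact max_le (by linarith) (by linarith [hσ r])
      _ = ∑ r ∈ Icc 1 R, σ r + ε * R := by
          rw [Finset.sum_add_distrib, Finset.sum_const, Nat.card_Icc, nsmul_eq_mul]
          simp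
          ring
      _ ≤ _ := by linarith
  have h8 : (c - ε) * (R * T) ≤ (c - 8 * ε) * T * ((1 + 2 * ε) * R) := by
    refine h1.trans (h3.trans ?_)
    rw [h5]
    apply mul_le_mul_of_nonneg_left h6
    apply mul_nonneg _ hT.le
    linarith
  have h9 : (c - 8 * ε) * T * ((1 + 2 * ε) * R) < (c - ε) * (R * T) := by
    have : (c - 8 * ε) * T * ((1 + 2 * ε) * (R : ℝ)) = ((c - 8 * ε) * (1 + 2 * ε)) * (R * T) := by ring
    rw [this]
    apply mul_lt_mul_of_pos_right _ (by positivity)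
    nlinarith
  linarith

theorem zL_yy (θ : ℝ) (hθ : 0 < θ) (hθ1 : θ < 1) : ∀ᶠ X : ℝ in atTop, zL θ (Real.log X) ≤ yy X ∧
    (zL θ (Real.log X) : ℝ) ≤ Real.log X / 1100 := by
  have e4 := Real.tendsto_log_atTop.eventually (Pool.Agent.R529.LD.ev_rpow θ 1 1100 hθ1)
  filter_upwards [e4, Real.tendsto_log_atTop.eventually_ge_atTop (1 : ℝ)] with X g4 g5
  rw [Real.rpow_one] at g4
  have h1 := zL_le θ (Real.log X) (by linarith)
  have h2 : (zL θ (Real.log X) : ℝ) ≤ Real.log X / 1100 := by linarith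
  refine ⟨?_, h2⟩
  unfold yy
  apply Nat.le_floor
  refine h2.trans ?_
  gcongr
  norm_num

theorem BEinv_le (θ : ℝ) (hθ : 0 < θ) (hθ1 : θ < 1) : ∀ᶠ X : ℝ in atTop, ∀ (ps : ℕ) (S : Finset ℕ),
    (BE (PZ X (zL θ (Real.log X)) S ps))⁻¹ ≤ 3 * Real.log (Real.log X) := by
  obtain ⟨z0, hz0⟩ := QQ_inv_le
  have hz : Tendsto (fun L : ℝ => (zL θ L : ℝ)) atTop atTop := tendsto_natCast_atTop_atTop.comp (zL_top θ hθ)
  filter_upwards [zL_yy θ hθ hθ1, Real.tendsto_log_atTop.eventually (hz.eventually_ge_atTop (max z0 1)),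
    Real.tendsto_log_atTop.eventually_ge_atTop (1 : ℝ)] with X g1 g2 g3
  intro ps S
  have h1 := hz0 (zL θ (Real.log X)) ((le_max_left _ _).trans g2)
  have h2 : (1 : ℝ) ≤ zL θ (Real.log X) := (le_max_right _ _).trans g2
  have h3 : (BE (PZ X (zL θ (Real.log X)) S ps))⁻¹ ≤ (QQ (zL θ (Real.log X)))⁻¹ :=
    inv_anti₀ (QQ_pos _) (QQ_le_BEZ S ps)
  refine h3.trans (h1.trans ?_)
  apply mul_le_mul_of_nonneg_left _ (by norm_num)
  apply Real.log_le_log (by linarith)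
  linarith [g1.2]

/-- few primes -/
theorem few_gen (t θ ε : ℝ) (hθ : 0 < θ) (hθ1 : θ < 1) (ht : 1 < t) (hε : 0 < ε) (hε1 : ε ≤ 1 / 16) :
    ∃ Z0 : ℕ, ∀ Z : ℕ, Z0 ≤ Z → ∀ᶠ X : ℝ in atTop, ∃ (ps : ℕ) (S : Finset ℕ), GoodP Z ps ∧ GoodS X S ∧
      ∀ (σ : ℕ → ℝ) (Y : ℕ) (H : Finset ℕ), H ⊆ Icc 1 Y → (Y : ℝ) ≤ (Real.log (4 * X)) ^ t →
        (Real.log (Real.log X)) ^ 2 ≤ H.card →
        (1 - ε) * (RL t (Real.log X) : ℝ) ≤ ∑ r ∈ Icc 1 (RL t (Real.log X)), σ r →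
        ∃ r ∈ Icc 1 (RL t (Real.log X)), ε ≤ σ r ∧
          X * Real.exp (-(1 / 2 * (Real.log X) ^ θ)) ≤
            ((rowset X (fun n => n ≡ r [MOD WZ X (zL θ (Real.log X)) S ps] ∧
              Real.log X * cP H n ≤ (cw (t / θ) + 12 * ε) * (σ r * H.card))).card : ℝ) := by
  obtain ⟨u, hu⟩ : ∃ u : ℝ, u = t / θ := ⟨_, rfl⟩
  have hut : 1 < u := by rw [hu, lt_div_iff₀ hθ]; linarith
  obtain ⟨η, hη0, hη1, z0, Z1, hz02, hZ11, hcs⟩ := class_sum u (ε / 9) hut (by positivity) (by linarith)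
  obtain ⟨k, hk⟩ := exists_nat_gt t
  refine ⟨Z1, fun Z hZ => ?_⟩
  obtain ⟨X0, hX0⟩ := rows_few k ε hε (by linarith) Z
  have hlt := Real.tendsto_log_atTop
  have hz : Tendsto (fun L : ℝ => (zL θ L : ℝ)) atTop atTop := tendsto_natCast_atTop_atTop.comp (zL_top θ hθ)
  have hll : Tendsto (fun X : ℝ => Real.log (Real.log X)) atTop atTop := hlt.comp hlt
  filter_upwards [eventually_ge_atTop X0, hlt.eventually (scales t θ u η (ε / 9) hθ hθ1 ht hu hη0 hη1 (by positivity)),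
    hlt.eventually (lens t (Real.log 4) ht k hk), zL_yy θ hθ hθ1, BEinv_le θ hθ hθ1,
    hlt.eventually (hz.eventually_ge_atTop z0), hll.eventually_ge_atTop (max 1 (240 / ε ^ 2)),
    hlt.eventually (rows_big θ hθ hθ1 k (ε / 200) (by positivity)), eventually_ge_atTop (1 : ℝ),
    hlt.eventually_ge_atTop (1 : ℝ)]
    with X g1 g2 g3 g4 g5 g6 g7 g8 g9 g10
  obtain ⟨ps, S, hps, hS, hrow⟩ := hX0 X g1
  refine ⟨ps, S, hps, hS, fun σ Y H hH hY hHc hσ => ?_⟩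
  obtain ⟨s1, s2, s3, s4, s5, s6⟩ := g2
  obtain ⟨l1, l2, l3⟩ := g3
  have hX0' : 0 < X := by linarith
  have hl4 : Real.log (4 * X) = Real.log X + Real.log 4 := by
    rw [Real.log_mul (by norm_num) hX0'.ne']
    ring
  rw [hl4] at hY
  set L := Real.log X with hL
  set z := zL θ L with hzdef
  set R := RL t L with hRdef
  set W := WZ X z S ps with hW
  set B := BE (PZ X z S ps) with hB
  have hB0 : 0 < B := BE_pos fun p hp => PZ_prime hp
  have hR0 : 0 < R := by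
    have : (0 : ℝ) < R := by linarith
    exact_mod_cast this
  obtain ⟨hc1, hc2⟩ := cw_bounds u hut.le
  have hps1 : GoodP Z1 ps := by
    rcases hps with h | ⟨h, h'⟩
    · exact Or.inl h
    · exact Or.inr ⟨h, by omega⟩
  have hll1 : 1 ≤ Real.log L := (le_max_left _ _).trans g7
  have hll2 : 240 / ε ^ 2 ≤ Real.log L := (le_max_right _ _).trans g7
  rw [div_le_iff₀ (by positivity)] at hll2
  have hHpos : (0 : ℝ) < H.card := lt_of_lt_of_le (by positivity) hHc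
  obtain ⟨-, c2⟩ := hcs X z Z1 ps S g9 g6 le_rfl g4.1 hps1 hS R s1 s2 Y H hH (hY.trans l1)
  obtain ⟨r, hr, hσr, hVr⟩ := choose_few' R hR0 (fun r => (VH W r H : ℝ) / B) σ (cw u) H.card ε
    (fun r _ => by positivity) hHpos (by linarith) hc2 hε hε1
    (c2.trans (by
      apply mul_le_mul_of_nonneg_right _ (by positivity)
      linarith)) hσ
  refine ⟨r, hr, hσr, ?_⟩
  have hσ0 : 0 < σ r := lt_of_lt_of_le hε hσr
  have h80 : 80 / B ≤ ε * (σ r * H.card) := by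
    have h1 : 80 / B ≤ 80 * (3 * Real.log L) := by
      rw [div_eq_mul_inv]
      exact mul_le_mul_of_nonneg_left (g5 ps S) (by norm_num)
    have h2 : 80 * (3 * Real.log L) ≤ ε ^ 2 * (Real.log L) ^ 2 := by nlinarith
    have h3 : ε ^ 2 * (Real.log L) ^ 2 ≤ ε * (σ r * H.card) := by
      calc ε ^ 2 * (Real.log L) ^ 2 = ε * (ε * (Real.log L) ^ 2) := by ring
        _ ≤ ε * (σ r * H.card) := by gcongr
    linarith
  have hA : ((VH W r H : ℝ) + 80) / B ≤ (cw u + 9 * ε) * (σ r * H.card) := by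
    rw [add_div]
    have : (cw u + 9 * ε) * (σ r * H.card) = (cw u + 8 * ε) * (σ r * H.card) + ε * (σ r * H.card) := by ring
    rw [this]
    exact add_le_add hVr h80
  have hfin := hrow z r Y H ((cw u + 9 * ε) * (σ r * H.card)) g4.2 (hY.trans l2) hH (by positivity) hA
  rw [← hW] at hfin
  have hsub : rowset X (fun n => n ≡ r [MOD W] ∧ L * cP H n ≤ (1 + ε) * ((cw u + 9 * ε) * (σ r * H.card))) ⊆
      rowset X (fun n => n ≡ r [MOD W] ∧ L * cP H n ≤ (cw (t / θ) + 12 * ε) * (σ r * H.card)) := by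
    intro n hn
    obtain ⟨m1, m2, m3, m4, m5⟩ := mem_rowset.1 hn
    refine mem_rowset.2 ⟨m1, m2, m3, m4, m5.trans ?_⟩
    rw [← hu, ← mul_assoc]
    apply mul_le_mul_of_nonneg_right _ (by positivity)
    nlinarith
  have hcard := Finset.card_le_card hsub
  have hcard' : ((rowset X (fun n => n ≡ r [MOD W] ∧ L * cP H n ≤ (1 + ε) * ((cw u + 9 * ε) * (σ r * H.card)))).card : ℝ) ≤
      ((rowset X (fun n => n ≡ r [MOD W] ∧ L * cP H n ≤ (cw (t / θ) + 12 * ε) * (σ r * H.card))).card : ℝ) := by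
    exact_mod_cast hcard
  refine le_trans ?_ (hfin.trans hcard')
  have h1 : Real.exp (-(1 / 2 * L ^ θ)) ≤ ε / 200 * Real.exp (-(3 / 2 * z)) := by
    refine le_trans ?_ g8
    have h2 : 1 ≤ 2 * L ^ (k + 1) := by
      have : 1 ≤ L ^ (k + 1) := one_le_pow₀ g10
      linarith
    exact le_mul_of_one_le_left (Real.exp_pos _).le h2
  calc X * Real.exp (-(1 / 2 * L ^ θ)) ≤ X * (ε / 200 * Real.exp (-(3 / 2 * z))) := by gcongr
    _ = _ := by ring

/-- many primes -/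
theorem many_gen (t θ ε : ℝ) (hθ : 0 < θ) (hθ1 : θ < 1) (ht : 1 < t) (hε : 0 < ε) (hε1 : ε ≤ 1 / 32) :
    ∃ Z0 : ℕ, ∀ Z : ℕ, Z0 ≤ Z → ∀ᶠ X : ℝ in atTop, ∃ (ps : ℕ) (S : Finset ℕ), GoodP Z ps ∧ GoodS X S ∧
      ∀ (σ : ℕ → ℝ) (Y : ℕ) (H : Finset ℕ), H ⊆ Icc 1 Y → (Y : ℝ) ≤ (Real.log (4 * X)) ^ t →
        (Real.log (Real.log X)) ^ 2 ≤ H.card → (∀ r, 0 ≤ σ r) →
        ∑ r ∈ Icc 1 (RL t (Real.log X)), σ r ≤ (1 + ε) * (RL t (Real.log X) : ℝ) →
        ∃ r ∈ Icc 1 (RL t (Real.log X)), 0 < VH (WZ X (zL θ (Real.log X)) S ps) r H ∧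
          X * Real.exp (-(1 / 2 * (Real.log X) ^ θ)) ≤
            ((rowset X (fun n => n ≡ r [MOD WZ X (zL θ (Real.log X)) S ps] ∧
              (cw (t / θ) - 12 * ε) * (max (σ r) ε * H.card) * (1 + GX (zL θ (Real.log X)) ⌊(Real.log X) ^ 2⌋₊ n) ≤
                Real.log (4 * X) * cP H n)).card : ℝ) := by
  obtain ⟨u, hu⟩ : ∃ u : ℝ, u = t / θ := ⟨_, rfl⟩
  have hut : 1 < u := by rw [hu, lt_div_iff₀ hθ]; linarith
  obtain ⟨η, hη0, hη1, z0, Z1, hz02, hZ11, hcs⟩ := class_sum u (ε / 9) hut (by positivity) (by linarith)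
  obtain ⟨k, hk⟩ := exists_nat_gt t
  refine ⟨Z1, fun Z hZ => ?_⟩
  obtain ⟨X0, hX0⟩ := rows_manyG k ε hε (by linarith) Z
  have hlt := Real.tendsto_log_atTop
  have hz : Tendsto (fun L : ℝ => (zL θ L : ℝ)) atTop atTop := tendsto_natCast_atTop_atTop.comp (zL_top θ hθ)
  have hll : Tendsto (fun X : ℝ => Real.log (Real.log X)) atTop atTop := hlt.comp hlt
  filter_upwards [eventually_ge_atTop X0, hlt.eventually (scales t θ u η (ε / 9) hθ hθ1 ht hu hη0 hη1 (by positivity)),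
    hlt.eventually (lens t (Real.log 4) ht k hk), zL_yy θ hθ hθ1, BEinv_le θ hθ hθ1,
    hlt.eventually (hz.eventually_ge_atTop (max z0 12)), hll.eventually_ge_atTop (max 1 (240 / ε ^ 2)),
    hlt.eventually (rows_big θ hθ hθ1 k (ε / 200) (by positivity)), eventually_ge_atTop (40 : ℝ),
    hlt.eventually_ge_atTop (1 : ℝ), weight_ev θ hθ hθ1 ε hε]
    with X g1 g2 g3 g4 g5 g6 g7 g8 g9 g10 g11
  obtain ⟨ps, S, hps, hS, hrow⟩ := hX0 X g1
  refine ⟨ps, S, hps, hS, fun σ Y H hH hY hHc hσn hσ => ?_⟩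
  obtain ⟨s1, s2, s3, s4, s5, s6⟩ := g2
  obtain ⟨l1, l2, l3⟩ := g3
  have hX0' : 0 < X := by linarith
  have hl4 : Real.log (4 * X) = Real.log X + Real.log 4 := by
    rw [Real.log_mul (by norm_num) hX0'.ne']
    ring
  rw [hl4] at hY
  have hWle := WZ_le X (zL θ (Real.log X)) S ps
  have hW0n := WZ_pos X (zL θ (Real.log X)) S ps
  have hM1 := MPhi_ge X g9
  have hco : ∀ p ∈ MP (zL θ (Real.log X)) ⌊(Real.log X) ^ 2⌋₊, (WZ X (zL θ (Real.log X)) S ps).Coprime p := by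
    intro p hp
    have h1 := mem_filter.1 hp
    have h2 := (mem_Ioc.1 h1.1).1
    apply Nat.Coprime.symm
    rw [h1.2.coprime_iff_not_dvd]
    intro hd
    have h3 := PZ_le ((dvd_WZ_iff h1.2).1 hd)
    omega
  set L := Real.log X with hL
  set z := zL θ L with hzdef
  set R := RL t L with hRdef
  set W := WZ X z S ps with hW
  set B := BE (PZ X z S ps) with hB
  have hB0 : 0 < B := BE_pos fun p hp => PZ_prime hp
  have hW0 : (0 : ℝ) < W := by exact_mod_cast hW0n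
  have hR0 : 0 < R := by
    have : (0 : ℝ) < R := by linarith
    exact_mod_cast this
  obtain ⟨hc1, hc2⟩ := cw_bounds u hut.le
  have hps1 : GoodP Z1 ps := by
    rcases hps with h | ⟨h, h'⟩
    · exact Or.inl h
    · exact Or.inr ⟨h, by omega⟩
  have hll1 : 1 ≤ Real.log L := (le_max_left _ _).trans g7
  have hll2 : 240 / ε ^ 2 ≤ Real.log L := (le_max_right _ _).trans g7
  rw [div_le_iff₀ (by positivity)] at hll2
  have hHpos : (0 : ℝ) < H.card := lt_of_lt_of_le (by positivity) hHc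
  have hz12 : 12 ≤ z := by
    have : (12 : ℝ) ≤ z := (le_max_right _ _).trans g6
    exact_mod_cast this
  obtain ⟨c1, -⟩ := hcs X z Z1 ps S (by linarith) ((le_max_left _ _).trans g6) le_rfl g4.1 hps1 hS R s1 s2 Y H hH (hY.trans l1)
  obtain ⟨r, hr, hVr⟩ := choose_many' R hR0 (fun r => (VH W r H : ℝ) / B) σ (cw u) H.card ε
    hσn hHpos hc1 hc2 hε hε1
    (le_trans (by
      apply mul_le_mul_of_nonneg_right _ (by positivity)
      linarith) c1) hσ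
  set M := max (σ r) ε with hM
  have hMε : ε ≤ M := le_max_right _ _
  have hM0 : 0 < M := lt_of_lt_of_le hε hMε
  have hcε : 0 < cw u - 9 * ε := by linarith
  have hMH : ε * (Real.log L) ^ 2 ≤ M * H.card := by gcongr
  have hMH0 : 0 < M * (H.card : ℝ) := by positivity
  have h80 : 80 / B ≤ ε * (M * H.card) := by
    have h1 : 80 / B ≤ 80 * (3 * Real.log L) := by
      rw [div_eq_mul_inv]
      exact mul_le_mul_of_nonneg_left (g5 ps S) (by norm_num)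
    have h2 : 80 * (3 * Real.log L) ≤ ε ^ 2 * (Real.log L) ^ 2 := by nlinarith
    have h3 : ε ^ 2 * (Real.log L) ^ 2 ≤ ε * (M * H.card) := by
      calc ε ^ 2 * (Real.log L) ^ 2 = ε * (ε * (Real.log L) ^ 2) := by ring
        _ ≤ ε * (M * H.card) := by gcongr
    linarith
  have hA : (cw u - 9 * ε) * (M * H.card) ≤ ((VH W r H : ℝ) - 80) / B := by
    rw [sub_div]
    have : (cw u - 9 * ε) * (M * H.card) = (cw u - 8 * ε) * (M * H.card) - ε * (M * H.card) := by ring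
    rw [this]
    exact sub_le_sub hVr h80
  have hA1 : 1 ≤ (cw u - 9 * ε) * (M * H.card) := by
    have h1 : 240 ≤ ε ^ 2 * (Real.log L) ^ 2 := by nlinarith
    have h2 : ε ^ 2 * (Real.log L) ^ 2 ≤ ε * (M * H.card) := by
      calc ε ^ 2 * (Real.log L) ^ 2 = ε * (ε * (Real.log L) ^ 2) := by ring
        _ ≤ ε * (M * H.card) := by gcongr
    have h3 : 32 * 240 ≤ M * (H.card : ℝ) := by nlinarith
    have h4 : (1 : ℝ) / 5 ≤ cw u - 9 * ε := by linarith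
    nlinarith
  have hGs : ∑ n ∈ Icc 1 ⌊3 * X⌋₊, nu X W r n * GX z ⌊L ^ 2⌋₊ n ≤ ε / 4 * (MPhi X / (2 * W)) := by
    refine (GX_sum X hX0'.le z ⌊L ^ 2⌋₊ W r hz12 hW0n hco).trans ((g11 W hW0 hWle).trans ?_)
    gcongr
  refine ⟨r, hr, ?_, ?_⟩
  · by_contra hcon
    have h0 : VH W r H = 0 := by omega
    rw [h0] at hVr
    simp only [Nat.cast_zero, zero_div] at hVr
    have : 0 < (cw u - 8 * ε) * (M * H.card) := mul_pos (by linarith) hMH0
    linarith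
  have hfin := hrow z r Y H ((cw u - 9 * ε) * (M * H.card)) (GX z ⌊L ^ 2⌋₊) g4.2 (hY.trans l2) hH hA1 hA
    (fun n => GX_nonneg _ _ _) hGs
  rw [← hW] at hfin
  have hsub : rowset X (fun n => n ≡ r [MOD W] ∧
      (1 - ε) * ((cw u - 9 * ε) * (M * H.card)) * (1 + GX z ⌊L ^ 2⌋₊ n) ≤ Real.log (4 * X) * cP H n) ⊆
      rowset X (fun n => n ≡ r [MOD W] ∧ (cw (t / θ) - 12 * ε) * (M * H.card) * (1 + GX z ⌊L ^ 2⌋₊ n) ≤
        Real.log (4 * X) * cP H n) := by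
    intro n hn
    obtain ⟨m1, m2, m3, m4, m5⟩ := mem_rowset.1 hn
    refine mem_rowset.2 ⟨m1, m2, m3, m4, le_trans ?_ m5⟩
    have hG := GX_nonneg z ⌊L ^ 2⌋₊ n
    apply mul_le_mul_of_nonneg_right _ (by linarith)
    rw [← hu]
    have hx : (1 - ε) * ((cw u - 9 * ε) * (M * H.card)) = ((1 - ε) * (cw u - 9 * ε)) * (M * H.card) := by ring
    rw [hx]
    apply mul_le_mul_of_nonneg_right _ hMH0.le
    nlinarith
  have hcard := Finset.card_le_card hsub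
  have hL0 : (0 : ℝ) < L := by linarith
  have hLk : 0 < 2 * L ^ (k + 1) := by positivity
  have h1 : 2 * L ^ (k + 1) * (X * Real.exp (-(1 / 2 * L ^ θ))) ≤ 2 * L ^ (k + 1) *
      ((rowset X (fun n => n ≡ r [MOD W] ∧ (cw (t / θ) - 12 * ε) * (M * H.card) * (1 + GX z ⌊L ^ 2⌋₊ n) ≤
        Real.log (4 * X) * cP H n)).card : ℝ) := by
    calc 2 * L ^ (k + 1) * (X * Real.exp (-(1 / 2 * L ^ θ))) = X * (2 * L ^ (k + 1) * Real.exp (-(1 / 2 * L ^ θ))) := by ring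
      _ ≤ X * (ε / 200 * Real.exp (-(3 / 2 * z))) := by gcongr
      _ = ε / 200 * (X * Real.exp (-(3 / 2 * z))) := by ring
      _ ≤ _ := hfin
      _ ≤ _ := by gcongr
  exact le_of_mul_le_mul_left h1 hLk

end Pool.Agent.H560.MQ
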