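import Pool.Agent.H560.MQ.Shift

/-!
Many primes, with a shifted weight.
-/

set_option autoImplicit false

open Finset Filter Topology
open Pool.Agent.H378R2 Pool.Agent.H510R2.Maier Pool.Agent.T2H52.MG
open Pool.Agent.R529.LD (ev_rpow ratio_one)

namespace Pool.Agent.H560.MQ

/-- the contribution of the weight -/
theorem weight_evS (θ : ℝ) (hθ : 0 < θ) (hθ1 : θ < 1) (ε : ℝ) (hε : 0 < ε) : ∀ᶠ X : ℝ in atTop,
    ∀ W : ℝ, 0 < W → W ≤ Real.exp (3 / 2 * zL θ (Real.log X)) →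
      48 * X / (W * zL θ (Real.log X)) + 27 * ((⌊(Real.log X) ^ 2⌋₊ : ℕ) : ℝ) ^ 3 + 27 ≤ ε / 4 * (X / 20 / (2 * W)) := by
  have hlt := Real.tendsto_log_atTop
  have hz : Tendsto (fun L : ℝ => (zL θ L : ℝ)) atTop atTop := tendsto_natCast_atTop_atTop.comp (zL_top θ hθ)
  have e1 := hlt.eventually (hz.eventually_ge_atTop (max 1 (48 * 320 / ε)))
  have e2 : ∀ᶠ L : ℝ in atTop, L ^ 6 ≤ Real.exp (1 / 4 * L) := by
    have h1 := isLittleO_pow_exp_pos_mul_atTop 6 (show (0 : ℝ) < 1 / 4 by norm_num)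
    filter_upwards [h1.def one_pos, eventually_ge_atTop (0 : ℝ)] with L g1 g2
    rw [Real.norm_eq_abs, abs_of_nonneg (by positivity), Real.norm_eq_abs, abs_of_nonneg (Real.exp_pos _).le, one_mul] at g1
    exact g1
  have e3 : ∀ᶠ L : ℝ in atTop, 54 * 320 / ε ≤ Real.exp (1 / 4 * L) :=
    (Real.tendsto_exp_atTop.comp (tendsto_id.const_mul_atTop (show (0 : ℝ) < 1 / 4 by norm_num))).eventually_ge_atTop _
  have e4 := hlt.eventually (ev_rpow θ 1 2 hθ1)
  filter_upwards [e1, hlt.eventually e2, hlt.eventually e3, e4, hlt.eventually_ge_atTop (1 : ℝ), eventually_gt_atTop (0 : ℝ)]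
    with X g1 g2 g3 g4 g5 g6
  intro W hW hWle
  set L := Real.log X with hL
  set z := zL θ L with hzdef
  have hexp : Real.exp L = X := Real.exp_log g6
  have hz1 : (1 : ℝ) ≤ z := (le_max_left _ _).trans g1
  have hz2 : 48 * 320 / ε ≤ z := (le_max_right _ _).trans g1
  rw [div_le_iff₀ hε] at hz2 g3
  have hz0 : (0 : ℝ) < z := by linarith
  rw [Real.rpow_one] at g4
  have hzL : (z : ℝ) ≤ 1 / 8 * L := by
    have := zL_le θ L (by linarith)
    linarith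
  have hf : ((⌊L ^ 2⌋₊ : ℕ) : ℝ) ≤ L ^ 2 := Nat.floor_le (by positivity)
  have hf3 : ((⌊L ^ 2⌋₊ : ℕ) : ℝ) ^ 3 ≤ L ^ 6 := by
    calc ((⌊L ^ 2⌋₊ : ℕ) : ℝ) ^ 3 ≤ (L ^ 2) ^ 3 := by gcongr
      _ = L ^ 6 := by ring
  have hL6 : 1 ≤ L ^ 6 := one_le_pow₀ g5
  have hXW : 0 < X / W := by positivity
  have a1 : 48 * X / (W * z) ≤ ε / 320 * (X / W) := by
    have : 48 * X / (W * z) = 48 / z * (X / W) := by field_simp
    rw [this]
    apply mul_le_mul_of_nonneg_right _ hXW.le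
    rw [div_le_div_iff₀ hz0 (by norm_num)]
    linarith
  have a2 : 27 * ((⌊L ^ 2⌋₊ : ℕ) : ℝ) ^ 3 + 27 ≤ ε / 320 * (X / W) := by
    have b1 : X / W ≥ Real.exp (3 / 4 * L) := by
      rw [ge_iff_le, le_div_iff₀ hW, ← hexp]
      calc Real.exp (3 / 4 * L) * W ≤ Real.exp (3 / 4 * L) * Real.exp (3 / 2 * z) := by gcongr
        _ = Real.exp (3 / 4 * L + 3 / 2 * z) := by rw [Real.exp_add]
        _ ≤ Real.exp L := Real.exp_le_exp.2 (by linarith)
    have b2 : Real.exp (3 / 4 * L) = Real.exp (1 / 4 * L) * (Real.exp (1 / 4 * L) * Real.exp (1 / 4 * L)) := by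
      rw [← Real.exp_add, ← Real.exp_add]; congr 1; ring
    have b3 : 1 ≤ Real.exp (1 / 4 * L) := Real.one_le_exp (by positivity)
    have b4 : 54 * L ^ 6 ≤ ε / 320 * (X / W) := by
      calc 54 * L ^ 6 ≤ (ε / 320 * Real.exp (1 / 4 * L)) * Real.exp (1 / 4 * L) := by
            apply mul_le_mul _ g2 (by positivity) (by positivity)
            linarith
        _ ≤ (ε / 320 * Real.exp (1 / 4 * L)) * (Real.exp (1 / 4 * L) * Real.exp (1 / 4 * L)) := by
            apply mul_le_mul_of_nonneg_left _ (by positivity)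
            exact le_mul_of_one_le_right (Real.exp_pos _).le b3
        _ = ε / 320 * Real.exp (3 / 4 * L) := by rw [b2]; ring
        _ ≤ ε / 320 * (X / W) := by gcongr
    linarith
  have a3 : ε / 4 * (X / 20 / (2 * W)) = ε / 320 * (X / W) + ε / 320 * (X / W) := by field_simp; ring
  rw [a3]
  linarith

/-- many primes, with a shifted weight -/
theorem many_genS (t θ ε : ℝ) (hθ : 0 < θ) (hθ1 : θ < 1) (ht : 1 < t) (hε : 0 < ε) (hε1 : ε ≤ 1 / 32) :
    ∃ Z0 : ℕ, ∀ Z : ℕ, Z0 ≤ Z → ∀ᶠ X : ℝ in atTop, ∃ (ps : ℕ) (S : Finset ℕ), GoodP Z ps ∧ GoodS X S ∧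
      ∀ (σ : ℕ → ℝ) (Y a : ℕ) (H : Finset ℕ), (a : ℝ) ≤ X → H ⊆ Icc 1 Y → (Y : ℝ) ≤ (Real.log (4 * X)) ^ t →
        (Real.log (Real.log X)) ^ 2 ≤ H.card → (∀ r, 0 ≤ σ r) →
        ∑ r ∈ Icc 1 (RL t (Real.log X)), σ r ≤ (1 + ε) * (RL t (Real.log X) : ℝ) →
        ∃ r ∈ Icc 1 (RL t (Real.log X)), 0 < VH (WZ X (zL θ (Real.log X)) S ps) r H ∧
          X * Real.exp (-(1 / 2 * (Real.log X) ^ θ)) ≤
            ((rowset X (fun n => n ≡ r [MOD WZ X (zL θ (Real.log X)) S ps] ∧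
              (cw (t / θ) - 12 * ε) * (max (σ r) ε * H.card) * (1 + GX (zL θ (Real.log X)) ⌊(Real.log X) ^ 2⌋₊ (n + a)) ≤
                Real.log (4 * X) * cP H n)).card : ℝ) := by
  obtain ⟨u, hu⟩ : ∃ u : ℝ, u = t / θ := ⟨_, rfl⟩
  have hut : 1 < u := by rw [hu, lt_div_iff₀ hθ]; linarith
  obtain ⟨η, hη0, hη1, z0, Z1, hz02, hZ11, hcs⟩ := class_sum u (ε / 9) hut (by positivity) (by linarith)
  obtain ⟨k, hk⟩ := exists_nat_gt t
  refine ⟨Z1, fun Z hZ => ?_⟩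
  obtain ⟨X0, hX0⟩ := rows_manyG k ε hε (by linarith) Z
  have hlt := Real.tendsto_log_atTop
  have hz : Tendsto (fun L : ℝ => (zL θ L : ℝ)) atTop atTop := tendsto_natCast_atTop_atTop.comp (zL_top θ hθ)
  have hll : Tendsto (fun X : ℝ => Real.log (Real.log X)) atTop atTop := hlt.comp hlt
  filter_upwards [eventually_ge_atTop X0, hlt.eventually (scales t θ u η (ε / 9) hθ hθ1 ht hu hη0 hη1 (by positivity)),
    hlt.eventually (lens t (Real.log 4) ht k hk), zL_yy θ hθ hθ1, BEinv_le θ hθ hθ1,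
    hlt.eventually (hz.eventually_ge_atTop (max z0 12)), hll.eventually_ge_atTop (max 1 (240 / ε ^ 2)),
    hlt.eventually (rows_big θ hθ hθ1 k (ε / 200) (by positivity)), eventually_ge_atTop (40 : ℝ),
    hlt.eventually_ge_atTop (1 : ℝ), weight_evS θ hθ hθ1 ε hε]
    with X g1 g2 g3 g4 g5 g6 g7 g8 g9 g10 g11
  obtain ⟨ps, S, hps, hS, hrow⟩ := hX0 X g1
  refine ⟨ps, S, hps, hS, fun σ Y a H ha hH hY hHc hσn hσ => ?_⟩
  obtain ⟨s1, s2, s3, s4, s5, s6⟩ := g2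
  obtain ⟨l1, l2, l3⟩ := g3
  have hX0' : 0 < X := by linarith
  have hl4 : Real.log (4 * X) = Real.log X + Real.log 4 := by
    rw [Real.log_mul (by norm_num) hX0'.ne']
    ring
  rw [hl4] at hY
  have hWle := WZ_le X (zL θ (Real.log X)) S ps
  have hW0n := WZ_pos X (zL θ (Real.log X)) S ps
  have hM1 := MPhi_ge X g9
  have hco : ∀ p ∈ MP (zL θ (Real.log X)) ⌊(Real.log X) ^ 2⌋₊, (WZ X (zL θ (Real.log X)) S ps).Coprime p := by
    intro p hp
    have h1 := mem_filter.1 hp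
    have h2 := (mem_Ioc.1 h1.1).1
    apply Nat.Coprime.symm
    rw [h1.2.coprime_iff_not_dvd]
    intro hd
    have h3 := PZ_le ((dvd_WZ_iff h1.2).1 hd)
    omega
  set L := Real.log X with hL
  set z := zL θ L with hzdef
  set R := RL t L with hRdef
  set W := WZ X z S ps with hW
  set B := BE (PZ X z S ps) with hB
  have hB0 : 0 < B := BE_pos fun p hp => PZ_prime hp
  have hW0 : (0 : ℝ) < W := by exact_mod_cast hW0n
  have hR0 : 0 < R := by
    have : (0 : ℝ) < R := by linarith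
    exact_mod_cast this
  obtain ⟨hc1, hc2⟩ := cw_bounds u hut.le
  have hps1 : GoodP Z1 ps := by
    rcases hps with h | ⟨h, h'⟩
    · exact Or.inl h
    · exact Or.inr ⟨h, by omega⟩
  have hll1 : 1 ≤ Real.log L := (le_max_left _ _).trans g7
  have hll2 : 240 / ε ^ 2 ≤ Real.log L := (le_max_right _ _).trans g7
  rw [div_le_iff₀ (by positivity)] at hll2
  have hHpos : (0 : ℝ) < H.card := lt_of_lt_of_le (by positivity) hHc
  have hz12 : 12 ≤ z := by
    have : (12 : ℝ) ≤ z := (le_max_right _ _).trans g6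
    exact_mod_cast this
  obtain ⟨c1, -⟩ := hcs X z Z1 ps S (by linarith) ((le_max_left _ _).trans g6) le_rfl g4.1 hps1 hS R s1 s2 Y H hH (hY.trans l1)
  obtain ⟨r, hr, hVr⟩ := choose_many' R hR0 (fun r => (VH W r H : ℝ) / B) σ (cw u) H.card ε
    hσn hHpos hc1 hc2 hε hε1
    (le_trans (by
      apply mul_le_mul_of_nonneg_right _ (by positivity)
      linarith) c1) hσ
  set M := max (σ r) ε with hM
  have hMε : ε ≤ M := le_max_right _ _
  have hM0 : 0 < M := lt_of_lt_of_le hε hMε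
  have hcε : 0 < cw u - 9 * ε := by linarith
  have hMH : ε * (Real.log L) ^ 2 ≤ M * H.card := by gcongr
  have hMH0 : 0 < M * (H.card : ℝ) := by positivity
  have h80 : 80 / B ≤ ε * (M * H.card) := by
    have h1 : 80 / B ≤ 80 * (3 * Real.log L) := by
      rw [div_eq_mul_inv]
      exact mul_le_mul_of_nonneg_left (g5 ps S) (by norm_num)
    have h2 : 80 * (3 * Real.log L) ≤ ε ^ 2 * (Real.log L) ^ 2 := by nlinarith
    have h3 : ε ^ 2 * (Real.log L) ^ 2 ≤ ε * (M * H.card) := by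
      calc ε ^ 2 * (Real.log L) ^ 2 = ε * (ε * (Real.log L) ^ 2) := by ring
        _ ≤ ε * (M * H.card) := by gcongr
    linarith
  have hA : (cw u - 9 * ε) * (M * H.card) ≤ ((VH W r H : ℝ) - 80) / B := by
    rw [sub_div]
    have : (cw u - 9 * ε) * (M * H.card) = (cw u - 8 * ε) * (M * H.card) - ε * (M * H.card) := by ring
    rw [this]
    exact sub_le_sub hVr h80
  have hA1 : 1 ≤ (cw u - 9 * ε) * (M * H.card) := by
    have h1 : 240 ≤ ε ^ 2 * (Real.log L) ^ 2 := by nlinarith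
    have h2 : ε ^ 2 * (Real.log L) ^ 2 ≤ ε * (M * H.card) := by
      calc ε ^ 2 * (Real.log L) ^ 2 = ε * (ε * (Real.log L) ^ 2) := by ring
        _ ≤ ε * (M * H.card) := by gcongr
    have h3 : 32 * 240 ≤ M * (H.card : ℝ) := by nlinarith
    have h4 : (1 : ℝ) / 5 ≤ cw u - 9 * ε := by linarith
    nlinarith
  have hGs : ∑ n ∈ Icc 1 ⌊3 * X⌋₊, nu X W r n * GX z ⌊L ^ 2⌋₊ (n + a) ≤ ε / 4 * (MPhi X / (2 * W)) := by
    refine (GX_sum_shift X hX0'.le a z ⌊L ^ 2⌋₊ W r ha hz12 hW0n hco).trans ((g11 W hW0 hWle).trans ?_)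
    gcongr
  refine ⟨r, hr, ?_, ?_⟩
  · by_contra hcon
    have h0 : VH W r H = 0 := by omega
    rw [h0] at hVr
    simp only [Nat.cast_zero, zero_div] at hVr
    have : 0 < (cw u - 8 * ε) * (M * H.card) := mul_pos (by linarith) hMH0
    linarith
  have hfin := hrow z r Y H ((cw u - 9 * ε) * (M * H.card)) (fun n => GX z ⌊L ^ 2⌋₊ (n + a)) g4.2 (hY.trans l2) hH hA1 hA
    (fun n => GX_nonneg _ _ _) hGs
  rw [← hW] at hfin
  have hsub : rowset X (fun n => n ≡ r [MOD W] ∧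
      (1 - ε) * ((cw u - 9 * ε) * (M * H.card)) * (1 + GX z ⌊L ^ 2⌋₊ (n + a)) ≤ Real.log (4 * X) * cP H n) ⊆
      rowset X (fun n => n ≡ r [MOD W] ∧ (cw (t / θ) - 12 * ε) * (M * H.card) * (1 + GX z ⌊L ^ 2⌋₊ (n + a)) ≤
        Real.log (4 * X) * cP H n) := by
    intro n hn
    obtain ⟨m1, m2, m3, m4, m5⟩ := mem_rowset.1 hn
    refine mem_rowset.2 ⟨m1, m2, m3, m4, le_trans ?_ m5⟩
    have hG := GX_nonneg z ⌊L ^ 2⌋₊ (n + a)
    apply mul_le_mul_of_nonneg_right _ (by linarith)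
    rw [← hu]
    have hx : (1 - ε) * ((cw u - 9 * ε) * (M * H.card)) = ((1 - ε) * (cw u - 9 * ε)) * (M * H.card) := by ring
    rw [hx]
    apply mul_le_mul_of_nonneg_right _ hMH0.le
    nlinarith
  have hcard := Finset.card_le_card hsub
  have hL0 : (0 : ℝ) < L := by linarith
  have hLk : 0 < 2 * L ^ (k + 1) := by positivity
  have h1 : 2 * L ^ (k + 1) * (X * Real.exp (-(1 / 2 * L ^ θ))) ≤ 2 * L ^ (k + 1) *
      ((rowset X (fun n => n ≡ r [MOD W] ∧ (cw (t / θ) - 12 * ε) * (M * H.card) * (1 + GX z ⌊L ^ 2⌋₊ (n + a)) ≤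
        Real.log (4 * X) * cP H n)).card : ℝ) := by
    calc 2 * L ^ (k + 1) * (X * Real.exp (-(1 / 2 * L ^ θ))) = X * (2 * L ^ (k + 1) * Real.exp (-(1 / 2 * L ^ θ))) := by ring
      _ ≤ X * (ε / 200 * Real.exp (-(3 / 2 * z))) := by gcongr
      _ = ε / 200 * (X * Real.exp (-(3 / 2 * z))) := by ring
      _ ≤ _ := hfin
      _ ≤ _ := by gcongr
  exact le_of_mul_le_mul_left h1 hLk

end Pool.Agent.H560.MQ
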