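import Pool.Agent.H560.MQ.Gen
import Pool.Graph.R_pool_sql_team_seeded_b0a926ef.R529.BU.Lim

/-!
The fundamental lemma for all intervals and all sets of primes.
-/

set_option autoImplicit false

open Finset Filter Topology
open Pool.Agent.H378R2 Pool.Agent.H510R2.Maier Pool.Agent.T2H52.MG

namespace Pool.Agent.H560.MQ

/-- the number of the `1 ≤ m ≤ R` with `a + m` prime to `W` -/
def cnt (W a R : ℕ) : ℕ := ((Icc 1 R).filter (fun m => (a + m).Coprime W)).card

theorem cnt_add (W a R : ℕ) : cnt W a (R + W) = cnt W a R + W.totient := by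
  classical
  unfold cnt
  have h1 : (Icc 1 (R + W)).filter (fun m => (a + m).Coprime W) =
      (Icc 1 R).filter (fun m => (a + m).Coprime W) ∪ (Ico (R + 1) (R + 1 + W)).filter (fun m => (a + m).Coprime W) := by
    rw [← Finset.filter_union]
    congr 1
    ext m
    simp only [mem_Icc, mem_union, mem_Ico]
    omega
  have h2 : ((Ico (R + 1) (R + 1 + W)).filter (fun m => (a + m).Coprime W)).card = W.totient := by
    have h3 := Nat.filter_coprime_Ico_eq_totient W (a + (R + 1))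
    rw [← h3]
    apply Finset.card_bij (fun m _ => a + m)
    · intro m hm
      rw [mem_filter, mem_Ico] at hm ⊢
      exact ⟨⟨by omega, by omega⟩, hm.2.symm⟩
    · intro x _ y _ hxy
      omega
    · intro b hb
      rw [mem_filter, mem_Ico] at hb
      refine ⟨b - a, ?_, by omega⟩
      rw [mem_filter, mem_Ico]
      refine ⟨⟨by omega, by omega⟩, ?_⟩
      have : a + (b - a) = b := by omega
      rw [this]
      exact hb.2.symm
  rw [h1, Finset.card_union_of_disjoint, h2]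
  rw [Finset.disjoint_left]
  intro m h3 h4
  rw [mem_filter, mem_Icc] at h3
  rw [mem_filter, mem_Ico] at h4
  omega

theorem cnt_le (W a R : ℕ) : cnt W a R ≤ R := by
  unfold cnt
  refine (Finset.card_filter_le _ _).trans ?_
  simp

theorem cnt_mul (W a q : ℕ) : ∀ r : ℕ, cnt W a (r + q * W) = cnt W a r + q * W.totient := by
  induction q with
  | zero => intro r; simp
  | succ q ih =>
    intro r
    rw [Nat.succ_mul, ← add_assoc, cnt_add, ih]
    ring

/-- the trivial estimate -/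
theorem cnt_triv (W a R : ℕ) (hW : 0 < W) : |(cnt W a R : ℝ) - R * (W.totient / W)| ≤ W := by
  have hW0 : (0 : ℝ) < W := by exact_mod_cast hW
  have h1 := cnt_mul W a (R / W) (R % W)
  have h2 : R % W + R / W * W = R := by rw [mul_comm]; exact Nat.mod_add_div R W
  rw [h2] at h1
  have h3 : (R : ℝ) = (R % W : ℕ) + (R / W : ℕ) * W := by exact_mod_cast h2.symm
  have h4 : (cnt W a R : ℝ) = cnt W a (R % W) + (R / W : ℕ) * W.totient := by exact_mod_cast h1
  have h5 : (cnt W a (R % W) : ℝ) ≤ (R % W : ℕ) := by exact_mod_cast cnt_le W a (R % W)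
  have h6 : ((R % W : ℕ) : ℝ) ≤ W := by exact_mod_cast (Nat.mod_lt R hW).le
  have h7 : (0 : ℝ) ≤ cnt W a (R % W) := Nat.cast_nonneg _
  have h8 : (W.totient : ℝ) / W ≤ 1 := by
    rw [div_le_one hW0]
    exact_mod_cast Nat.totient_le W
  have h9 : (0 : ℝ) ≤ W.totient / W := by positivity
  have h10 : (0 : ℝ) ≤ ((R % W : ℕ) : ℝ) := Nat.cast_nonneg _
  have h11 : (cnt W a R : ℝ) - R * (W.totient / W) = cnt W a (R % W) - ((R % W : ℕ) : ℝ) * (W.totient / W) := by
    have : (R : ℝ) * (W.totient / W) =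
        ((R % W : ℕ) : ℝ) * (W.totient / W) + (R / W : ℕ) * W.totient := by
      rw [h3, add_mul]
      have h3' : ((R / W : ℕ) : ℝ) * (W : ℝ) * (W.totient / W) = (R / W : ℕ) * W.totient := by field_simp
      rw [h3']
    rw [this, h4]
    ring
  rw [h11, abs_le]
  have h12 : ((R % W : ℕ) : ℝ) * (W.totient / W) ≤ ((R % W : ℕ) : ℝ) * 1 := mul_le_mul_of_nonneg_left h8 h10
  have h13 : 0 ≤ ((R % W : ℕ) : ℝ) * (W.totient / W) := mul_nonneg h10 h9
  constructor
  · linarith
  · linarith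

/-- removing primes from the modulus -/
theorem cnt_avg (W e : ℕ) (hW : 0 < W) (he : 0 < e) (hco : W.Coprime e) (R : ℕ) (ε : ℝ)
    (h : ∀ a : ℕ, |(cnt (W * e) a R : ℝ) - R * ((W * e).totient / ((W * e : ℕ) : ℝ))| ≤
      ε * (R * ((W * e).totient / ((W * e : ℕ) : ℝ)))) (a : ℕ) :
    |(cnt W a R : ℝ) - R * (W.totient / W)| ≤ ε * (R * (W.totient / W)) := by
  classical
  have hW0 : (0 : ℝ) < W := by exact_mod_cast hW
  have he0 : (0 : ℝ) < e := by exact_mod_cast he
  have hφ : (0 : ℝ) < e.totient := by exact_mod_cast Nat.totient_pos.2 he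
  -- the shifts
  have hc : ∀ b : ℕ, ∃ c : ℕ, c ≡ 0 [MOD W] ∧ c ≡ b [MOD e] := fun b => by
    obtain ⟨c, hc⟩ := Nat.chineseRemainder hco 0 b
    exact ⟨c, hc.1, hc.2⟩
  choose c hc1 hc2 using hc
  have h1 : ∀ b : ℕ, ((Icc 1 R).filter (fun m => (a + m).Coprime W ∧ (a + m + b).Coprime e)).card =
      cnt (W * e) (a + c b) R := by
    intro b
    unfold cnt
    congr 1
    apply Finset.filter_congr
    intro m _
    rw [Nat.coprime_mul_iff_right]
    have h2 : (a + m).Coprime W ↔ (a + c b + m).Coprime W := by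
      have h3 : a + m ≡ a + c b + m [MOD W] := by
        have := (Nat.ModEq.add_left (a + m) (hc1 b)).symm
        rw [add_zero] at this
        have h4 : a + m + c b = a + c b + m := by ring
        rwa [h4] at this
      unfold Nat.Coprime
      rw [h3.gcd_eq]
    have h3 : (a + m + b).Coprime e ↔ (a + c b + m).Coprime e := by
      have h3 : a + m + b ≡ a + c b + m [MOD e] := by
        have := (Nat.ModEq.add_left (a + m) (hc2 b)).symm
        have h4 : a + m + c b = a + c b + m := by ring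
        rwa [h4] at this
      unfold Nat.Coprime
      rw [h3.gcd_eq]
    rw [h2, h3]
  have h2 : ∑ b ∈ range e, ((Icc 1 R).filter (fun m => (a + m).Coprime W ∧ (a + m + b).Coprime e)).card =
      e.totient * cnt W a R := by
    have h3 : ∀ b, ((Icc 1 R).filter (fun m => (a + m).Coprime W ∧ (a + m + b).Coprime e)).card =
        ∑ m ∈ (Icc 1 R).filter (fun m => (a + m).Coprime W), if (a + m + b).Coprime e then 1 else 0 := by
      intro b
      rw [← Finset.card_filter, Finset.filter_filter]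
    rw [Finset.sum_congr rfl fun b _ => h3 b, Finset.sum_comm]
    have h4 : ∀ m ∈ (Icc 1 R).filter (fun m => (a + m).Coprime W),
        (∑ b ∈ range e, if (a + m + b).Coprime e then 1 else 0) = e.totient := by
      intro m _
      rw [← Finset.card_filter, ← Nat.filter_coprime_Ico_eq_totient e (a + m)]
      apply Finset.card_bij (fun b _ => a + m + b)
      · intro b hb
        rw [mem_filter, mem_range] at hb
        rw [mem_filter, mem_Ico]
        exact ⟨⟨by omega, by omega⟩, hb.2.symm⟩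
      · intro x _ y _ hxy
        omega
      · intro b hb
        rw [mem_filter, mem_Ico] at hb
        refine ⟨b - (a + m), ?_, by omega⟩
        rw [mem_filter, mem_range]
        refine ⟨by omega, ?_⟩
        have : a + m + (b - (a + m)) = b := by omega
        rw [this]
        exact hb.2.symm
    rw [Finset.sum_congr rfl h4, Finset.sum_const, smul_eq_mul, mul_comm]
    rfl
  rw [Finset.sum_congr rfl fun b _ => h1 b] at h2
  have h3 : ∑ b ∈ range e, (cnt (W * e) (a + c b) R : ℝ) = e.totient * cnt W a R := by exact_mod_cast h2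
  have htot : (((W * e).totient : ℕ) : ℝ) / ((W * e : ℕ) : ℝ) = W.totient / W * (e.totient / e) := by
    rw [Nat.totient_mul hco]
    push_cast
    field_simp
  rw [htot] at h
  set v := (W.totient : ℝ) / W with hv
  have h4 : |∑ b ∈ range e, ((cnt (W * e) (a + c b) R : ℝ) - R * (v * (e.totient / e)))| ≤
      ∑ b ∈ range e, ε * (R * (v * (e.totient / e))) :=
    (Finset.abs_sum_le_sum_abs _ _).trans (Finset.sum_le_sum fun b _ => h _)
  rw [Finset.sum_sub_distrib, h3, Finset.sum_const, Finset.sum_const, card_range, nsmul_eq_mul, nsmul_eq_mul] at h4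
  have h5 : (e.totient : ℝ) * cnt W a R - e * (R * (v * (e.totient / e))) = e.totient * (cnt W a R - R * v) := by
    field_simp
  have h6 : (e : ℝ) * (ε * (R * (v * (e.totient / e)))) = e.totient * (ε * (R * v)) := by
    field_simp
  rw [h5, h6, abs_mul, abs_of_pos hφ] at h4
  exact le_of_mul_le_mul_left h4 hφ

theorem tot_prod (P : Finset ℕ) (hP : ∀ p ∈ P, p.Prime) :
    (((∏ p ∈ P, p).totient : ℕ) : ℝ) = ((∏ p ∈ P, p : ℕ) : ℝ) * BE P := by
  classical
  unfold BE
  induction P using Finset.induction_on with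
  | empty => simp
  | insert q P hq ih =>
    have hqp := hP q (mem_insert_self _ _)
    have hco : q.Coprime (∏ p ∈ P, p) := by
      apply Nat.Coprime.prod_right
      intro p hp
      rw [Nat.coprime_primes hqp (hP p (mem_insert_of_mem hp))]
      intro h
      exact hq (h ▸ hp)
    have h0 : (q : ℝ) ≠ 0 := by exact_mod_cast hqp.ne_zero
    rw [Finset.prod_insert hq, Finset.prod_insert hq, Nat.totient_mul hco, Nat.totient_prime hqp]
    push_cast
    rw [ih fun p hp => hP p (mem_insert_of_mem hp)]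
    have h1 : ((q - 1 : ℕ) : ℝ) = (q : ℝ) - 1 := by
      rw [Nat.cast_sub hqp.one_lt.le, Nat.cast_one]
    rw [h1]
    push_cast
    field_simp

/-- the primes up to `w` -/
def Pw (w : ℕ) : Finset ℕ := (Icc 1 w).filter Nat.Prime

theorem Pw_eq (w : ℕ) : Pool.Agent.W89.Sv.PP 1 (w + 1) = Pw w := by
  ext p
  rw [Pool.Agent.W89.Sv.mem_PP]
  unfold Pw
  rw [mem_filter, mem_Icc]
  constructor
  · rintro ⟨h1, h2, _⟩
    exact ⟨⟨h2.one_lt.le, by omega⟩, h2⟩
  · rintro ⟨⟨h1, h2⟩, h3⟩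
    exact ⟨by omega, h3, fun h => h3.one_lt.ne' (Nat.dvd_one.1 h)⟩

theorem Pw_prime {w p : ℕ} (h : p ∈ Pw w) : p.Prime := (mem_filter.1 h).2

theorem mem_Pw {w p : ℕ} : p ∈ Pw w ↔ p ≤ w ∧ p.Prime := by
  unfold Pw
  rw [mem_filter, mem_Icc]
  constructor
  · rintro ⟨⟨_, h⟩, h'⟩
    exact ⟨h, h'⟩
  · rintro ⟨h, h'⟩
    exact ⟨⟨h'.one_lt.le, h⟩, h'⟩

theorem VZ_BE (w : ℕ) : Pool.Agent.W89.Sv.VZ 1 (w + 1) = BE (Pw w) := by
  unfold Pool.Agent.W89.Sv.VZ BE
  rw [Pw_eq]

theorem PZ_prod (w : ℕ) : Pool.Agent.W89.Sv.PZ 1 (w + 1) = ∏ p ∈ Pw w, p := by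
  unfold Pool.Agent.W89.Sv.PZ
  rw [Pw_eq]

theorem sift_cnt (w a R : ℕ) : Pool.Agent.W89.Sv.sift 1 (Icc 1 R) (fun h => a + h) 1 (w + 1) =
    (cnt (∏ p ∈ Pw w, p) a R : ℝ) := by
  unfold Pool.Agent.W89.Sv.sift cnt
  rw [PZ_prod]
  congr 2
  apply Finset.filter_congr
  intro m _
  simp

/-- the fundamental lemma for all intervals and all sets of primes `≤ w` -/
theorem cnt_fl (ε : ℝ) (hε : 0 < ε) : ∃ (s : ℕ) (R0 : ℝ), 1 ≤ s ∧ ∀ (w R : ℕ) (P : Finset ℕ), P ⊆ Pw w → R0 ≤ R →
    (w : ℝ) ^ s ≤ R → ∀ a : ℕ, |(cnt (∏ p ∈ P, p) a R : ℝ) - R * BE P| ≤ ε * (R * BE P) := by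
  classical
  obtain ⟨B, κ, hB, hκ, hfl⟩ := Pool.Agent.Y829.RZ.fl
  have h1 := (FloorSemiring.tendsto_pow_div_factorial_atTop κ).const_mul B
  rw [mul_zero] at h1
  obtain ⟨s, hs⟩ := ((h1.eventually_lt_const (show (0 : ℝ) < ε / 2 by positivity)).and (eventually_ge_atTop 1)).exists
  have hWA := hfl s hs.2
  obtain ⟨z0, hz0⟩ := hWA (ε / 2) (by positivity)
  set C0 : ℝ := ((∏ p ∈ Pw (z0 + 1), p : ℕ) : ℝ) with hC0
  have hprodpos : ∀ P : Finset ℕ, (∀ p ∈ P, p.Prime) → 0 < ∏ p ∈ P, p := fun P hP =>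
    Finset.prod_pos fun p hp => (hP p hp).pos
  have hC0pos : 0 < C0 := by
    rw [hC0]
    exact_mod_cast hprodpos (Pw (z0 + 1)) fun p hp => Pw_prime hp
  refine ⟨2 * s, max (C0 ^ 2 / ε) 1, by omega, fun w R P hP hR hw a => ?_⟩
  have hR1 : C0 ^ 2 / ε ≤ R := (le_max_left _ _).trans hR
  have hPp : ∀ p ∈ P, p.Prime := fun p hp => Pw_prime (hP hp)
  have hWpos := hprodpos P hPp
  have hW0 : (0 : ℝ) < ((∏ p ∈ P, p : ℕ) : ℝ) := by exact_mod_cast hWpos
  have hBE : BE P = (((∏ p ∈ P, p).totient : ℕ) : ℝ) / ((∏ p ∈ P, p : ℕ) : ℝ) := by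
    rw [tot_prod P hPp]
    field_simp
  rcases le_or_gt (z0 + 2) w with hzw | hzw
  · -- the sieve
    set Q := Pw w \ P with hQ
    have hQp : ∀ p ∈ Q, p.Prime := fun p hp => Pw_prime (mem_sdiff.1 hp).1
    have hco : (∏ p ∈ P, p).Coprime (∏ p ∈ Q, p) := by
      apply Nat.Coprime.prod_left
      intro p hp
      apply Nat.Coprime.prod_right
      intro q hq
      rw [Nat.coprime_primes (hPp p hp) (hQp q hq)]
      intro h
      exact (mem_sdiff.1 hq).2 (h ▸ hp)
    have hPQ : (∏ p ∈ P, p) * (∏ p ∈ Q, p) = ∏ p ∈ Pw w, p := by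
      rw [mul_comm]
      exact Finset.prod_sdiff hP
    rw [hBE]
    apply cnt_avg _ (∏ p ∈ Q, p) hWpos (hprodpos Q hQp) hco R ε
    intro a'
    rw [hPQ]
    have hBE2 : BE (Pw w) = (((∏ p ∈ Pw w, p).totient : ℕ) : ℝ) / ((∏ p ∈ Pw w, p : ℕ) : ℝ) := by
      rw [tot_prod _ fun p hp => Pw_prime hp]
      have : (0 : ℝ) < ((∏ p ∈ Pw w, p : ℕ) : ℝ) := by exact_mod_cast hprodpos _ fun p hp => Pw_prime hp
      field_simp
    rw [← hBE2]
    have h2 := hz0 (w + 1) (by omega) a' R 1 one_pos (Nat.coprime_one_left _) (by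
      rw [Nat.cast_one, div_one, Real.rpow_natCast]
      refine le_trans ?_ hw
      have h3 : ((w + 1 : ℕ) : ℝ) ≤ (w : ℝ) ^ 2 := by
        have h4 : (2 : ℝ) ≤ w := by
          have : 2 ≤ w := by omega
          exact_mod_cast this
        push_cast
        nlinarith
      calc ((w + 1 : ℕ) : ℝ) ^ s ≤ ((w : ℝ) ^ 2) ^ s := pow_le_pow_left₀ (Nat.cast_nonneg _) h3 s
        _ = (w : ℝ) ^ (2 * s) := by rw [← pow_mul])
    rw [sift_cnt, VZ_BE, Nat.cast_one, div_one] at h2
    refine h2.trans ?_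
    have hb : 0 < BE (Pw w) := BE_pos fun p hp => Pw_prime hp
    apply mul_le_mul_of_nonneg_right _ (by positivity)
    have h5 := hs.1
    rw [← mul_div_assoc] at h5
    linarith
  · -- small `w`
    have hsub : P ⊆ Pw (z0 + 1) := fun p hp => by
      have h3 := mem_Pw.1 (hP hp)
      exact mem_Pw.2 ⟨by omega, h3.2⟩
    have h2 := cnt_triv (∏ p ∈ P, p) a R hWpos
    rw [← hBE] at h2
    refine h2.trans ?_
    have h3 : ((∏ p ∈ P, p : ℕ) : ℝ) ≤ C0 := by
      rw [hC0]
      exact_mod_cast Nat.le_of_dvd (hprodpos _ fun p hp => Pw_prime hp) (Finset.prod_dvd_prod_of_subset _ _ _ hsub)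
    have h4 : 1 / C0 ≤ BE P := by
      rw [hBE]
      have h5 : (1 : ℝ) ≤ (((∏ p ∈ P, p).totient : ℕ) : ℝ) := by exact_mod_cast Nat.totient_pos.2 hWpos
      calc 1 / C0 ≤ 1 / ((∏ p ∈ P, p : ℕ) : ℝ) := one_div_le_one_div_of_le hW0 h3
        _ ≤ _ := by gcongr
    rw [div_le_iff₀ hε] at hR1
    calc ((∏ p ∈ P, p : ℕ) : ℝ) ≤ C0 := h3
      _ = C0 ^ 2 * (1 / C0) := by field_simp
      _ ≤ (R * ε) * BE P := by
          apply mul_le_mul hR1 h4 (by positivity)
          positivity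
      _ = _ := by ring

end Pool.Agent.H560.MQ
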