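import Pool.Agent.H560.MQ.Lev

/-!
Rows with few primes, with a weight.
-/

set_option autoImplicit false

open Finset Filter Topology
open Pool.Agent.H378R2 Pool.Agent.H510R2.Maier Pool.Agent.T2H52.MG

namespace Pool.Agent.H560.MQ

/-- many rows with few primes, with a weight -/
theorem rows_fewG (k : ℕ) (ε : ℝ) (hε : 0 < ε) (hε1 : ε ≤ 1) (Z : ℕ) : ∃ X0 : ℝ, ∀ X : ℝ, X0 ≤ X →
    ∃ (ps : ℕ) (S : Finset ℕ), GoodP Z ps ∧ GoodS X S ∧
      ∀ (z r Y : ℕ) (H : Finset ℕ) (A : ℝ) (G : ℕ → ℝ), (z : ℝ) ≤ Real.log X / 1100 → (Y : ℝ) ≤ (Real.log X) ^ k →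
        H ⊆ Icc 1 Y → 0 < A → ((VH (WZ X z S ps) r H : ℝ) + 80) / BE (PZ X z S ps) ≤ A → (∀ n, 0 ≤ G n) →
        ∑ n ∈ Icc 1 ⌊3 * X⌋₊, nu X (WZ X z S ps) r n * G n ≤ ε / 8 * A * (MPhi X / (2 * WZ X z S ps)) →
        ε / 200 * (X * Real.exp (-(3 / 2 * z))) ≤
          ((rowset X (fun n => n ≡ r [MOD WZ X z S ps] ∧ Real.log X * cP H n + G n ≤ (1 + ε) * A)).card : ℝ) := by
  classical
  obtain ⟨X0, hX0⟩ := rows_sumsHk k (ε / 4) (by positivity) (by linarith) Z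
  refine ⟨max X0 40, fun X hX => ?_⟩
  have hX40 : 40 ≤ X := (le_max_right _ _).trans hX
  have hXpos : 0 < X := by linarith
  obtain ⟨ps, S, hps, hS, hr⟩ := hX0 X ((le_max_left _ _).trans hX)
  refine ⟨ps, S, hps, hS, fun z r Y H A G hz hY hH hA hVA hG0 hGs => ?_⟩
  obtain ⟨-, r2, r3, -⟩ := hr z r Y H hz hY hH
  set W := WZ X z S ps with hW
  set B := BE (PZ X z S ps) with hB
  have hB0 : 0 < B := BE_pos fun p hp => PZ_prime hp
  have hW0 : (0 : ℝ) < W := by exact_mod_cast WZ_pos X z S ps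
  have hφ : (W.totient : ℝ) = W * B := totient_WZ X z S ps
  have hM1 := MPhi_ge X hX40
  set M := MPhi X with hM
  have hM0 : 0 < M := by linarith
  set V : ℝ := (VH W r H : ℝ) with hV
  have hV0 : 0 ≤ V := Nat.cast_nonneg _
  set N1 := ∑ n ∈ Icc 1 ⌊3 * X⌋₊, nu X W r n with hN1
  have hMW : 0 < M / W := by positivity
  have hT0 : ∑ n ∈ Icc 1 ⌊3 * X⌋₊, nu X W r n * thH H n ≤ (1 + ε / 16) * A * (M / W) := by
    refine r2.trans ?_
    have hMφ : 0 < M / W.totient := by rw [hφ]; positivity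
    calc (1 + ε / 4 / 4) * (V * (M / W.totient)) + 40 * (M / W.totient)
        ≤ (1 + ε / 16) * ((V + 80) * (M / W.totient)) := by nlinarith
      _ = (1 + ε / 16) * ((V + 80) / B) * (M / W) := by
          rw [hφ]; field_simp
      _ ≤ (1 + ε / 16) * A * (M / W) := by
          apply mul_le_mul_of_nonneg_right _ hMW.le
          exact mul_le_mul_of_nonneg_left hVA (by linarith)
  have hT : ∑ n ∈ Icc 1 ⌊3 * X⌋₊, nu X W r n * (thH H n + G n) ≤ (1 + ε / 2) * A * N1 := by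
    have e1 : ∑ n ∈ Icc 1 ⌊3 * X⌋₊, nu X W r n * (thH H n + G n) =
        ∑ n ∈ Icc 1 ⌊3 * X⌋₊, nu X W r n * thH H n + ∑ n ∈ Icc 1 ⌊3 * X⌋₊, nu X W r n * G n := by
      rw [← Finset.sum_add_distrib]
      apply Finset.sum_congr rfl
      intro n _
      ring
    rw [e1]
    have e2 : ε / 8 * A * (M / (2 * W)) = ε / 16 * A * (M / W) := by field_simp; ring
    rw [e2] at hGs
    have e3 : (1 + ε / 8) * A * (M / W) ≤ (1 + ε / 2) * A * ((1 - ε / 4 / 4) * (M / W)) := by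
      have q1 : 1 + ε / 8 ≤ (1 + ε / 2) * (1 - ε / 4 / 4) := by nlinarith
      have q2 : 0 ≤ A * (M / W) := by positivity
      have q3 := mul_le_mul_of_nonneg_right q1 q2
      calc (1 + ε / 8) * A * (M / W) = (1 + ε / 8) * (A * (M / W)) := by ring
        _ ≤ (1 + ε / 2) * (1 - ε / 4 / 4) * (A * (M / W)) := q3
        _ = _ := by ring
    have e4 : (1 + ε / 2) * A * ((1 - ε / 4 / 4) * (M / W)) ≤ (1 + ε / 2) * A * N1 := by
      apply mul_le_mul_of_nonneg_left r3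
      positivity
    have e5 : (1 + ε / 16) * A * (M / W) + ε / 16 * A * (M / W) = (1 + ε / 8) * A * (M / W) := by ring
    linarith
  set g : ℕ → ℝ := fun n => if n ≡ r [MOD W] then thH H n + G n else 2 * ((1 + ε) * A) with hg
  have hg0 : ∀ n, 0 ≤ g n := by
    intro n
    rw [hg]
    simp only
    split_ifs
    · exact add_nonneg (thH_nonneg _ _) (hG0 n)
    · positivity
  have hgs : ∑ n ∈ Icc 1 ⌊3 * X⌋₊, nu X W r n * g n = ∑ n ∈ Icc 1 ⌊3 * X⌋₊, nu X W r n * (thH H n + G n) := by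
    apply Finset.sum_congr rfl
    intro n _
    rw [hg]
    simp only
    split_ifs with h
    · rfl
    · unfold nu
      rw [if_neg h, zero_mul, zero_mul]
  have hcnt := count_few X hXpos W r g hg0 A ε N1 hA hε hε1 rfl (by rw [hgs]; exact hT)
  have hsub : rowset X (fun n => g n ≤ (1 + ε) * A) ⊆
      rowset X (fun n => n ≡ r [MOD W] ∧ Real.log X * cP H n + G n ≤ (1 + ε) * A) := by
    intro n hn
    obtain ⟨m1, m2, m3, m4⟩ := mem_rowset.1 hn
    have hmod : n ≡ r [MOD W] := by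
      by_contra hcon
      rw [hg] at m4
      simp only [if_neg hcon] at m4
      have : 0 < (1 + ε) * A := by positivity
      linarith
    refine mem_rowset.2 ⟨m1, m2, m3, hmod, ?_⟩
    have m5 : thH H n + G n ≤ (1 + ε) * A := by
      rw [hg] at m4
      simpa only [if_pos hmod] using m4
    linarith [thH_ge H n X hXpos m2]
  have h1 : ((rowset X (fun n => g n ≤ (1 + ε) * A)).card : ℝ) ≤
      ((rowset X (fun n => n ≡ r [MOD W] ∧ Real.log X * cP H n + G n ≤ (1 + ε) * A)).card : ℝ) := by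
    exact_mod_cast Finset.card_le_card hsub
  refine le_trans ?_ (hcnt.trans h1)
  have h2 := N1_ge hX40 z S ps (ε / 4 / 4) N1 (by linarith) r3
  have h3 : 0 < X * Real.exp (-(3 / 2 * z)) := by positivity
  calc ε / 200 * (X * Real.exp (-(3 / 2 * z))) ≤ ε / 4 * (X * Real.exp (-(3 / 2 * z)) / 40) := by
        rw [show ε / 4 * (X * Real.exp (-(3 / 2 * z)) / 40) = ε / 160 * (X * Real.exp (-(3 / 2 * z))) by ring]
        apply mul_le_mul_of_nonneg_right _ h3.le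
        linarith
    _ ≤ ε / 4 * N1 := by gcongr

/-- few primes, with a weight -/
theorem few_genG (t θ ε : ℝ) (hθ : 0 < θ) (hθ1 : θ < 1) (ht : 1 < t) (hε : 0 < ε) (hε1 : ε ≤ 1 / 16) :
    ∃ Z0 : ℕ, ∀ Z : ℕ, Z0 ≤ Z → ∀ᶠ X : ℝ in atTop, ∃ (ps : ℕ) (S : Finset ℕ), GoodP Z ps ∧ GoodS X S ∧
      ∀ (σ : ℕ → ℝ) (Y : ℕ) (H : Finset ℕ) (G : ℕ → ℕ → ℝ), H ⊆ Icc 1 Y → (Y : ℝ) ≤ (Real.log (4 * X)) ^ t →
        (Real.log (Real.log X)) ^ 2 ≤ H.card →
        (1 - ε) * (RL t (Real.log X) : ℝ) ≤ ∑ r ∈ Icc 1 (RL t (Real.log X)), σ r →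
        (∀ r n, 0 ≤ G r n) →
        (∀ r ∈ Icc 1 (RL t (Real.log X)), ε ≤ σ r →
          ∑ n ∈ Icc 1 ⌊3 * X⌋₊, nu X (WZ X (zL θ (Real.log X)) S ps) r n * G r n ≤
            ε / 16 * (σ r * H.card) * (MPhi X / (2 * WZ X (zL θ (Real.log X)) S ps))) →
        ∃ r ∈ Icc 1 (RL t (Real.log X)), ε ≤ σ r ∧
          X * Real.exp (-(1 / 2 * (Real.log X) ^ θ)) ≤
            ((rowset X (fun n => n ≡ r [MOD WZ X (zL θ (Real.log X)) S ps] ∧
              Real.log X * cP H n + G r n ≤ (cw (t / θ) + 12 * ε) * (σ r * H.card))).card : ℝ) := by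
  obtain ⟨u, hu⟩ : ∃ u : ℝ, u = t / θ := ⟨_, rfl⟩
  have hut : 1 < u := by rw [hu, lt_div_iff₀ hθ]; linarith
  obtain ⟨η, hη0, hη1, z0, Z1, hz02, hZ11, hcs⟩ := class_sum u (ε / 9) hut (by positivity) (by linarith)
  obtain ⟨k, hk⟩ := exists_nat_gt t
  refine ⟨Z1, fun Z hZ => ?_⟩
  obtain ⟨X0, hX0⟩ := rows_fewG k ε hε (by linarith) Z
  have hlt := Real.tendsto_log_atTop
  have hz : Tendsto (fun L : ℝ => (zL θ L : ℝ)) atTop atTop := tendsto_natCast_atTop_atTop.comp (zL_top θ hθ)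
  have hll : Tendsto (fun X : ℝ => Real.log (Real.log X)) atTop atTop := hlt.comp hlt
  filter_upwards [eventually_ge_atTop X0, hlt.eventually (scales t θ u η (ε / 9) hθ hθ1 ht hu hη0 hη1 (by positivity)),
    hlt.eventually (lens t (Real.log 4) ht k hk), zL_yy θ hθ hθ1, BEinv_le θ hθ hθ1,
    hlt.eventually (hz.eventually_ge_atTop z0), hll.eventually_ge_atTop (max 1 (240 / ε ^ 2)),
    hlt.eventually (rows_big θ hθ hθ1 k (ε / 200) (by positivity)), eventually_ge_atTop (40 : ℝ),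
    hlt.eventually_ge_atTop (1 : ℝ)]
    with X g1 g2 g3 g4 g5 g6 g7 g8 g9 g10
  obtain ⟨ps, S, hps, hS, hrow⟩ := hX0 X g1
  refine ⟨ps, S, hps, hS, fun σ Y H G hH hY hHc hσ hG0 hGs => ?_⟩
  obtain ⟨s1, s2, s3, s4, s5, s6⟩ := g2
  obtain ⟨l1, l2, l3⟩ := g3
  have hX0' : 0 < X := by linarith
  have hM1 := MPhi_ge X g9
  have hl4 : Real.log (4 * X) = Real.log X + Real.log 4 := by
    rw [Real.log_mul (by norm_num) hX0'.ne']
    ring
  rw [hl4] at hY
  set L := Real.log X with hL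
  set z := zL θ L with hzdef
  set R := RL t L with hRdef
  set W := WZ X z S ps with hW
  set B := BE (PZ X z S ps) with hB
  have hB0 : 0 < B := BE_pos fun p hp => PZ_prime hp
  have hW0 : (0 : ℝ) < W := by exact_mod_cast WZ_pos X z S ps
  have hR0 : 0 < R := by
    have : (0 : ℝ) < R := by linarith
    exact_mod_cast this
  obtain ⟨hc1, hc2⟩ := cw_bounds u hut.le
  have hps1 : GoodP Z1 ps := by
    rcases hps with h | ⟨h, h'⟩
    · exact Or.inl h
    · exact Or.inr ⟨h, by omega⟩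
  have hll1 : 1 ≤ Real.log L := (le_max_left _ _).trans g7
  have hll2 : 240 / ε ^ 2 ≤ Real.log L := (le_max_right _ _).trans g7
  rw [div_le_iff₀ (by positivity)] at hll2
  have hHpos : (0 : ℝ) < H.card := lt_of_lt_of_le (by positivity) hHc
  obtain ⟨-, c2⟩ := hcs X z Z1 ps S (by linarith) g6 le_rfl g4.1 hps1 hS R s1 s2 Y H hH (hY.trans l1)
  obtain ⟨r, hr, hσr, hVr⟩ := choose_few' R hR0 (fun r => (VH W r H : ℝ) / B) σ (cw u) H.card ε
    (fun r _ => by positivity) hHpos (by linarith) hc2 hε hε1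
    (c2.trans (by
      apply mul_le_mul_of_nonneg_right _ (by positivity)
      linarith)) hσ
  refine ⟨r, hr, hσr, ?_⟩
  have hσ0 : 0 < σ r := lt_of_lt_of_le hε hσr
  have h80 : 80 / B ≤ ε * (σ r * H.card) := by
    have h1 : 80 / B ≤ 80 * (3 * Real.log L) := by
      rw [div_eq_mul_inv]
      exact mul_le_mul_of_nonneg_left (g5 ps S) (by norm_num)
    have h2 : 80 * (3 * Real.log L) ≤ ε ^ 2 * (Real.log L) ^ 2 := by nlinarith
    have h3 : ε ^ 2 * (Real.log L) ^ 2 ≤ ε * (σ r * H.card) := by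
      calc ε ^ 2 * (Real.log L) ^ 2 = ε * (ε * (Real.log L) ^ 2) := by ring
        _ ≤ ε * (σ r * H.card) := by gcongr
    linarith
  have hA : ((VH W r H : ℝ) + 80) / B ≤ (cw u + 9 * ε) * (σ r * H.card) := by
    rw [add_div]
    have : (cw u + 9 * ε) * (σ r * H.card) = (cw u + 8 * ε) * (σ r * H.card) + ε * (σ r * H.card) := by ring
    rw [this]
    exact add_le_add hVr h80
  have hGs' : ∑ n ∈ Icc 1 ⌊3 * X⌋₊, nu X W r n * G r n ≤
      ε / 8 * ((cw u + 9 * ε) * (σ r * H.card)) * (MPhi X / (2 * W)) := by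
    refine (hGs r hr hσr).trans ?_
    have h1 : 0 ≤ MPhi X / (2 * W) := by
      have : 0 ≤ MPhi X := by linarith
      positivity
    apply mul_le_mul_of_nonneg_right _ h1
    have h2 : 0 ≤ σ r * H.card := by positivity
    have h3 : ε / 16 * (σ r * H.card) ≤ ε / 8 * ((1 / 2) * (σ r * H.card)) := le_of_eq (by ring)
    refine h3.trans ?_
    apply mul_le_mul_of_nonneg_left _ (by positivity)
    apply mul_le_mul_of_nonneg_right _ h2
    linarith
  have hfin := hrow z r Y H ((cw u + 9 * ε) * (σ r * H.card)) (G r) g4.2 (hY.trans l2) hH (by positivity) hA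
    (hG0 r) hGs'
  rw [← hW] at hfin
  have hsub : rowset X (fun n => n ≡ r [MOD W] ∧ L * cP H n + G r n ≤ (1 + ε) * ((cw u + 9 * ε) * (σ r * H.card))) ⊆
      rowset X (fun n => n ≡ r [MOD W] ∧ L * cP H n + G r n ≤ (cw (t / θ) + 12 * ε) * (σ r * H.card)) := by
    intro n hn
    obtain ⟨m1, m2, m3, m4, m5⟩ := mem_rowset.1 hn
    refine mem_rowset.2 ⟨m1, m2, m3, m4, m5.trans ?_⟩
    rw [← hu, ← mul_assoc]
    apply mul_le_mul_of_nonneg_right _ (by positivity)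
    nlinarith
  have hcard := Finset.card_le_card hsub
  have hcard' : ((rowset X (fun n => n ≡ r [MOD W] ∧ L * cP H n + G r n ≤ (1 + ε) * ((cw u + 9 * ε) * (σ r * H.card)))).card : ℝ) ≤
      ((rowset X (fun n => n ≡ r [MOD W] ∧ L * cP H n + G r n ≤ (cw (t / θ) + 12 * ε) * (σ r * H.card))).card : ℝ) := by
    exact_mod_cast hcard
  refine le_trans ?_ (hfin.trans hcard')
  have h1 : Real.exp (-(1 / 2 * L ^ θ)) ≤ ε / 200 * Real.exp (-(3 / 2 * z)) := by
    refine le_trans ?_ g8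
    have h2 : 1 ≤ 2 * L ^ (k + 1) := by
      have : 1 ≤ L ^ (k + 1) := one_le_pow₀ g10
      linarith
    exact le_mul_of_one_le_left (Real.exp_pos _).le h2
  calc X * Real.exp (-(1 / 2 * L ^ θ)) ≤ X * (ε / 200 * Real.exp (-(3 / 2 * z))) := by gcongr
    _ = _ := by ring

end Pool.Agent.H560.MQ
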