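import Pool.Agent.H560.MQ.Lev2

/-!
The sifted shifts, for the primes up to `w`, on the rows.
-/

set_option autoImplicit false

open Finset Filter Topology
open Pool.Agent.H378R2 Pool.Agent.H510R2.Maier Pool.Agent.T2H52.MG

namespace Pool.Agent.H560.MQ

/-- the number of the `h ∈ H` such that `n + h` has no prime factor `≤ w` -/
def sW (H : Finset ℕ) (w n : ℕ) : ℕ := (H.filter (fun h => ∀ p ∈ Pw w, ¬ p ∣ n + h)).card

open Classical in
/-- the shifts which are lost at the primes of `E` -/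
noncomputable def kil (T E : Finset ℕ) (n : ℕ) : ℕ := (T.filter (fun h => ∃ p ∈ E, p ∣ n + h)).card

theorem kil_sum (X : ℝ) (W r N Y : ℕ) (T E : Finset ℕ) (hT : T ⊆ Icc 1 Y) (hE : ∀ p ∈ E, 0 < p ∧ W.Coprime p) (hW : 0 < W) :
    ∑ n ∈ Icc 1 N, nu X W r n * (kil T E n : ℝ) ≤
      T.card * (((N : ℝ) + Y) / W * ∑ p ∈ E, (1 : ℝ) / p + E.card) := by
  classical
  have hW0 : (0 : ℝ) < W := by exact_mod_cast hW
  have h1 : ∑ n ∈ Icc 1 N, nu X W r n * (kil T E n : ℝ) ≤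
      ∑ n ∈ (Icc 1 N).filter (fun n => n ≡ r [MOD W]), (kil T E n : ℝ) := by
    rw [Finset.sum_filter]
    apply Finset.sum_le_sum
    intro n _
    split_ifs with h
    · have h3 := nu_le_one X W r n
      have h4 : (0 : ℝ) ≤ kil T E n := Nat.cast_nonneg _
      have h5 := nu_nonneg X W r n
      nlinarith
    · unfold nu
      rw [if_neg h, zero_mul]
  have h2 : ∀ n, (kil T E n : ℝ) ≤ ∑ h ∈ T, ∑ p ∈ E, if p ∣ n + h then (1 : ℝ) else 0 := by
    intro n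
    unfold kil
    rw [Finset.card_filter]
    push_cast
    apply Finset.sum_le_sum
    intro h _
    split_ifs with hh
    · obtain ⟨p, hp, hd⟩ := hh
      have h3 := Finset.single_le_sum (f := fun p => if p ∣ n + h then (1 : ℝ) else 0)
        (fun q _ => by positivity) hp
      simp only [if_pos hd] at h3
      exact h3
    · apply Finset.sum_nonneg
      intro q _
      positivity
  have h3 : ∀ h ∈ T, ∀ p ∈ E, (((Icc 1 N).filter (fun n => n ≡ r [MOD W] ∧ p ∣ n + h)).card : ℝ) ≤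
      ((N : ℝ) + Y) / W * (1 / p) + 1 := by
    intro h hh p hp
    obtain ⟨hp0, hco⟩ := hE p hp
    have hhY : h ≤ Y := (mem_Icc.1 (hT hh)).2
    have h4 := count_row W p (r + h) (N + Y) hW hp0 hco
    have h5 : ((Icc 1 N).filter (fun n => n ≡ r [MOD W] ∧ p ∣ n + h)).card ≤
        ((Icc 1 (N + Y)).filter (fun n => n ≡ r + h [MOD W] ∧ p ∣ n)).card := by
      apply Finset.card_le_card_of_injOn (fun n => n + h)
      · intro n hn
        rw [Finset.mem_coe, mem_filter, mem_Icc] at hn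
        rw [Finset.mem_coe, mem_filter, mem_Icc]
        have hn1 := hn.1.1
        have hn2 := hn.1.2
        refine ⟨⟨?_, ?_⟩, Nat.ModEq.add_right h hn.2.1, hn.2.2⟩
        · exact Nat.le_add_right_of_le hn1
        · exact Nat.add_le_add hn2 hhY
      · intro a _ b _ hab
        simpa using hab
    have h6 : (((Icc 1 N).filter (fun n => n ≡ r [MOD W] ∧ p ∣ n + h)).card : ℝ) ≤
        ((Icc 1 (N + Y)).filter (fun n => n ≡ r + h [MOD W] ∧ p ∣ n)).card := by exact_mod_cast h5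
    refine h6.trans (h4.trans (le_of_eq ?_))
    push_cast
    rw [div_mul_div_comm, mul_one]
  refine h1.trans ?_
  calc ∑ n ∈ (Icc 1 N).filter (fun n => n ≡ r [MOD W]), (kil T E n : ℝ)
      ≤ ∑ n ∈ (Icc 1 N).filter (fun n => n ≡ r [MOD W]), ∑ h ∈ T, ∑ p ∈ E, (if p ∣ n + h then (1 : ℝ) else 0) :=
        Finset.sum_le_sum fun n _ => h2 n
    _ = ∑ h ∈ T, ∑ p ∈ E, (((Icc 1 N).filter (fun n => n ≡ r [MOD W] ∧ p ∣ n + h)).card : ℝ) := by
        rw [Finset.sum_comm]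
        apply Finset.sum_congr rfl
        intro h _
        rw [Finset.sum_comm]
        apply Finset.sum_congr rfl
        intro p _
        rw [← Finset.filter_filter, Finset.card_filter]
        push_cast
        rfl
    _ ≤ ∑ h ∈ T, ∑ p ∈ E, (((N : ℝ) + Y) / W * (1 / p) + 1) :=
        Finset.sum_le_sum fun h hh => Finset.sum_le_sum fun p hp => h3 h hh p hp
    _ = _ := by
        rw [Finset.sum_const, nsmul_eq_mul, Finset.sum_add_distrib, ← Finset.mul_sum, Finset.sum_const, nsmul_eq_mul,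
          mul_one]

theorem PZ_sub (X : ℝ) (w : ℕ) (S : Finset ℕ) (ps : ℕ) : PZ X w S ps ⊆ Pw w := fun _ hp =>
  mem_Pw.2 ⟨PZ_le hp, PZ_prime hp⟩

theorem PZ_mono {X : ℝ} {w z : ℕ} (h : w ≤ z) (S : Finset ℕ) (ps : ℕ) : PZ X w S ps ⊆ PZ X z S ps := by
  intro p hp
  unfold PZ at hp ⊢
  rw [mem_filter] at hp ⊢
  exact ⟨hp.1, hp.2.trans h⟩

theorem WZ_dvd {X : ℝ} {w z : ℕ} (h : w ≤ z) (S : Finset ℕ) (ps : ℕ) : WZ X w S ps ∣ WZ X z S ps :=
  Finset.prod_dvd_prod_of_subset _ _ _ (PZ_mono h S ps)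

theorem cop_iff {X : ℝ} {w z n r : ℕ} (h : w ≤ z) (S : Finset ℕ) (ps : ℕ) (hn : n ≡ r [MOD WZ X z S ps]) (a : ℕ) :
    (r + a).Coprime (WZ X w S ps) ↔ ∀ p ∈ PZ X w S ps, ¬ p ∣ n + a := by
  have h1 : n + a ≡ r + a [MOD WZ X w S ps] := Nat.ModEq.add_right a (hn.of_dvd (WZ_dvd h S ps))
  have h2 : (r + a).Coprime (WZ X w S ps) ↔ (n + a).Coprime (WZ X w S ps) := by
    unfold Nat.Coprime
    rw [h1.gcd_eq]
  rw [h2]
  constructor
  · intro h3 p hp hd
    exact Nat.not_coprime_of_dvd_of_dvd (PZ_prime hp).one_lt hd (prime_dvd_WZ hp) h3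
  · intro h3
    by_contra hcon
    rw [Nat.Prime.not_coprime_iff_dvd] at hcon
    obtain ⟨p, hp, hp1, hp2⟩ := hcon
    exact h3 p ((dvd_WZ_iff hp).1 hp2) hp1

theorem sW_le {X : ℝ} {w z n r : ℕ} (h : w ≤ z) (S : Finset ℕ) (ps : ℕ) (hn : n ≡ r [MOD WZ X z S ps]) (H : Finset ℕ) :
    sW H w n ≤ VH (WZ X w S ps) r H := by
  unfold sW VH
  apply Finset.card_le_card
  intro a ha
  rw [mem_filter] at ha ⊢
  exact ⟨ha.1, (cop_iff h S ps hn a).2 fun p hp => ha.2 p (PZ_sub X w S ps hp)⟩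

theorem le_sW {X : ℝ} {w z n r : ℕ} (h : w ≤ z) (S : Finset ℕ) (ps : ℕ) (hn : n ≡ r [MOD WZ X z S ps]) (H : Finset ℕ) :
    VH (WZ X w S ps) r H ≤ sW H w n + kil (H.filter (fun a => (r + a).Coprime (WZ X w S ps))) (Pw w \ PZ X w S ps) n := by
  classical
  unfold sW VH kil
  refine le_trans (Finset.card_le_card ?_) (Finset.card_union_le _ _)
  intro a ha
  rw [mem_union, mem_filter, mem_filter]
  have ha' := mem_filter.1 ha
  by_cases h1 : ∀ p ∈ Pw w, ¬ p ∣ n + a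
  · exact Or.inl ⟨ha'.1, h1⟩
  · right
    push Not at h1
    obtain ⟨p, hp, hd⟩ := h1
    refine ⟨ha, p, mem_sdiff.2 ⟨hp, fun hp' => ?_⟩, hd⟩
    exact (cop_iff h S ps hn a).1 ha'.2 p hp' hd

/-- the primes outside the modulus -/
theorem E_facts {X : ℝ} {w z Z ps : ℕ} {S : Finset ℕ} (hw : w ≤ z) (hz : z ≤ yy X) (hZ : 1 ≤ Z) (hps : GoodP Z ps) :
    (∀ p ∈ Pw w \ PZ X w S ps, 0 < p ∧ (WZ X z S ps).Coprime p) ∧
    ∑ p ∈ Pw w \ PZ X w S ps, (1 : ℝ) / p ≤ ∑ q ∈ S, (1 : ℝ) / q + 1 / Z ∧ (Pw w \ PZ X w S ps).card ≤ w := by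
  classical
  have hmem : ∀ p ∈ Pw w \ PZ X w S ps, p.Prime ∧ (p ∈ S ∨ p = ps) := by
    intro p hp
    obtain ⟨h1, h2⟩ := mem_sdiff.1 hp
    obtain ⟨h3, h4⟩ := mem_Pw.1 h1
    refine ⟨h4, ?_⟩
    by_contra hcon
    push Not at hcon
    exact h2 ((mem_PZ (hw.trans hz)).2 ⟨h3, h4, hcon.1, hcon.2⟩)
  refine ⟨?_, ?_, ?_⟩
  · intro p hp
    obtain ⟨h1, h2⟩ := hmem p hp
    refine ⟨h1.pos, ?_⟩
    apply Nat.Coprime.symm
    rw [h1.coprime_iff_not_dvd]
    intro hd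
    have h3 := (mem_PZ hz).1 ((dvd_WZ_iff h1).1 hd)
    rcases h2 with h2 | h2
    · exact h3.2.2.1 h2
    · exact h3.2.2.2 h2
  · rcases hps with rfl | ⟨hps, hpZ⟩
    · have h1 : Pw w \ PZ X w S 1 ⊆ S := by
        intro p hp
        obtain ⟨h1, h2⟩ := hmem p hp
        rcases h2 with h2 | h2
        · exact h2
        · exact absurd h2 h1.one_lt.ne'
      have h2 : ∑ p ∈ Pw w \ PZ X w S 1, (1 : ℝ) / p ≤ ∑ q ∈ S, (1 : ℝ) / q :=
        Finset.sum_le_sum_of_subset_of_nonneg h1 fun _ _ _ => by positivity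
      have h3 : (0 : ℝ) ≤ 1 / Z := by positivity
      linarith
    · have h1 : Pw w \ PZ X w S ps ⊆ S ∪ {ps} := by
        intro p hp
        obtain ⟨h1, h2⟩ := hmem p hp
        rcases h2 with h2 | h2
        · exact mem_union_left _ h2
        · exact mem_union_right _ (mem_singleton.2 h2)
      have h2 : ∑ p ∈ Pw w \ PZ X w S ps, (1 : ℝ) / p ≤ ∑ q ∈ S ∪ {ps}, (1 : ℝ) / q :=
        Finset.sum_le_sum_of_subset_of_nonneg h1 fun _ _ _ => by positivity
      have h3 : ∑ q ∈ S ∪ {ps}, (1 : ℝ) / q ≤ ∑ q ∈ S, (1 : ℝ) / q + ∑ q ∈ ({ps} : Finset ℕ), (1 : ℝ) / q := by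
        rw [← Finset.sum_union_inter]
        have : 0 ≤ ∑ q ∈ S ∩ {ps}, (1 : ℝ) / q := Finset.sum_nonneg fun _ _ => by positivity
        linarith
      rw [Finset.sum_singleton] at h3
      have h4 : (1 : ℝ) / ps ≤ 1 / Z := by
        have h5 : (1 : ℝ) ≤ Z := by exact_mod_cast hZ
        have h6 : (Z : ℝ) ≤ ps := by exact_mod_cast hpZ.le
        exact one_div_le_one_div_of_le (by linarith) h6
      linarith
  · refine (Finset.card_le_card (Finset.sdiff_subset)).trans ?_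
    unfold Pw
    refine (Finset.card_filter_le _ _).trans ?_
    simp

end Pool.Agent.H560.MQ
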