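import Pool.Agent.H560.MQ.Lev3

/-!
Few and many primes in comparison with the sifted shifts.
-/

set_option autoImplicit false

open Finset Filter Topology
open Pool.Agent.H378R2 Pool.Agent.H510R2.Maier Pool.Agent.T2H52.MG

namespace Pool.Agent.H560.MQ

/-- the algebra of the small case -/
theorem alg_lev_few (c A e V K s q B L P Hc σ : ℝ) (hc0 : 0 ≤ c) (hc : c ≤ 2) (hA : 1 / 2 ≤ A) (hA2 : A ≤ 2)
    (he : 0 < e) (he1 : e ≤ 1 / 16) (hB : 0 < B) (hq : 0 < q) (hqB : q ≤ B) (hV : 0 ≤ V)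
    (hH : 0 < Hc) (hσ : σ * Hc = V / (B * A)) (hσe : e ≤ σ) (hK : 0 ≤ K) (hs : V ≤ s + K) (hLP : 0 ≤ L * P)
    (h : L * P + 4 / (e * B * A) * K ≤ (c + 12 * e) * (σ * Hc)) :
    L * P ≤ (c / A + 100 * e) * (s / q) ∧ e / 4 * Hc ≤ s / q := by
  have hA0 : 0 < A := by linarith
  have hBA : 0 < B * A := by positivity
  have hσ0 : 0 < σ := lt_of_lt_of_le he hσe
  have hsH : 0 < σ * Hc := by positivity
  have hV0 : 0 < V := by
    have h1 : V = σ * Hc * (B * A) := by rw [hσ]; field_simp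
    rw [h1]; positivity
  -- `K ≤ e V`
  have hK1 : K ≤ e * V := by
    have h1 : 4 / (e * B * A) * K ≤ 4 * (σ * Hc) := by
      have h2 : (c + 12 * e) * (σ * Hc) ≤ 4 * (σ * Hc) := mul_le_mul_of_nonneg_right (by linarith) hsH.le
      linarith
    rw [hσ] at h1
    have h3 : 4 / (e * B * A) * K = (K / e) * (4 / (B * A)) := by field_simp
    have h4 : 4 * (V / (B * A)) = V * (4 / (B * A)) := by field_simp
    rw [h3, h4] at h1
    have h5 := le_of_mul_le_mul_right h1 (by positivity)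
    rw [div_le_iff₀ he] at h5
    linarith
  have hs1 : (1 - e) * V ≤ s := by linarith
  have hs0 : 0 < s := lt_of_lt_of_le (mul_pos (by linarith) hV0) hs1
  have hsB : s / B ≤ s / q := div_le_div_of_nonneg_left hs0.le hq hqB
  have hVs : V / B ≤ (1 + 2 * e) * (s / q) := by
    refine le_trans ?_ (mul_le_mul_of_nonneg_left hsB (by linarith))
    rw [← mul_div_assoc]
    apply div_le_div_of_nonneg_right _ hB.le
    have h1 : V ≤ (1 + 2 * e) * ((1 - e) * V) := by
      have : (1 + 2 * e) * (1 - e) = 1 + e * (1 - 2 * e) := by ring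
      rw [← mul_assoc, this]
      have h2 : 0 ≤ e * (1 - 2 * e) := mul_nonneg he.le (by linarith)
      nlinarith
    exact h1.trans (mul_le_mul_of_nonneg_left hs1 (by linarith))
  have hK4 : 0 ≤ 4 / (e * B * A) * K := by positivity
  have hsq : 0 < s / q := by positivity
  constructor
  · have h1 : L * P ≤ (c + 12 * e) / A * (V / B) := by
      calc L * P ≤ (c + 12 * e) * (σ * Hc) := by linarith
        _ = (c + 12 * e) / A * (V / B) := by rw [hσ]; field_simp
    refine h1.trans ?_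
    have h2 : 0 ≤ (c + 12 * e) / A := by positivity
    refine (mul_le_mul_of_nonneg_left hVs h2).trans ?_
    rw [← mul_assoc]
    apply mul_le_mul_of_nonneg_right _ hsq.le
    have h3 : (c + 12 * e) / A * (1 + 2 * e) = c / A + (2 * e * c + 12 * e + 24 * e * e) / A := by field_simp; ring
    rw [h3]
    have h4 : (2 * e * c + 12 * e + 24 * e * e) / A ≤ 100 * e := by
      rw [div_le_iff₀ hA0]
      nlinarith
    linarith
  · refine le_trans ?_ hsB
    rw [le_div_iff₀ hB]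
    refine le_trans ?_ hs1
    have h1 : V = σ * Hc * (B * A) := by rw [hσ]; field_simp
    rw [h1]
    have h2 : e / 4 ≤ (1 - e) * (e * A) := by
      have h5 : 15 / 16 * A ≤ (1 - e) * A := mul_le_mul_of_nonneg_right (by linarith) hA0.le
      have h6 : 1 / 4 ≤ (1 - e) * A := by linarith
      have h7 := mul_le_mul_of_nonneg_left h6 he.le
      have h8 : (1 - e) * (e * A) = e * ((1 - e) * A) := by ring
      rw [h8]
      linarith
    have h3 : (1 - e) * (e * A) ≤ (1 - e) * (σ * A) :=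
      mul_le_mul_of_nonneg_left (mul_le_mul_of_nonneg_right hσe hA0.le) (by linarith)
    have h4 : (0 : ℝ) ≤ Hc * B := by positivity
    calc e / 4 * Hc * B = e / 4 * (Hc * B) := by ring
      _ ≤ ((1 - e) * (σ * A)) * (Hc * B) := mul_le_mul_of_nonneg_right (h2.trans h3) h4
      _ = _ := by ring

/-- the algebra of the large case -/
theorem alg_lev_many (c A e V s q B P Hc σ : ℝ) (hc0 : 1 / 2 ≤ c) (hc : c ≤ 2) (hA : 1 / 2 ≤ A) (hA2 : A ≤ 2)
    (he : 0 < e) (he1 : e ≤ 1 / 32) (hB : 0 < B) (hq : 0 < q) (hqB : B * (1 - e) ≤ q)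
    (hH : 0 < Hc) (hσ : σ * Hc = V / (B * A)) (hs0 : 0 ≤ s) (hs : s ≤ V)
    (h : (c - 12 * e) * (max σ e * Hc) ≤ P) :
    (c / A - 100 * e) * max (s / q) (e / 32 * Hc) ≤ P := by
  have hA0 : 0 < A := by linarith
  have hce : 0 ≤ c - 12 * e := by linarith
  have hP : 0 ≤ P := by
    refine le_trans ?_ h
    apply mul_nonneg hce
    exact mul_nonneg (he.le.trans (le_max_right _ _)) hH.le
  rcases le_or_gt (c / A - 100 * e) 0 with h0 | h0
  · refine le_trans ?_ hP
    apply mul_nonpos_of_nonpos_of_nonneg h0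
    exact le_max_of_le_left (by positivity)
  rw [mul_max_of_nonneg _ _ h0.le]
  apply max_le
  · have h1 : (c - 12 * e) * (σ * Hc) ≤ P := by
      refine le_trans ?_ h
      apply mul_le_mul_of_nonneg_left _ hce
      exact mul_le_mul_of_nonneg_right (le_max_left _ _) hH.le
    refine le_trans ?_ h1
    rw [hσ]
    have h2 : s / q ≤ (1 + 2 * e) * (V / B) := by
      have h3 : s / q ≤ V / (B * (1 - e)) := by
        apply div_le_div₀ (hs0.trans hs) hs _ hqB
        apply mul_pos hB; linarith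
      refine h3.trans ?_
      have h4 : V / (B * (1 - e)) = (1 / (1 - e)) * (V / B) := by
        have : (1 - e) ≠ 0 := by linarith
        field_simp
      rw [h4]
      apply mul_le_mul_of_nonneg_right _ (div_nonneg (hs0.trans hs) hB.le)
      rw [div_le_iff₀ (by linarith)]
      nlinarith
    have hVB : 0 ≤ V / B := div_nonneg (hs0.trans hs) hB.le
    calc (c / A - 100 * e) * (s / q) ≤ (c / A - 100 * e) * ((1 + 2 * e) * (V / B)) := mul_le_mul_of_nonneg_left h2 h0.le
      _ = ((c / A - 100 * e) * (1 + 2 * e)) * (V / B) := by ring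
      _ ≤ ((c - 12 * e) / A) * (V / B) := by
          apply mul_le_mul_of_nonneg_right _ hVB
          rw [le_div_iff₀ hA0]
          have h5 : (c / A - 100 * e) * (1 + 2 * e) * A = (c - 100 * e * A) * (1 + 2 * e) := by field_simp
          rw [h5]
          have h6 : 2 * (e * c) ≤ 4 * e := by nlinarith
          have h7 : 50 * e ≤ 100 * (e * A) := by nlinarith
          have h8 : 0 ≤ 200 * (e * e * A) := by positivity
          have h9 : (c - 100 * e * A) * (1 + 2 * e) = c + 2 * (e * c) - 100 * (e * A) - 200 * (e * e * A) := by ring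
          rw [h9]
          linarith
      _ = (c - 12 * e) * (V / (B * A)) := by field_simp
  · have h1 : (c - 12 * e) * (e * Hc) ≤ P := by
      refine le_trans ?_ h
      apply mul_le_mul_of_nonneg_left _ hce
      exact mul_le_mul_of_nonneg_right (le_max_right _ _) hH.le
    refine le_trans ?_ h1
    have h2 : c / A - 100 * e ≤ 4 := by
      have : c / A ≤ 4 := by
        rw [div_le_iff₀ hA0]; linarith
      linarith
    have h3 : (0 : ℝ) ≤ e * Hc := by positivity
    calc (c / A - 100 * e) * (e / 32 * Hc) ≤ 4 * (e / 32 * Hc) := mul_le_mul_of_nonneg_right h2 (by positivity)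
      _ = 1 / 8 * (e * Hc) := by ring
      _ ≤ (c - 12 * e) * (e * Hc) := mul_le_mul_of_nonneg_right (by linarith) h3

/-- the sizes for the lost shifts -/
theorem kil_ev (θ e : ℝ) (hθ : 0 < θ) (hθ1 : θ < 1) (he : 0 < e) : ∀ᶠ X : ℝ in atTop,
    ∀ (W : ℝ) (w : ℕ), 0 < W → W ≤ Real.exp (3 / 2 * zL θ (Real.log X)) → w ≤ zL θ (Real.log X) →
      (w : ℝ) * W ≤ e * X := by
  have hlt := Real.tendsto_log_atTop
  have e1 : ∀ᶠ X : ℝ in atTop, Real.exp (-(1 / 2 * Real.log X)) < e := by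
    have h1 : Tendsto (fun X : ℝ => -(1 / 2 * Real.log X)) atTop atBot :=
      tendsto_neg_atTop_atBot.comp (hlt.const_mul_atTop (by norm_num))
    exact (Real.tendsto_exp_atBot.comp h1).eventually_lt_const he
  filter_upwards [e1, zL_yy θ hθ hθ1, eventually_gt_atTop (1 : ℝ)] with X g1 g2 g3
  intro W w hW0 hW hw
  have hX0 : 0 < X := by linarith
  have hL0 : 0 < Real.log X := Real.log_pos g3
  have h1 : (w : ℝ) ≤ Real.exp (zL θ (Real.log X)) := by
    have h2 : (w : ℝ) ≤ zL θ (Real.log X) := by exact_mod_cast hw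
    have h3 := Real.add_one_le_exp (zL θ (Real.log X) : ℝ)
    linarith
  have h4 : (w : ℝ) * W ≤ Real.exp (1 / 2 * Real.log X) := by
    calc (w : ℝ) * W ≤ Real.exp (zL θ (Real.log X)) * Real.exp (3 / 2 * zL θ (Real.log X)) := by
          apply mul_le_mul h1 hW hW0.le (Real.exp_pos _).le
      _ = Real.exp (5 / 2 * zL θ (Real.log X)) := by rw [← Real.exp_add]; congr 1; ring
      _ ≤ Real.exp (1 / 2 * Real.log X) := by
          apply Real.exp_le_exp.2
          linarith [g2.2]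
  refine h4.trans ?_
  have h5 : Real.exp (1 / 2 * Real.log X) = Real.exp (-(1 / 2 * Real.log X)) * X := by
    nth_rewrite 3 [← Real.exp_log hX0]
    rw [← Real.exp_add]
    congr 1
    ring
  rw [h5]
  exact mul_le_mul_of_nonneg_right g1.le hX0.le

/-- many rows with few primes, in comparison with the sifted shifts -/
theorem few_lev (t θ ε : ℝ) (hθ : 0 < θ) (hθ1 : θ < 1) (ht : 1 < t) (hε : 0 < ε) (hε1 : ε ≤ 1 / 32) :
    ∃ Z0 : ℕ, ∀ Z : ℕ, Z0 ≤ Z → ∀ᶠ X : ℝ in atTop, ∃ (ps : ℕ) (S : Finset ℕ), GoodP Z ps ∧ GoodS X S ∧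
      ∀ (A : ℝ) (w Y : ℕ) (H : Finset ℕ), 1 / 2 ≤ A → A ≤ 2 → w ≤ zL θ (Real.log X) → H ⊆ Icc 1 Y →
        (Y : ℝ) ≤ (Real.log (4 * X)) ^ t → (Real.log (Real.log X)) ^ 2 ≤ H.card →
        (A - ε) * (RL t (Real.log X) * H.card) ≤
          ∑ r ∈ Icc 1 (RL t (Real.log X)), (VH (WZ X w S ps) r H : ℝ) / BE (PZ X w S ps) →
        X * Real.exp (-(1 / 2 * (Real.log X) ^ θ)) ≤
          ((rowset X (fun n => Real.log X * cP H n ≤ (cw (t / θ) / A + 200 * ε) * (sW H w n / QQ w) ∧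
            ε / 2 * H.card ≤ sW H w n / QQ w)).card : ℝ) := by
  classical
  obtain ⟨e, hedef⟩ : ∃ e : ℝ, e = 2 * ε := ⟨_, rfl⟩
  have he : 0 < e := by rw [hedef]; positivity
  have he1 : e ≤ 1 / 16 := by rw [hedef]; linarith
  obtain ⟨Z1, hZ1⟩ := few_genG t θ e hθ hθ1 ht he he1
  refine ⟨max Z1 (⌈40960 / e ^ 2⌉₊ + 1), fun Z hZ => ?_⟩
  have hlt := Real.tendsto_log_atTop
  have hll : Tendsto (fun X : ℝ => Real.log (Real.log X)) atTop atTop := hlt.comp hlt
  obtain ⟨k, hk⟩ := exists_nat_gt t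
  filter_upwards [hZ1 Z ((le_max_left _ _).trans hZ), zL_yy θ hθ hθ1, kil_ev θ (e ^ 2 / 5120) hθ hθ1 (by positivity),
    hll.eventually_ge_atTop (max 1 (245760 / e ^ 2)), eventually_ge_atTop (40 : ℝ),
    hlt.eventually (lens t (Real.log 4) ht k hk), Pool.Agent.R529.BU.ev_pow_le k] with X g1 g2 g3 g4 g5 g6 g7
  obtain ⟨ps, S, hps, hS, hmain⟩ := g1
  refine ⟨ps, S, hps, hS, fun A w Y H hA hA2 hw hH hY hHc hsum => ?_⟩
  have hX0 : 0 < X := by linarith
  have hM1 := MPhi_ge X g5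
  have hZc : ⌈40960 / e ^ 2⌉₊ + 1 ≤ Z := (le_max_right _ _).trans hZ
  have hZ1' : 1 ≤ Z := by omega
  have hZe : 1 / (Z : ℝ) ≤ e ^ 2 / 40960 := by
    have h1 : 40960 / e ^ 2 ≤ Z := by
      refine (Nat.le_ceil _).trans ?_
      have : ⌈40960 / e ^ 2⌉₊ ≤ Z := by omega
      exact_mod_cast this
    have h2 : (0 : ℝ) < 40960 / e ^ 2 := by positivity
    calc 1 / (Z : ℝ) ≤ 1 / (40960 / e ^ 2) := one_div_le_one_div_of_le h2 h1
      _ = _ := by rw [one_div_div]
  set L := Real.log X with hL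
  set z := zL θ L with hzdef
  set R := RL t L with hR
  set W := WZ X z S ps with hW
  set W' := WZ X w S ps with hW'
  set B := BE (PZ X w S ps) with hB
  have hB0 : 0 < B := BE_pos fun p hp => PZ_prime hp
  have hWpos := WZ_pos X z S ps
  rw [← hW] at hWpos
  have hW0 : (0 : ℝ) < W := by exact_mod_cast hWpos
  have hWle := WZ_le X z S ps
  rw [← hW] at hWle
  have hA0 : 0 < A := by linarith
  have hll1 : 1 ≤ Real.log L := (le_max_left _ _).trans g4
  have hll2 : 245760 / e ^ 2 ≤ Real.log L := (le_max_right _ _).trans g4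
  have hHpos : (0 : ℝ) < H.card := lt_of_lt_of_le (by positivity) hHc
  have hSs : ∑ q ∈ S, (1 : ℝ) / q ≤ e ^ 2 / 40960 := by
    refine hS.2.trans ?_
    rw [div_le_iff₀ (by positivity)] at hll2
    rw [div_le_div_iff₀ (by positivity) (by norm_num)]
    nlinarith
  obtain ⟨hE1, hE2, hE3⟩ := E_facts (X := X) (S := S) hw g2.1 hZ1' hps
  rw [← hW] at hE1
  set E := Pw w \ PZ X w S ps with hE
  have hEs : ∑ p ∈ E, (1 : ℝ) / p ≤ e ^ 2 / 20480 := by
    refine hE2.trans ?_
    have : e ^ 2 / 20480 = e ^ 2 / 40960 + e ^ 2 / 40960 := by ring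
    linarith
  set T : ℕ → Finset ℕ := fun r => H.filter (fun a => (r + a).Coprime W') with hT
  have hTcard : ∀ r, (T r).card = VH W' r H := fun r => rfl
  set σ : ℕ → ℝ := fun r => (VH W' r H : ℝ) / (B * A * H.card) with hσ
  have hσH : ∀ r, σ r * H.card = (VH W' r H : ℝ) / (B * A) := by
    intro r
    rw [hσ]
    field_simp
  have hσsum : (1 - e) * (R : ℝ) ≤ ∑ r ∈ Icc 1 R, σ r := by
    have h1 : ∑ r ∈ Icc 1 R, σ r = (∑ r ∈ Icc 1 R, (VH W' r H : ℝ) / B) / (A * H.card) := by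
      rw [Finset.sum_div]
      apply Finset.sum_congr rfl
      intro r _
      rw [hσ]
      field_simp
    rw [h1, le_div_iff₀ (by positivity)]
    refine le_trans ?_ hsum
    have h2 : (1 - e) * A ≤ A - ε := by
      rw [hedef]
      nlinarith
    calc (1 - e) * (R : ℝ) * (A * H.card) = ((1 - e) * A) * (R * H.card) := by ring
      _ ≤ (A - ε) * (R * H.card) := mul_le_mul_of_nonneg_right h2 (by positivity)
  have hYX : (Y : ℝ) ≤ X := by
    have h1 : Real.log (4 * X) = L + Real.log 4 := by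
      rw [Real.log_mul (by norm_num) hX0.ne']
      ring
    rw [h1] at hY
    have h2 := hY.trans (g6.2.1.trans g7)
    linarith
  obtain ⟨r, hr, hσr, hcount⟩ := hmain σ Y H (fun r n => 4 / (e * B * A) * (kil (T r) E n : ℝ)) hH hY hHc hσsum
    (fun r n => by positivity) (fun r hr hσr => by
      have h1 := kil_sum X W r ⌊3 * X⌋₊ Y (T r) E ((filter_subset _ _).trans hH) hE1 hWpos
      have h2 : ∑ n ∈ Icc 1 ⌊3 * X⌋₊, nu X W r n * (4 / (e * B * A) * (kil (T r) E n : ℝ)) =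
          4 / (e * B * A) * ∑ n ∈ Icc 1 ⌊3 * X⌋₊, nu X W r n * (kil (T r) E n : ℝ) := by
        rw [Finset.mul_sum]
        apply Finset.sum_congr rfl
        intro n _
        ring
      rw [h2]
      rw [hTcard] at h1
      have h3 : ((⌊3 * X⌋₊ : ℕ) : ℝ) + Y ≤ 4 * X := by
        have : ((⌊3 * X⌋₊ : ℕ) : ℝ) ≤ 3 * X := Nat.floor_le (by linarith)
        linarith
      have h4 : (((⌊3 * X⌋₊ : ℕ) : ℝ) + Y) / W * ∑ p ∈ E, (1 : ℝ) / p + E.card ≤ e ^ 2 / 64 * (X / 20 / (2 * W)) := by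
        have h5 : (((⌊3 * X⌋₊ : ℕ) : ℝ) + Y) / W * ∑ p ∈ E, (1 : ℝ) / p ≤ 4 * X / W * (e ^ 2 / 20480) := by
          apply mul_le_mul _ hEs (Finset.sum_nonneg fun _ _ => by positivity) (by positivity)
          exact div_le_div_of_nonneg_right h3 hW0.le
        have h6 : (E.card : ℝ) ≤ e ^ 2 / 5120 * X / W := by
          rw [le_div_iff₀ hW0]
          refine le_trans ?_ (g3 W w hW0 hWle hw)
          apply mul_le_mul_of_nonneg_right _ hW0.le
          exact_mod_cast hE3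
        have h7 : 4 * X / W * (e ^ 2 / 20480) + e ^ 2 / 5120 * X / W = e ^ 2 / 64 * (X / 20 / (2 * W)) := by
          field_simp
          ring
        linarith
      have hσ0 : 0 ≤ σ r * H.card := by
        have : 0 ≤ σ r := he.le.trans hσr
        positivity
      calc 4 / (e * B * A) * ∑ n ∈ Icc 1 ⌊3 * X⌋₊, nu X W r n * (kil (T r) E n : ℝ)
          ≤ 4 / (e * B * A) * ((VH W' r H : ℝ) * (e ^ 2 / 64 * (X / 20 / (2 * W)))) := by
            apply mul_le_mul_of_nonneg_left _ (by positivity)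
            exact h1.trans (mul_le_mul_of_nonneg_left h4 (Nat.cast_nonneg _))
        _ = e / 16 * ((VH W' r H : ℝ) / (B * A)) * (X / 20 / (2 * W)) := by field_simp; ring
        _ = e / 16 * (σ r * H.card) * (X / 20 / (2 * W)) := by rw [hσH]
        _ ≤ e / 16 * (σ r * H.card) * (MPhi X / (2 * W)) := by gcongr)
  refine hcount.trans ?_
  have hsub : rowset X (fun n => n ≡ r [MOD W] ∧
      L * cP H n + 4 / (e * B * A) * (kil (T r) E n : ℝ) ≤ (cw (t / θ) + 12 * e) * (σ r * H.card)) ⊆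
      rowset X (fun n => L * cP H n ≤ (cw (t / θ) / A + 200 * ε) * (sW H w n / QQ w) ∧
        ε / 2 * H.card ≤ sW H w n / QQ w) := by
    intro n hn
    obtain ⟨m1, m2, m3, m4, m5⟩ := mem_rowset.1 hn
    have hut : 1 ≤ t / θ := by rw [le_div_iff₀ hθ]; linarith
    obtain ⟨hc1, hc2⟩ := cw_bounds (t / θ) hut
    have hL0 : 0 ≤ L := Real.log_nonneg (by linarith)
    have h1 := le_sW hw S ps m4 H
    have h2 : (VH W' r H : ℝ) ≤ sW H w n + kil (T r) E n := by exact_mod_cast h1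
    have h3 := alg_lev_few (cw (t / θ)) A e (VH W' r H) (kil (T r) E n) (sW H w n) (QQ w) B L (cP H n) H.card (σ r)
      (by linarith) hc2 hA hA2 he he1 hB0 (QQ_pos w) (QQ_le_BEZ S ps) (Nat.cast_nonneg _) hHpos (hσH r) hσr
      (Nat.cast_nonneg _) h2 (by positivity) m5
    refine mem_rowset.2 ⟨m1, m2, m3, ?_, ?_⟩
    · have h4 : 100 * e = 200 * ε := by rw [hedef]; ring
      rw [← h4]
      exact h3.1
    · have h4 : ε / 2 = e / 4 := by rw [hedef]; ring
      rw [h4]
      exact h3.2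
  exact_mod_cast Finset.card_le_card hsub

/-- many rows with many primes, in comparison with the sifted shifts -/
theorem many_lev (t θ ε : ℝ) (hθ : 0 < θ) (hθ1 : θ < 1) (ht : 1 < t) (hε : 0 < ε) (hε1 : ε ≤ 1 / 64) :
    ∃ Z0 : ℕ, ∀ Z : ℕ, Z0 ≤ Z → ∀ᶠ X : ℝ in atTop, ∃ (ps : ℕ) (S : Finset ℕ), GoodP Z ps ∧ GoodS X S ∧
      ∀ (A : ℝ) (w Y : ℕ) (H : Finset ℕ), 1 / 2 ≤ A → A ≤ 2 → w ≤ zL θ (Real.log X) → H ⊆ Icc 1 Y →
        (Y : ℝ) ≤ (Real.log (4 * X)) ^ t → (Real.log (Real.log X)) ^ 2 ≤ H.card →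
        ∑ r ∈ Icc 1 (RL t (Real.log X)), (VH (WZ X w S ps) r H : ℝ) / BE (PZ X w S ps) ≤
          (A + ε) * (RL t (Real.log X) * H.card) →
        X * Real.exp (-(1 / 2 * (Real.log X) ^ θ)) ≤
          ((rowset X (fun n => (cw (t / θ) / A - 200 * ε) * max (sW H w n / QQ w) (ε / 16 * H.card) ≤
            Real.log (4 * X) * cP H n)).card : ℝ) := by
  classical
  obtain ⟨e, hedef⟩ : ∃ e : ℝ, e = 2 * ε := ⟨_, rfl⟩
  have he : 0 < e := by rw [hedef]; positivity
  have he1 : e ≤ 1 / 32 := by rw [hedef]; linarith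
  obtain ⟨Z1, hZ1⟩ := many_gen t θ e hθ hθ1 ht he he1
  refine ⟨max Z1 (⌈2 / e⌉₊ + 1), fun Z hZ => ?_⟩
  have hlt := Real.tendsto_log_atTop
  have hll : Tendsto (fun X : ℝ => Real.log (Real.log X)) atTop atTop := hlt.comp hlt
  filter_upwards [hZ1 Z ((le_max_left _ _).trans hZ), zL_yy θ hθ hθ1,
    hll.eventually_ge_atTop (max 1 (12 / e)), eventually_ge_atTop (40 : ℝ)] with X g1 g2 g4 g5
  obtain ⟨ps, S, hps, hS, hmain⟩ := g1
  refine ⟨ps, S, hps, hS, fun A w Y H hA hA2 hw hH hY hHc hsum => ?_⟩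
  have hX0 : 0 < X := by linarith
  have hZc : ⌈2 / e⌉₊ + 1 ≤ Z := (le_max_right _ _).trans hZ
  have hZ1' : 1 ≤ Z := by omega
  have hZe : 1 / (Z : ℝ) ≤ e / 2 := by
    have h1 : 2 / e ≤ Z := by
      refine (Nat.le_ceil _).trans ?_
      have : ⌈2 / e⌉₊ ≤ Z := by omega
      exact_mod_cast this
    have h2 : (0 : ℝ) < 2 / e := by positivity
    calc 1 / (Z : ℝ) ≤ 1 / (2 / e) := one_div_le_one_div_of_le h2 h1
      _ = _ := by rw [one_div_div]
  set L := Real.log X with hL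
  set z := zL θ L with hzdef
  set R := RL t L with hR
  set W := WZ X z S ps with hW
  set W' := WZ X w S ps with hW'
  set B := BE (PZ X w S ps) with hB
  have hB0 : 0 < B := BE_pos fun p hp => PZ_prime hp
  have hA0 : 0 < A := by linarith
  have hll1 : 1 ≤ Real.log L := (le_max_left _ _).trans g4
  have hll2 : 12 / e ≤ Real.log L := (le_max_right _ _).trans g4
  have hHpos : (0 : ℝ) < H.card := lt_of_lt_of_le (by positivity) hHc
  have hSs : ∑ q ∈ S, (1 : ℝ) / q ≤ e / 2 := by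
    refine hS.2.trans ?_
    rw [div_le_iff₀ he] at hll2
    rw [div_le_div_iff₀ (by positivity) (by norm_num)]
    nlinarith
  have hqB : B * (1 - e) ≤ QQ w := by
    refine le_trans ?_ (BEZ_le (hw.trans g2.1) S ps Z hZ1' hps (e / 2) hSs)
    apply mul_le_mul_of_nonneg_left _ hB0.le
    linarith
  set σ : ℕ → ℝ := fun r => (VH W' r H : ℝ) / (B * A * H.card) with hσ
  have hσH : ∀ r, σ r * H.card = (VH W' r H : ℝ) / (B * A) := by
    intro r
    rw [hσ]
    field_simp
  have hσn : ∀ r, 0 ≤ σ r := fun r => by rw [hσ]; positivity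
  have hσsum : ∑ r ∈ Icc 1 R, σ r ≤ (1 + e) * (R : ℝ) := by
    have h1 : ∑ r ∈ Icc 1 R, σ r = (∑ r ∈ Icc 1 R, (VH W' r H : ℝ) / B) / (A * H.card) := by
      rw [Finset.sum_div]
      apply Finset.sum_congr rfl
      intro r _
      rw [hσ]
      field_simp
    rw [h1, div_le_iff₀ (by positivity)]
    refine hsum.trans ?_
    have h2 : A + ε ≤ (1 + e) * A := by
      rw [hedef]
      nlinarith
    calc (A + ε) * (R * H.card) ≤ ((1 + e) * A) * (R * H.card) := mul_le_mul_of_nonneg_right h2 (by positivity)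
      _ = _ := by ring
  obtain ⟨r, hr, hVpos, hcount⟩ := hmain σ Y H hH hY hHc hσn hσsum
  refine hcount.trans ?_
  have hsub : rowset X (fun n => n ≡ r [MOD W] ∧
      (cw (t / θ) - 12 * e) * (max (σ r) e * H.card) * (1 + GX z ⌊L ^ 2⌋₊ n) ≤ Real.log (4 * X) * cP H n) ⊆
      rowset X (fun n => (cw (t / θ) / A - 200 * ε) * max (sW H w n / QQ w) (ε / 16 * H.card) ≤
        Real.log (4 * X) * cP H n) := by
    intro n hn
    obtain ⟨m1, m2, m3, m4, m5⟩ := mem_rowset.1 hn
    have hut : 1 ≤ t / θ := by rw [le_div_iff₀ hθ]; linarith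
    obtain ⟨hc1, hc2⟩ := cw_bounds (t / θ) hut
    have h1 := sW_le hw S ps m4 H
    have h2 : (sW H w n : ℝ) ≤ VH W' r H := by exact_mod_cast h1
    have hG := GX_nonneg z ⌊L ^ 2⌋₊ n
    have h0 : (cw (t / θ) - 12 * e) * (max (σ r) e * H.card) ≤ Real.log (4 * X) * cP H n := by
      refine le_trans ?_ m5
      apply le_mul_of_one_le_right
      · apply mul_nonneg (by linarith)
        exact mul_nonneg (he.le.trans (le_max_right _ _)) hHpos.le
      · linarith
    have h3 := alg_lev_many (cw (t / θ)) A e (VH W' r H) (sW H w n) (QQ w) B (Real.log (4 * X) * cP H n) H.card (σ r)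
      hc1 hc2 hA hA2 he he1 hB0 (QQ_pos w) hqB hHpos (hσH r) (Nat.cast_nonneg _) h2 h0
    refine mem_rowset.2 ⟨m1, m2, m3, ?_⟩
    have h4 : 200 * ε = 100 * e := by rw [hedef]; ring
    have h5 : ε / 16 = e / 32 := by rw [hedef]; ring
    rw [h4, h5]
    exact h3
  exact_mod_cast Finset.card_le_card hsub

end Pool.Agent.H560.MQ
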