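import Pool.Agent.H560.MQ.Lev4

/-!
The averages over the classes, for the primes up to `w`.
-/

set_option autoImplicit false

open Finset Filter Topology
open Pool.Agent.H378R2 Pool.Agent.H510R2.Maier Pool.Agent.T2H52.MG
open Pool.Agent.R529.LD (ev_rpow ratio_one)

namespace Pool.Agent.H560.MQ

/-- the class averages of the sifted shifts are close to `A`, for the levels in the range `Q` -/
def AvgE (t θ A ε : ℝ) (Q : ℝ → ℕ → Prop) : Prop := ∃ Z0 : ℕ, ∀ Z : ℕ, Z0 ≤ Z → ∀ᶠ X : ℝ in atTop,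
  ∀ (ps : ℕ) (S : Finset ℕ), GoodP Z ps → GoodS X S → ∀ w : ℕ, Q X w → w ≤ zL θ (Real.log X) ∧
    ∀ (Y : ℕ) (H : Finset ℕ), H ⊆ Icc 1 Y → (Y : ℝ) ≤ (Real.log (4 * X)) ^ t →
      (A - ε) * (RL t (Real.log X) * H.card) ≤
        ∑ r ∈ Icc 1 (RL t (Real.log X)), (VH (WZ X w S ps) r H : ℝ) / BE (PZ X w S ps) ∧
      ∑ r ∈ Icc 1 (RL t (Real.log X)), (VH (WZ X w S ps) r H : ℝ) / BE (PZ X w S ps) ≤
        (A + ε) * (RL t (Real.log X) * H.card)

theorem sum_VH_cnt (W R : ℕ) (H : Finset ℕ) : ∑ r ∈ Icc 1 R, VH W r H = ∑ h ∈ H, cnt W h R := by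
  unfold VH cnt
  simp only [Finset.card_filter]
  rw [Finset.sum_comm]
  apply Finset.sum_congr rfl
  intro h _
  apply Finset.sum_congr rfl
  intro r _
  rw [Nat.add_comm r h]

/-- the levels up to a small power of `log X` -/
theorem avg_small (t θ : ℝ) (hθ : 0 < θ) (ht : 1 < t) (ε : ℝ) (hε : 0 < ε) : ∃ δ : ℝ, 0 < δ ∧ δ < θ ∧
    AvgE t θ 1 ε (fun X w => (w : ℝ) ≤ 2 * (Real.log X) ^ δ) := by
  obtain ⟨s, R0, hs, hfl⟩ := cnt_fl ε hε
  have hs0 : (0 : ℝ) < s := by exact_mod_cast hs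
  refine ⟨min (θ / 2) (1 / (2 * s)), lt_min (by positivity) (by positivity),
    (min_le_left _ _).trans_lt (by linarith), 0, fun Z _ => ?_⟩
  set δ := min (θ / 2) (1 / (2 * s)) with hδ
  have hδ0 : 0 < δ := lt_min (by positivity) (by positivity)
  have hlt := Real.tendsto_log_atTop
  have e1 := hlt.eventually (ev_rpow δ θ 16 ((min_le_left _ _).trans_lt (by linarith)))
  have e2 := hlt.eventually (ev_rpow (1 / 2) t (2 * 2 ^ s) (by linarith))
  have e3 := hlt.eventually ((tendsto_rpow_atTop (show 0 < t by linarith)).eventually_ge_atTop (max 2 (2 * R0)))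
  have e4 := hlt.eventually ((tendsto_rpow_atTop hθ).eventually_ge_atTop 8)
  filter_upwards [e1, e2, e3, e4, hlt.eventually_ge_atTop (1 : ℝ)] with X g1 g2 g3 g4 g5
  intro ps S hps hS w hw
  set L := Real.log X with hL
  have hL0 : 0 < L := by linarith
  have hLt : 0 < L ^ t := by positivity
  have h3 : (2 : ℝ) ≤ L ^ t := (le_max_left _ _).trans g3
  have h3' : 2 * R0 ≤ L ^ t := (le_max_right _ _).trans g3
  have hR1 : L ^ t / 2 ≤ RL t L := by
    have := (Nat.lt_floor_add_one (L ^ t)).le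
    unfold RL
    linarith
  have hz2 : 1 / 8 * L ^ θ ≤ zL θ L := by
    have := (Nat.lt_floor_add_one (1 / 4 * L ^ θ)).le
    unfold zL
    linarith
  have hwz : w ≤ zL θ L := by
    have : (w : ℝ) ≤ zL θ L := by linarith
    exact_mod_cast this
  refine ⟨hwz, fun Y H _ _ => ?_⟩
  have hws : (w : ℝ) ^ s ≤ RL t L := by
    have h4 : (w : ℝ) ^ s ≤ 2 ^ s * L ^ (1 / 2 : ℝ) := by
      calc (w : ℝ) ^ s ≤ (2 * L ^ δ) ^ s := pow_le_pow_left₀ (Nat.cast_nonneg _) hw s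
        _ = 2 ^ s * (L ^ δ) ^ s := mul_pow _ _ _
        _ = 2 ^ s * L ^ (δ * s) := by rw [← Real.rpow_natCast (L ^ δ), ← Real.rpow_mul hL0.le]
        _ ≤ 2 ^ s * L ^ (1 / 2 : ℝ) := by
            apply mul_le_mul_of_nonneg_left _ (by positivity)
            apply Real.rpow_le_rpow_of_exponent_le g5
            have h5 : δ ≤ 1 / (2 * s) := min_le_right _ _
            calc δ * s ≤ 1 / (2 * s) * s := mul_le_mul_of_nonneg_right h5 hs0.le
              _ = 1 / 2 := by field_simp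
    have h5 : 2 * (2 ^ s * L ^ (1 / 2 : ℝ)) ≤ L ^ t := by
      have := g2
      linarith
    linarith
  have hfl' := hfl w (RL t L) (PZ X w S ps) (PZ_sub X w S ps) (by linarith) hws
  set B := BE (PZ X w S ps) with hB
  have hB0 : 0 < B := BE_pos fun p hp => PZ_prime hp
  have hcast : ∑ r ∈ Icc 1 (RL t L), (VH (WZ X w S ps) r H : ℝ) / B = ∑ h ∈ H, (cnt (WZ X w S ps) h (RL t L) : ℝ) / B := by
    rw [← Finset.sum_div, ← Finset.sum_div]
    congr 1
    exact_mod_cast sum_VH_cnt (WZ X w S ps) (RL t L) H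
  rw [hcast]
  have hb : ∀ h ∈ H, (1 - ε) * (RL t L : ℝ) ≤ (cnt (WZ X w S ps) h (RL t L) : ℝ) / B ∧
      (cnt (WZ X w S ps) h (RL t L) : ℝ) / B ≤ (1 + ε) * (RL t L : ℝ) := by
    intro h _
    have h6 := abs_le.1 (hfl' h)
    constructor
    · rw [le_div_iff₀ hB0]
      have h7 : (cnt (∏ p ∈ PZ X w S ps, p) h (RL t L) : ℝ) = cnt (WZ X w S ps) h (RL t L) := rfl
      rw [h7] at h6
      linarith [h6.1]
    · rw [div_le_iff₀ hB0]
      have h7 : (cnt (∏ p ∈ PZ X w S ps, p) h (RL t L) : ℝ) = cnt (WZ X w S ps) h (RL t L) := rfl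
      rw [h7] at h6
      linarith [h6.2]
  constructor
  · have h2 := Finset.card_nsmul_le_sum H _ _ (fun h hh => (hb h hh).1)
    rw [nsmul_eq_mul] at h2
    refine le_trans (le_of_eq ?_) h2
    ring
  · have h2 := Finset.sum_le_card_nsmul H _ _ (fun h hh => (hb h hh).2)
    rw [nsmul_eq_mul] at h2
    refine h2.trans (le_of_eq ?_)
    ring

/-- the scales for a level of the size `(log X) ^ δ` -/
theorem scales_w (t δ u η e : ℝ) (hδ : 0 < δ) (hδ1 : δ < 1) (ht : 1 < t) (hu : u = t / δ) (hη : 0 < η) (hη1 : η < u - 1)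
    (he : 0 < e) : ∀ᶠ L : ℝ in atTop, ∀ w : ℕ, L ^ δ / 2 ≤ w → (w : ℝ) ≤ 2 * L ^ δ → (w : ℝ) ^ (u - η) + 1 ≤ e * RL t L ∧
      4 * (RL t L : ℝ) ≤ (w : ℝ) ^ (u + η) := by
  have huδ : δ * u = t := by rw [hu]; field_simp
  have hut : 1 < u := by rw [hu, lt_div_iff₀ hδ]; linarith
  have e1 := ev_rpow (t - δ * η) t (2 ^ (u - η) * (4 / e)) (by nlinarith)
  have e2 := ev_rpow t (t + δ * η) (4 * 2 ^ (u + η)) (by nlinarith)
  have e5 := (tendsto_rpow_atTop (show 0 < t by linarith)).eventually_ge_atTop (max 2 (4 / e))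
  filter_upwards [e1, e2, e5, eventually_ge_atTop (1 : ℝ)] with L g1 g2 g5 g7
  intro w hw1 hw2
  have hL0 : 0 < L := lt_of_lt_of_le one_pos g7
  have h2 : (2 : ℝ) ≤ L ^ t := (le_max_left _ _).trans g5
  have h3 : 4 / e ≤ L ^ t := (le_max_right _ _).trans g5
  have hLt : 0 < L ^ t := by positivity
  have hLδ : 0 < L ^ δ := by positivity
  have hR1 : L ^ t / 2 ≤ RL t L := by
    have := (Nat.lt_floor_add_one (L ^ t)).le
    unfold RL
    linarith
  have hR2 : (RL t L : ℝ) ≤ L ^ t := Nat.floor_le hLt.le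
  have hw0 : 0 ≤ (w : ℝ) := Nat.cast_nonneg _
  rw [div_le_iff₀ he] at h3
  have heR : e * (L ^ t / 2) ≤ e * RL t L := by gcongr
  constructor
  · have h4 : (w : ℝ) ^ (u - η) ≤ 2 ^ (u - η) * L ^ (t - δ * η) := by
      calc (w : ℝ) ^ (u - η) ≤ (2 * L ^ δ) ^ (u - η) := Real.rpow_le_rpow hw0 hw2 (by linarith)
        _ = 2 ^ (u - η) * (L ^ δ) ^ (u - η) := Real.mul_rpow (by norm_num) hLδ.le
        _ = 2 ^ (u - η) * L ^ (t - δ * η) := by
            rw [← Real.rpow_mul hL0.le, mul_sub, huδ]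
    have h5 : 4 * (2 ^ (u - η) * L ^ (t - δ * η)) ≤ e * L ^ t := by
      have h6 : 2 ^ (u - η) * (4 / e) * L ^ (t - δ * η) = 4 * (2 ^ (u - η) * L ^ (t - δ * η)) / e := by ring
      rw [h6, div_le_iff₀ he] at g1
      linarith
    linarith
  · have h4 : L ^ (t + δ * η) ≤ 2 ^ (u + η) * (w : ℝ) ^ (u + η) := by
      rw [← Real.mul_rpow (by norm_num) hw0]
      calc L ^ (t + δ * η) = (L ^ δ) ^ (u + η) := by
            rw [← Real.rpow_mul hL0.le]
            congr 1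
            rw [mul_add, huδ]
        _ ≤ _ := by
            apply Real.rpow_le_rpow hLδ.le (by linarith) (by linarith)
    have h5 : (0 : ℝ) < 2 ^ (u + η) := by positivity
    have h6 : 2 ^ (u + η) * (4 * (RL t L : ℝ)) ≤ 2 ^ (u + η) * (w : ℝ) ^ (u + η) := by
      calc 2 ^ (u + η) * (4 * (RL t L : ℝ)) ≤ 2 ^ (u + η) * (4 * L ^ t) := by gcongr
        _ = 4 * 2 ^ (u + η) * L ^ t := by ring
        _ ≤ _ := g2.trans h4
    exact le_of_mul_le_mul_left h6 h5

/-- the levels of the size `(log X) ^ δ` -/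
theorem avg_pow (t δ θ : ℝ) (hδ : 0 < δ) (hδθ : δ < θ) (hθ1 : θ < 1) (ht : 1 < t) (ε : ℝ) (hε : 0 < ε) :
    AvgE t θ (cw (t / δ)) ε (fun X w => (Real.log X) ^ δ / 2 ≤ w ∧ (w : ℝ) ≤ 2 * (Real.log X) ^ δ) := by
  obtain ⟨u, hu⟩ : ∃ u : ℝ, u = t / δ := ⟨_, rfl⟩
  have hδ1 : δ < 1 := by linarith
  have hθ : 0 < θ := by linarith
  have hut : 1 < u := by rw [hu, lt_div_iff₀ hδ]; linarith
  obtain ⟨e, he⟩ : ∃ e : ℝ, e = min 1 (ε / 9) := ⟨_, rfl⟩
  have he0 : 0 < e := by rw [he]; exact lt_min one_pos (by positivity)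
  have he1 : e ≤ 1 := by rw [he]; exact min_le_left _ _
  have heε : 9 * e ≤ ε := by
    have : e ≤ ε / 9 := by rw [he]; exact min_le_right _ _
    linarith
  obtain ⟨η, hη0, hη1, z0, Z1, hz02, hZ11, hcs⟩ := class_sum u e hut he0 he1
  refine ⟨Z1, fun Z hZ => ?_⟩
  obtain ⟨k, hk⟩ := exists_nat_gt t
  have hlt := Real.tendsto_log_atTop
  have e1 := hlt.eventually (ev_rpow δ θ 16 hδθ)
  have e4 := hlt.eventually ((tendsto_rpow_atTop hθ).eventually_ge_atTop 8)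
  have e5 := hlt.eventually ((tendsto_rpow_atTop hδ).eventually_ge_atTop (2 * z0))
  filter_upwards [e1, e4, e5, hlt.eventually (scales_w t δ u η e hδ hδ1 ht hu hη0 hη1 he0), zL_yy θ hθ hθ1,
    hlt.eventually (lens t (Real.log 4) ht k hk), eventually_ge_atTop (1 : ℝ), hlt.eventually_ge_atTop (1 : ℝ)]
    with X g1 g4 g5 g6 g7 g8 g9 g10
  intro ps S hps hS w hw
  set L := Real.log X with hL
  have hL0 : 0 < L := by linarith
  have hX0' : 0 < X := by linarith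
  have hz2 : 1 / 8 * L ^ θ ≤ zL θ L := by
    have := (Nat.lt_floor_add_one (1 / 4 * L ^ θ)).le
    unfold zL
    linarith
  have hwz : w ≤ zL θ L := by
    have : (w : ℝ) ≤ zL θ L := by linarith [hw.2]
    exact_mod_cast this
  refine ⟨hwz, fun Y H hH hY => ?_⟩
  have hl4 : Real.log (4 * X) = L + Real.log 4 := by
    rw [Real.log_mul (by norm_num) hX0'.ne']
    ring
  rw [hl4] at hY
  have hps1 : GoodP Z1 ps := by
    rcases hps with h | ⟨h, h'⟩
    · exact Or.inl h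
    · exact Or.inr ⟨h, by omega⟩
  obtain ⟨s1, s2⟩ := g6 w hw.1 hw.2
  obtain ⟨c1, c2⟩ := hcs X w Z1 ps S g9 (by linarith [hw.1]) le_rfl (hwz.trans g7.1) hps1 hS (RL t L) s1 s2 Y H hH
    (hY.trans g8.1)
  rw [← hu]
  have hRH : (0 : ℝ) ≤ RL t L * H.card := by positivity
  constructor
  · refine le_trans (mul_le_mul_of_nonneg_right (by linarith) hRH) c1
  · refine c2.trans (mul_le_mul_of_nonneg_right (by linarith) hRH)

end Pool.Agent.H560.MQ
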