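import Pool.Agent.H560.MQ.Lev5

/-!
Few and many primes among the shifts, in comparison with a local prediction.
-/

set_option autoImplicit false

open Finset Filter Topology
open Pool.Agent.H378R2 Pool.Agent.H510R2.Maier Pool.Agent.T2H52.MG
open Pool.Agent.R529.LD (ev_rpow ratio_one)

namespace Pool.Agent.H560.MQ

/-- the prediction by the primes up to `w` -/
noncomputable def pred (H : Finset ℕ) (w n : ℕ) : ℝ := (sW H w n : ℝ) / (QQ w * Real.log n)

theorem alg_fin_few (a e L ln lN P s q Hc : ℝ) (ha0 : 0 ≤ a) (ha : a ≤ 4) (he : 0 < e) (he1 : e ≤ 1 / 1000)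
    (hL : 0 < L) (hln : L ≤ ln) (hlN : ln ≤ lN) (hNL : lN ≤ (1 + e) * L) (hs : 0 ≤ s) (hq : 0 < q) (hHc : 0 ≤ Hc)
    (h1 : L * P ≤ (a + 200 * e) * (s / q)) (h2 : e / 2 * Hc ≤ s / q) :
    P ≤ (a + 1000 * e) * (s / (q * ln)) ∧ e / 2 * (Hc / lN) ≤ s / (q * ln) := by
  have hln0 : 0 < ln := by linarith
  have hlN0 : 0 < lN := by linarith
  have hsq : 0 ≤ s / q := by positivity
  have e1 : s / (q * ln) = (s / q) / ln := by rw [div_div]
  rw [e1]
  constructor
  · rw [← mul_div_assoc, le_div_iff₀ hln0]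
    rcases le_or_gt P 0 with h0 | h0
    · have : P * ln ≤ 0 := mul_nonpos_of_nonpos_of_nonneg h0 hln0.le
      have : 0 ≤ (a + 1000 * e) * (s / q) := by positivity
      linarith
    · calc P * ln ≤ P * ((1 + e) * L) := mul_le_mul_of_nonneg_left (by linarith) h0.le
        _ = (1 + e) * (L * P) := by ring
        _ ≤ (1 + e) * ((a + 200 * e) * (s / q)) := mul_le_mul_of_nonneg_left h1 (by linarith)
        _ = ((1 + e) * (a + 200 * e)) * (s / q) := by ring
        _ ≤ (a + 1000 * e) * (s / q) := by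
            apply mul_le_mul_of_nonneg_right _ hsq
            nlinarith
  · rw [← mul_div_assoc]
    calc e / 2 * Hc / lN ≤ e / 2 * Hc / ln := by
          apply div_le_div_of_nonneg_left (by positivity) hln0 hlN
      _ ≤ (s / q) / ln := div_le_div_of_nonneg_right h2 hln0.le

theorem alg_fin_many (a e L ln lN l4 P s q Hc : ℝ) (ha0 : 1 / 4 ≤ a) (ha : a ≤ 4) (he : 0 < e) (he1 : e ≤ 1 / 2000)
    (hL : 0 < L) (hln : L ≤ ln) (hlN : ln ≤ lN) (h4 : l4 ≤ (1 + e) * L) (h40 : L ≤ l4) (hs : 0 ≤ s) (hq : 0 < q)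
    (hHc : 0 ≤ Hc) (hP : 0 ≤ P)
    (h1 : (a - 200 * e) * max (s / q) (e / 16 * Hc) ≤ l4 * P) :
    (a - 1000 * e) * (s / (q * ln)) + e ^ 2 / 1000 * (Hc / lN) ≤ P := by
  have hln0 : 0 < ln := by linarith
  have hlN0 : 0 < lN := by linarith
  have hl40 : 0 < l4 := by linarith
  have hsq : 0 ≤ s / q := by positivity
  have hae : 1 / 8 ≤ a - 200 * e := by linarith
  have e1 : s / (q * ln) = (s / q) / ln := by rw [div_div]
  rw [e1]
  have hm1 : s / q ≤ max (s / q) (e / 16 * Hc) := le_max_left _ _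
  have hm2 : e / 16 * Hc ≤ max (s / q) (e / 16 * Hc) := le_max_right _ _
  have hm : (1 - e) * (s / q) + e * (e / 16 * Hc) ≤ max (s / q) (e / 16 * Hc) := by
    have := mul_le_mul_of_nonneg_left hm1 (show 0 ≤ 1 - e by linarith)
    have := mul_le_mul_of_nonneg_left hm2 he.le
    linarith
  have h2 : (a - 200 * e) * ((1 - e) * (s / q) + e * (e / 16 * Hc)) ≤ l4 * P :=
    (mul_le_mul_of_nonneg_left hm (by linarith)).trans h1
  -- divide by `l4`
  have h3 : l4 * ((a - 1000 * e) * (s / q / ln) + e ^ 2 / 1000 * (Hc / lN)) ≤ l4 * P := by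
    refine le_trans ?_ h2
    have k1 : l4 * (s / q / ln) ≤ (1 + e) * (s / q) := by
      calc l4 * (s / q / ln) = (s / q) * (l4 / ln) := by ring
        _ ≤ (s / q) * (1 + e) := by
            apply mul_le_mul_of_nonneg_left _ hsq
            rw [div_le_iff₀ hln0]
            have : (1 + e) * L ≤ (1 + e) * ln := mul_le_mul_of_nonneg_left hln (by linarith)
            linarith
        _ = _ := by ring
    have k2 : l4 * (Hc / lN) ≤ 2 * Hc := by
      calc l4 * (Hc / lN) = Hc * (l4 / lN) := by ring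
        _ ≤ Hc * 2 := by
            apply mul_le_mul_of_nonneg_left _ hHc
            rw [div_le_iff₀ hlN0]
            nlinarith
        _ = _ := by ring
    have k3 : l4 * ((a - 1000 * e) * (s / q / ln)) ≤ (a - 200 * e) * ((1 - e) * (s / q)) := by
      rcases le_or_gt (a - 1000 * e) 0 with h0 | h0
      · have hx : 0 ≤ l4 * (s / q / ln) := by positivity
        have : l4 * ((a - 1000 * e) * (s / q / ln)) = (a - 1000 * e) * (l4 * (s / q / ln)) := by ring
        rw [this]
        have h5 := mul_nonpos_of_nonpos_of_nonneg h0 hx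
        have h6 : 0 ≤ (a - 200 * e) * ((1 - e) * (s / q)) := by
          apply mul_nonneg (by linarith)
          apply mul_nonneg (by linarith) hsq
        linarith
      · calc l4 * ((a - 1000 * e) * (s / q / ln)) = (a - 1000 * e) * (l4 * (s / q / ln)) := by ring
          _ ≤ (a - 1000 * e) * ((1 + e) * (s / q)) := mul_le_mul_of_nonneg_left k1 h0.le
          _ = ((a - 1000 * e) * (1 + e)) * (s / q) := by ring
          _ ≤ ((a - 200 * e) * (1 - e)) * (s / q) := by
              apply mul_le_mul_of_nonneg_right _ hsq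
              nlinarith
          _ = _ := by ring
    have k4 : l4 * (e ^ 2 / 1000 * (Hc / lN)) ≤ (a - 200 * e) * (e * (e / 16 * Hc)) := by
      calc l4 * (e ^ 2 / 1000 * (Hc / lN)) = e ^ 2 / 1000 * (l4 * (Hc / lN)) := by ring
        _ ≤ e ^ 2 / 1000 * (2 * Hc) := mul_le_mul_of_nonneg_left k2 (by positivity)
        _ ≤ 1 / 8 * (e * (e / 16 * Hc)) := by
            have : 0 ≤ e ^ 2 * Hc := by positivity
            nlinarith
        _ ≤ _ := by
            apply mul_le_mul_of_nonneg_right hae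
            positivity
    calc l4 * ((a - 1000 * e) * (s / q / ln) + e ^ 2 / 1000 * (Hc / lN)) =
          l4 * ((a - 1000 * e) * (s / q / ln)) + l4 * (e ^ 2 / 1000 * (Hc / lN)) := by ring
      _ ≤ (a - 200 * e) * ((1 - e) * (s / q)) + (a - 200 * e) * (e * (e / 16 * Hc)) := add_le_add k3 k4
      _ = _ := by ring
  exact le_of_mul_le_mul_left h3 hl40

/-- the main theorem for the levels in the range `Q` -/
theorem lev_final (t θ A e : ℝ) (hθ : 0 < θ) (hθ1 : θ < 1) (ht : 1 < t) (hA : 1 / 2 ≤ A) (hA2 : A ≤ 2) (he : 0 < e)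
    (he1 : e ≤ 1 / 2000) (Q : ℝ → ℕ → Prop) (hQ : AvgE t θ A e Q) : ∀ᶠ N : ℕ in atTop,
      ∀ w : ℕ, Q ((N : ℝ) / 3) w → ∀ H : Finset ℕ, H ⊆ Icc 1 ⌊(Real.log N) ^ t⌋₊ →
        (Real.log (Real.log N)) ^ 2 ≤ H.card →
        (N : ℝ) * Real.exp (-((Real.log N) ^ θ)) ≤
          (((Icc 1 N).filter (fun n : ℕ => (N : ℝ) / 3 < n ∧
            (cP H n : ℝ) ≤ (cw (t / θ) / A + 1000 * e) * pred H w n ∧
            e / 2 * (H.card / Real.log N) ≤ pred H w n)).card : ℝ) ∧
        (N : ℝ) * Real.exp (-((Real.log N) ^ θ)) ≤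
          (((Icc 1 N).filter (fun n : ℕ => (N : ℝ) / 3 < n ∧
            (cw (t / θ) / A - 1000 * e) * pred H w n + e ^ 2 / 1000 * (H.card / Real.log N) ≤ cP H n)).card : ℝ) := by
  classical
  obtain ⟨Z1, hZ1⟩ := few_lev t θ e hθ hθ1 ht he (by linarith)
  obtain ⟨Z2, hZ2⟩ := many_lev t θ e hθ hθ1 ht he (by linarith)
  obtain ⟨Z3, hZ3⟩ := hQ
  set Z := max (max Z1 Z2) Z3 with hZ
  have hlt := Real.tendsto_log_atTop
  have h1 : Tendsto (fun N : ℕ => (N : ℝ) / 3) atTop atTop :=
    tendsto_natCast_atTop_atTop.atTop_div_const (by norm_num)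
  have hut : 1 ≤ t / θ := by rw [le_div_iff₀ hθ]; linarith
  obtain ⟨hc1, hc2⟩ := cw_bounds (t / θ) hut
  have hA0 : 0 < A := by linarith
  have ha1 : 1 / 4 ≤ cw (t / θ) / A := by rw [le_div_iff₀ hA0]; linarith
  have ha2 : cw (t / θ) / A ≤ 4 := by rw [div_le_iff₀ hA0]; linarith
  have h2 : Tendsto (fun N : ℕ => Real.exp (1 / 2 * (Real.log N) ^ θ)) atTop atTop :=
    Real.tendsto_exp_atTop.comp (((tendsto_rpow_atTop hθ).comp
      (hlt.comp tendsto_natCast_atTop_atTop)).const_mul_atTop (by norm_num))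
  filter_upwards [h1.eventually (hZ1 Z ((le_max_left _ _).trans (le_max_left _ _))),
    h1.eventually (hZ2 Z ((le_max_right _ _).trans (le_max_left _ _))),
    h1.eventually (hZ3 Z (le_max_right _ _)), h2.eventually_ge_atTop 3,
    h1.eventually (hlt.eventually_ge_atTop (max 3 (2 / e))), h1.eventually_ge_atTop 1] with N g1 g2 g3 g4 g5 g6
  intro w hw H hH hHc
  obtain ⟨ps, S, hps, hS, hf⟩ := g1
  obtain ⟨ps', S', hps', hS', hm⟩ := g2
  set X := (N : ℝ) / 3 with hX
  have hX0 : 0 < X := by linarith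
  have hN3 : (N : ℝ) = 3 * X := by rw [hX]; ring
  have hL3 : 3 ≤ Real.log X := (le_max_left _ _).trans g5
  have hLe : 2 / e ≤ Real.log X := (le_max_right _ _).trans g5
  rw [div_le_iff₀ he] at hLe
  have hl34 : Real.log 4 ≤ 2 := by
    rw [show (4 : ℝ) = 2 ^ 2 by norm_num, Real.log_pow]
    have := Real.log_two_lt_d9
    push_cast; linarith
  have hl43 : Real.log 3 ≤ Real.log 4 := Real.log_le_log (by norm_num) (by norm_num)
  have hlN : Real.log N = Real.log X + Real.log 3 := by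
    rw [hN3, Real.log_mul (by norm_num) hX0.ne']; ring
  have hl4 : Real.log (4 * X) = Real.log X + Real.log 4 := by
    rw [Real.log_mul (by norm_num) hX0.ne']; ring
  have hl30 : 0 ≤ Real.log 3 := Real.log_nonneg (by norm_num)
  have hY : ((⌊(Real.log N) ^ t⌋₊ : ℕ) : ℝ) ≤ (Real.log (4 * X)) ^ t := by
    refine (Nat.floor_le (Real.rpow_nonneg (by rw [hlN]; linarith) _)).trans ?_
    apply Real.rpow_le_rpow (by rw [hlN]; linarith) (by rw [hlN, hl4]; linarith) (by linarith)
  have hHc' : (Real.log (Real.log X)) ^ 2 ≤ H.card := by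
    refine le_trans ?_ hHc
    apply pow_le_pow_left₀ (Real.log_nonneg (by linarith))
    apply Real.log_le_log (by linarith)
    rw [hlN]; linarith
  obtain ⟨a1, a2⟩ := g3 ps S hps hS w hw
  obtain ⟨b1, b2⟩ := g3 ps' S' hps' hS' w hw
  have f1 := hf A w _ H hA hA2 a1 hH hY hHc' (a2 _ H hH hY).1
  have f2 := hm A w _ H hA hA2 b1 hH hY hHc' (b2 _ H hH hY).2
  have hfreq : (N : ℝ) * Real.exp (-((Real.log N) ^ θ)) ≤ X * Real.exp (-(1 / 2 * (Real.log X) ^ θ)) := by
    have h3 : (Real.log X) ^ θ ≤ (Real.log N) ^ θ :=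
      Real.rpow_le_rpow (by linarith) (by rw [hlN]; linarith) hθ.le
    have hsplit : Real.exp (-((Real.log N) ^ θ)) * Real.exp (1 / 2 * (Real.log N) ^ θ) =
        Real.exp (-(1 / 2 * (Real.log N) ^ θ)) := by
      rw [← Real.exp_add]
      congr 1
      ring
    calc (N : ℝ) * Real.exp (-((Real.log N) ^ θ)) = X * (Real.exp (-((Real.log N) ^ θ)) * 3) := by rw [hN3]; ring
      _ ≤ X * (Real.exp (-((Real.log N) ^ θ)) * Real.exp (1 / 2 * (Real.log N) ^ θ)) := by gcongr
      _ = X * Real.exp (-(1 / 2 * (Real.log N) ^ θ)) := by rw [hsplit]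
      _ ≤ X * Real.exp (-(1 / 2 * (Real.log X) ^ θ)) := by
          apply mul_le_mul_of_nonneg_left _ hX0.le
          apply Real.exp_le_exp.2
          linarith
  have hmemN : ∀ n : ℕ, n ≤ ⌊3 * X⌋₊ → n ≤ N := by
    intro n hn
    rw [← hN3, Nat.floor_natCast] at hn
    exact hn
  constructor
  · refine hfreq.trans (f1.trans ?_)
    have hsub : rowset X (fun n => Real.log X * cP H n ≤ (cw (t / θ) / A + 200 * e) * (sW H w n / QQ w) ∧
        e / 2 * H.card ≤ sW H w n / QQ w) ⊆ (Icc 1 N).filter (fun n : ℕ => X < n ∧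
            (cP H n : ℝ) ≤ (cw (t / θ) / A + 1000 * e) * pred H w n ∧
            e / 2 * (H.card / Real.log N) ≤ pred H w n) := by
      intro n hn
      obtain ⟨m1, m2, m3, m4, m5⟩ := mem_rowset.1 hn
      have hn0 : (0 : ℝ) < n := by linarith
      have hln : Real.log X ≤ Real.log n := Real.log_le_log hX0 m2.le
      have hlnN : Real.log n ≤ Real.log N := Real.log_le_log hn0 (by linarith)
      have h3 := alg_fin_few (cw (t / θ) / A) e (Real.log X) (Real.log n) (Real.log N) (cP H n) (sW H w n) (QQ w) H.card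
        (by linarith) ha2 he (by linarith) (by linarith) hln hlnN (by rw [hlN]; nlinarith) (Nat.cast_nonneg _)
        (QQ_pos w) (Nat.cast_nonneg _) m4 m5
      exact mem_filter.2 ⟨mem_Icc.2 ⟨m1.1, hmemN n m1.2⟩, m2, h3.1, h3.2⟩
    exact_mod_cast Finset.card_le_card hsub
  · refine hfreq.trans (f2.trans ?_)
    have hsub : rowset X (fun n => (cw (t / θ) / A - 200 * e) * max (sW H w n / QQ w) (e / 16 * H.card) ≤
        Real.log (4 * X) * cP H n) ⊆ (Icc 1 N).filter (fun n : ℕ => X < n ∧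
            (cw (t / θ) / A - 1000 * e) * pred H w n + e ^ 2 / 1000 * (H.card / Real.log N) ≤ cP H n) := by
      intro n hn
      obtain ⟨m1, m2, m3, m4⟩ := mem_rowset.1 hn
      have hn0 : (0 : ℝ) < n := by linarith
      have hln : Real.log X ≤ Real.log n := Real.log_le_log hX0 m2.le
      have hlnN : Real.log n ≤ Real.log N := Real.log_le_log hn0 (by linarith)
      have h3 := alg_fin_many (cw (t / θ) / A) e (Real.log X) (Real.log n) (Real.log N) (Real.log (4 * X)) (cP H n)
        (sW H w n) (QQ w) H.card ha1 ha2 he he1 (by linarith) hln hlnN (by rw [hl4]; nlinarith)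
        (by rw [hl4]; linarith) (Nat.cast_nonneg _) (QQ_pos w) (Nat.cast_nonneg _) (Nat.cast_nonneg _) m4
      exact mem_filter.2 ⟨mem_Icc.2 ⟨m1.1, hmemN n m1.2⟩, m2, h3⟩
    exact_mod_cast Finset.card_le_card hsub

end Pool.Agent.H560.MQ
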