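import Pool.Agent.H560.MQ.Lev6
import Pool.Graph.R_pool_sql_team_seeded_b0a926ef.R529.BU.Sign

/-!
The levels near a power of `log X`, uniformly, and Buchstab's function is not constant on an interval.
-/

set_option autoImplicit false

open Finset Filter Topology
open Pool.Agent.H378R2 Pool.Agent.H510R2.Maier Pool.Agent.T2H52.MG
open Pool.Agent.R529.LD (ev_rpow ratio_one)

namespace Pool.Agent.H560.MQ

open Pool.Agent.R529.BU in
/-- Buchstab's function is not constant on an interval -/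
theorem not_const_on (c : ℝ) (k : ℕ) : ∀ a b : ℝ, a ≤ k + 1 → 1 ≤ a → a < b → (∀ u, a < u → u < b → om u = c) → False := by
  have base : ∀ a b : ℝ, 1 ≤ a → a < 2 → a < b → (∀ u, a < u → u < b → om u = c) → False := by
    intro a b ha ha2 hab h
    obtain ⟨m, hm⟩ : ∃ m : ℝ, m = min b 2 := ⟨_, rfl⟩
    have hm1 : a < m := by rw [hm]; exact lt_min hab ha2
    have hmb : m ≤ b := by rw [hm]; exact min_le_left _ _
    have hm2 : m ≤ 2 := by rw [hm]; exact min_le_right _ _
    have h1 := om_one_two (a + (m - a) / 3) (by linarith) (by linarith)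
    have h2 := om_one_two (a + 2 * (m - a) / 3) (by linarith) (by linarith)
    rw [h _ (by linarith) (by linarith)] at h1
    rw [h _ (by linarith) (by linarith)] at h2
    have h3 : (m - a) / 3 * c = 0 := by linarith
    rcases mul_eq_zero.1 h3 with h4 | h4
    · linarith
    · rw [h4] at h1
      linarith
  induction k with
  | zero =>
    intro a b h1 h2 h3 h4
    exact base a b h2 (by push_cast at h1; linarith) h3 h4
  | succ k ih =>
    intro a b h1 h2 h3 h4
    push_cast at h1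
    rcases lt_or_ge a 2 with h | h
    · exact base a b h2 h h3 h4
    · refine ih (a - 1) (b - 1) (by linarith) (by linarith) (by linarith) ?_
      have hcont : Continuous (fun s => om s - c) := om_cont.sub continuous_const
      set v := (a + b) / 2 with hv
      set F : ℝ → ℝ := fun x => ∫ s in (v - 1)..x, (om s - c) with hF
      have hF0 : ∀ x, a - 1 < x → x < b - 1 → F x = 0 := by
        intro x hx1 hx2
        have g1 := D_sub c (x + 1) v (by linarith) (by linarith)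
        rw [h4 (x + 1) (by linarith) (by linarith), h4 v (by linarith) (by linarith), sub_self, mul_zero, mul_zero,
          sub_zero] at g1
        simp only [hF]
        rw [g1]
        congr 1
        ring
      intro u hu1 hu2
      have hd : HasDerivAt F (om u - c) u :=
        intervalIntegral.integral_hasDerivAt_right (hcont.intervalIntegrable _ _)
          (hcont.stronglyMeasurableAtFilter _ _) hcont.continuousAt
      have he : F =ᶠ[𝓝 u] fun _ => (0 : ℝ) := by
        filter_upwards [Ioo_mem_nhds hu1 hu2] with x hx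
        exact hF0 x hx.1 hx.2
      have hd2 : HasDerivAt F 0 u := (hasDerivAt_const u (0 : ℝ)).congr_of_eventuallyEq he
      have := hd.unique hd2
      linarith

/-- there is a value different from a given one in each interval -/
theorem ex_ne (c a b : ℝ) (ha : 1 ≤ a) (hab : a < b) : ∃ u, a < u ∧ u < b ∧ Pool.Agent.R529.BU.om u ≠ c := by
  by_contra h
  push Not at h
  obtain ⟨k, hk⟩ := exists_nat_ge a
  exact not_const_on c k a b (by linarith) ha hab h

/-- the scales for a level near the size `(log X) ^ δ` -/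
theorem scales_w' (t δ u η e ρ : ℝ) (hδ : 0 < δ) (hδ1 : δ < 1) (ht : 1 < t) (hu : u = t / δ) (hη : 0 < η) (hη1 : η < u - 1)
    (hρ0 : 0 < ρ) (hρδ : ρ < δ) (hρ : 2 * (ρ * (u + η)) ≤ δ * η)
    (he : 0 < e) : ∀ᶠ L : ℝ in atTop, ∀ w : ℕ, L ^ (δ - ρ) / 2 ≤ w → (w : ℝ) ≤ 2 * L ^ (δ + ρ) →
      (w : ℝ) ^ (u - η) + 1 ≤ e * RL t L ∧ 4 * (RL t L : ℝ) ≤ (w : ℝ) ^ (u + η) := by
  have huδ : δ * u = t := by rw [hu]; field_simp
  have hut : 1 < u := by rw [hu, lt_div_iff₀ hδ]; linarith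
  have hδη : 0 < δ * η := by positivity
  have k1 : (δ + ρ) * (u - η) < t := by nlinarith
  have k2 : t < (δ - ρ) * (u + η) := by nlinarith
  have e1 := ev_rpow ((δ + ρ) * (u - η)) t (2 ^ (u - η) * (4 / e)) k1
  have e2 := ev_rpow t ((δ - ρ) * (u + η)) (4 * 2 ^ (u + η)) k2
  have e5 := (tendsto_rpow_atTop (show 0 < t by linarith)).eventually_ge_atTop (max 2 (4 / e))
  filter_upwards [e1, e2, e5, eventually_ge_atTop (1 : ℝ)] with L g1 g2 g5 g7
  intro w hw1 hw2
  have hL0 : 0 < L := lt_of_lt_of_le one_pos g7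
  have h2 : (2 : ℝ) ≤ L ^ t := (le_max_left _ _).trans g5
  have h3 : 4 / e ≤ L ^ t := (le_max_right _ _).trans g5
  have hLt : 0 < L ^ t := by positivity
  have hLδ : 0 < L ^ (δ + ρ) := by positivity
  have hLδ' : 0 < L ^ (δ - ρ) := by positivity
  have hR1 : L ^ t / 2 ≤ RL t L := by
    have := (Nat.lt_floor_add_one (L ^ t)).le
    unfold RL
    linarith
  have hR2 : (RL t L : ℝ) ≤ L ^ t := Nat.floor_le hLt.le
  have hw0 : 0 ≤ (w : ℝ) := Nat.cast_nonneg _
  rw [div_le_iff₀ he] at h3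
  have heR : e * (L ^ t / 2) ≤ e * RL t L := by gcongr
  constructor
  · have h4 : (w : ℝ) ^ (u - η) ≤ 2 ^ (u - η) * L ^ ((δ + ρ) * (u - η)) := by
      calc (w : ℝ) ^ (u - η) ≤ (2 * L ^ (δ + ρ)) ^ (u - η) := Real.rpow_le_rpow hw0 hw2 (by linarith)
        _ = 2 ^ (u - η) * (L ^ (δ + ρ)) ^ (u - η) := Real.mul_rpow (by norm_num) hLδ.le
        _ = 2 ^ (u - η) * L ^ ((δ + ρ) * (u - η)) := by
            rw [← Real.rpow_mul hL0.le]
    have h5 : 4 * (2 ^ (u - η) * L ^ ((δ + ρ) * (u - η))) ≤ e * L ^ t := by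
      have h6 : 2 ^ (u - η) * (4 / e) * L ^ ((δ + ρ) * (u - η)) = 4 * (2 ^ (u - η) * L ^ ((δ + ρ) * (u - η))) / e := by ring
      rw [h6, div_le_iff₀ he] at g1
      linarith
    linarith
  · have h4 : L ^ ((δ - ρ) * (u + η)) ≤ 2 ^ (u + η) * (w : ℝ) ^ (u + η) := by
      rw [← Real.mul_rpow (by norm_num) hw0]
      calc L ^ ((δ - ρ) * (u + η)) = (L ^ (δ - ρ)) ^ (u + η) := by
            rw [← Real.rpow_mul hL0.le]
        _ ≤ _ := by
            apply Real.rpow_le_rpow hLδ'.le (by linarith) (by linarith)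
    have h5 : (0 : ℝ) < 2 ^ (u + η) := by positivity
    have h6 : 2 ^ (u + η) * (4 * (RL t L : ℝ)) ≤ 2 ^ (u + η) * (w : ℝ) ^ (u + η) := by
      calc 2 ^ (u + η) * (4 * (RL t L : ℝ)) ≤ 2 ^ (u + η) * (4 * L ^ t) := by gcongr
        _ = 4 * 2 ^ (u + η) * L ^ t := by ring
        _ ≤ _ := g2.trans h4
    exact le_of_mul_le_mul_left h6 h5

/-- the levels near the size `(log X) ^ δ` -/
theorem avg_pow' (t δ θ : ℝ) (hδ : 0 < δ) (hδθ : δ < θ) (hθ1 : θ < 1) (ht : 1 < t) (ε : ℝ) (hε : 0 < ε) :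
    ∃ ρ : ℝ, 0 < ρ ∧ ρ < δ ∧ δ + ρ < θ ∧
    AvgE t θ (cw (t / δ)) ε (fun X w => (Real.log X) ^ (δ - ρ) / 2 ≤ w ∧ (w : ℝ) ≤ 2 * (Real.log X) ^ (δ + ρ)) := by
  obtain ⟨u, hu⟩ : ∃ u : ℝ, u = t / δ := ⟨_, rfl⟩
  have hδ1 : δ < 1 := by linarith
  have hθ : 0 < θ := by linarith
  have hut : 1 < u := by rw [hu, lt_div_iff₀ hδ]; linarith
  obtain ⟨e, he⟩ : ∃ e : ℝ, e = min 1 (ε / 9) := ⟨_, rfl⟩
  have he0 : 0 < e := by rw [he]; exact lt_min one_pos (by positivity)
  have he1 : e ≤ 1 := by rw [he]; exact min_le_left _ _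
  have heε : 9 * e ≤ ε := by
    have : e ≤ ε / 9 := by rw [he]; exact min_le_right _ _
    linarith
  obtain ⟨η, hη0, hη1, z0, Z1, hz02, hZ11, hcs⟩ := class_sum u e hut he0 he1
  have huη : 0 < u + η := by linarith
  obtain ⟨ρ, hρ⟩ : ∃ ρ : ℝ, ρ = min (min (δ / 2) ((θ - δ) / 2)) (δ * η / (2 * (u + η))) := ⟨_, rfl⟩
  have hρ0 : 0 < ρ := by
    rw [hρ]
    exact lt_min (lt_min (by linarith) (by linarith)) (by positivity)
  have hρ1 : ρ ≤ δ / 2 := by rw [hρ]; exact (min_le_left _ _).trans (min_le_left _ _)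
  have hρ2 : ρ ≤ (θ - δ) / 2 := by rw [hρ]; exact (min_le_left _ _).trans (min_le_right _ _)
  have hρ3 : 2 * (ρ * (u + η)) ≤ δ * η := by
    have h1 : ρ ≤ δ * η / (2 * (u + η)) := by rw [hρ]; exact min_le_right _ _
    rw [le_div_iff₀ (by positivity)] at h1
    linarith
  refine ⟨ρ, hρ0, by linarith, by linarith, Z1, fun Z hZ => ?_⟩
  obtain ⟨k, hk⟩ := exists_nat_gt t
  have hlt := Real.tendsto_log_atTop
  have e1 := hlt.eventually (ev_rpow (δ + ρ) θ 16 (by linarith))
  have e4 := hlt.eventually ((tendsto_rpow_atTop hθ).eventually_ge_atTop 8)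
  have e5 := hlt.eventually ((tendsto_rpow_atTop (show 0 < δ - ρ by linarith)).eventually_ge_atTop (2 * z0))
  filter_upwards [e1, e4, e5, hlt.eventually (scales_w' t δ u η e ρ hδ hδ1 ht hu hη0 hη1 hρ0 (by linarith) hρ3 he0),
    zL_yy θ hθ hθ1,
    hlt.eventually (lens t (Real.log 4) ht k hk), eventually_ge_atTop (1 : ℝ), hlt.eventually_ge_atTop (1 : ℝ)]
    with X g1 g4 g5 g6 g7 g8 g9 g10
  intro ps S hps hS w hw
  set L := Real.log X with hL
  have hL0 : 0 < L := by linarith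
  have hX0' : 0 < X := by linarith
  have hz2 : 1 / 8 * L ^ θ ≤ zL θ L := by
    have := (Nat.lt_floor_add_one (1 / 4 * L ^ θ)).le
    unfold zL
    linarith
  have hwz : w ≤ zL θ L := by
    have : (w : ℝ) ≤ zL θ L := by linarith [hw.2]
    exact_mod_cast this
  refine ⟨hwz, fun Y H hH hY => ?_⟩
  have hl4 : Real.log (4 * X) = L + Real.log 4 := by
    rw [Real.log_mul (by norm_num) hX0'.ne']
    ring
  rw [hl4] at hY
  have hps1 : GoodP Z1 ps := by
    rcases hps with h | ⟨h, h'⟩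
    · exact Or.inl h
    · exact Or.inr ⟨h, by omega⟩
  obtain ⟨s1, s2⟩ := g6 w hw.1 hw.2
  obtain ⟨c1, c2⟩ := hcs X w Z1 ps S g9 (by linarith [hw.1]) le_rfl (hwz.trans g7.1) hps1 hS (RL t L) s1 s2 Y H hH
    (hY.trans g8.1)
  rw [← hu]
  have hRH : (0 : ℝ) ≤ RL t L * H.card := by positivity
  constructor
  · refine le_trans (mul_le_mul_of_nonneg_right (by linarith) hRH) c1
  · refine c2.trans (mul_le_mul_of_nonneg_right (by linarith) hRH)

end Pool.Agent.H560.MQ
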