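import Pool.Agent.H560.MQ.Lev7

/-!
Few and many primes among arbitrary sets of shifts, in comparison with all local models: the final theorems.
-/

set_option autoImplicit false

open Finset Filter Topology
open Pool.Agent.H378R2 Pool.Agent.H510R2.Maier Pool.Agent.T2H52.MG
open Pool.Agent.R529.LD (ev_rpow ratio_one)
open Pool.Agent.R529.BU (om om_lt om_gt)

namespace Pool.Agent.H560.MQ

/-- the sets of shifts -/
def Win (t : ℝ) (N : ℕ) (H : Finset ℕ) : Prop :=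
  H ⊆ Icc 1 ⌊(Real.log N) ^ t⌋₊ ∧ (Real.log (Real.log N)) ^ 2 ≤ H.card

open Classical in
/-- few primes -/
noncomputable def fewC (a c : ℝ) (H : Finset ℕ) (w N : ℕ) : ℕ :=
  ((Icc 1 N).filter (fun n : ℕ => (N : ℝ) / 3 < n ∧ (cP H n : ℝ) ≤ a * pred H w n ∧
    c * (H.card / Real.log N) ≤ pred H w n)).card

open Classical in
/-- many primes -/
noncomputable def manyC (a c : ℝ) (H : Finset ℕ) (w N : ℕ) : ℕ :=
  ((Icc 1 N).filter (fun n : ℕ => (N : ℝ) / 3 < n ∧ a * pred H w n + c * (H.card / Real.log N) ≤ cP H n)).card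

open Classical in
/-- bad predictions -/
noncomputable def badC (c : ℝ) (H : Finset ℕ) (w N : ℕ) : ℕ :=
  ((Icc 1 N).filter (fun n : ℕ => (N : ℝ) / 3 < n ∧ c * (H.card / Real.log N) ≤ |(cP H n : ℝ) - pred H w n|)).card

theorem pred_nonneg (H : Finset ℕ) (w n : ℕ) (hn : 1 ≤ n) : 0 ≤ pred H w n := by
  have h1 : (1 : ℝ) ≤ n := by exact_mod_cast hn
  have h2 := Real.log_nonneg h1
  have h3 := QQ_pos w
  unfold pred
  positivity

theorem fewC_mono (a b c d : ℝ) (H : Finset ℕ) (w N : ℕ) (hN : 1 ≤ N) (hab : a ≤ b) (hcd : d ≤ c) :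
    fewC a c H w N ≤ fewC b d H w N := by
  classical
  unfold fewC
  apply Finset.card_le_card
  intro n hn
  rw [mem_filter] at hn ⊢
  obtain ⟨h1, h2, h3, h4⟩ := hn
  have hN1 : (1 : ℝ) ≤ N := by exact_mod_cast hN
  have hl := Real.log_nonneg hN1
  have hn1 := (mem_Icc.1 h1).1
  refine ⟨h1, h2, h3.trans (mul_le_mul_of_nonneg_right hab (pred_nonneg H w n hn1)), le_trans ?_ h4⟩
  exact mul_le_mul_of_nonneg_right hcd (by positivity)

theorem manyC_mono (a b c d : ℝ) (H : Finset ℕ) (w N : ℕ) (hN : 1 ≤ N) (hab : b ≤ a) (hcd : d ≤ c) :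
    manyC a c H w N ≤ manyC b d H w N := by
  classical
  unfold manyC
  apply Finset.card_le_card
  intro n hn
  rw [mem_filter] at hn ⊢
  obtain ⟨h1, h2, h3⟩ := hn
  have hN1 : (1 : ℝ) ≤ N := by exact_mod_cast hN
  have hl := Real.log_nonneg hN1
  have hn1 := (mem_Icc.1 h1).1
  refine ⟨h1, h2, le_trans (add_le_add (mul_le_mul_of_nonneg_right hab (pred_nonneg H w n hn1)) ?_) h3⟩
  exact mul_le_mul_of_nonneg_right hcd (by positivity)

theorem fewC_bad (a c c' : ℝ) (H : Finset ℕ) (w N : ℕ) (hN : 1 ≤ N) (ha : a < 1) (hc : 0 < c) (hc' : c' ≤ (1 - a) * c) :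
    fewC a c H w N ≤ badC c' H w N := by
  classical
  unfold fewC badC
  apply Finset.card_le_card
  intro n hn
  rw [mem_filter] at hn ⊢
  obtain ⟨h1, h2, h3, h4⟩ := hn
  refine ⟨h1, h2, ?_⟩
  have hN1 : (1 : ℝ) ≤ N := by exact_mod_cast hN
  have hl := Real.log_nonneg hN1
  have h5 : (0 : ℝ) ≤ (H.card : ℝ) / Real.log N := by positivity
  rw [abs_sub_comm]
  refine le_trans ?_ (le_abs_self _)
  have h6 := mul_le_mul_of_nonneg_left h4 (show 0 ≤ 1 - a by linarith)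
  have h7 := mul_le_mul_of_nonneg_right hc' h5
  nlinarith

theorem manyC_bad (a c c' : ℝ) (H : Finset ℕ) (w N : ℕ) (hN : 1 ≤ N) (ha : 1 ≤ a) (hc' : c' ≤ c) :
    manyC a c H w N ≤ badC c' H w N := by
  classical
  unfold manyC badC
  apply Finset.card_le_card
  intro n hn
  rw [mem_filter] at hn ⊢
  obtain ⟨h1, h2, h3⟩ := hn
  refine ⟨h1, h2, ?_⟩
  have hN1 : (1 : ℝ) ≤ N := by exact_mod_cast hN
  have hl := Real.log_nonneg hN1
  have h5 : (0 : ℝ) ≤ (H.card : ℝ) / Real.log N := by positivity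
  refine le_trans ?_ (le_abs_self _)
  have hn1 := (mem_Icc.1 h1).1
  have h6 := mul_le_mul_of_nonneg_right ha (pred_nonneg H w n hn1)
  have h7 := mul_le_mul_of_nonneg_right hc' h5
  linarith

theorem badC_mono (c d : ℝ) (H : Finset ℕ) (w N : ℕ) (hN : 1 ≤ N) (hcd : d ≤ c) : badC c H w N ≤ badC d H w N := by
  classical
  unfold badC
  apply Finset.card_le_card
  intro n hn
  rw [mem_filter] at hn ⊢
  obtain ⟨h1, h2, h3⟩ := hn
  have hN1 : (1 : ℝ) ≤ N := by exact_mod_cast hN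
  have hl := Real.log_nonneg hN1
  exact ⟨h1, h2, le_trans (mul_le_mul_of_nonneg_right hcd (by positivity)) h3⟩

theorem freq_mono (κ θ : ℝ) (N : ℕ) (h : κ ≤ θ) (hN : 1 ≤ Real.log N) :
    (N : ℝ) * Real.exp (-((Real.log N) ^ θ)) ≤ (N : ℝ) * Real.exp (-((Real.log N) ^ κ)) := by
  apply mul_le_mul_of_nonneg_left _ (Nat.cast_nonneg _)
  apply Real.exp_le_exp.2
  have := Real.rpow_le_rpow_of_exponent_le hN h
  linarith

theorem logN_ev : Tendsto (fun N : ℕ => Real.log N) atTop atTop :=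
  Real.tendsto_log_atTop.comp tendsto_natCast_atTop_atTop

/-- the comparison of the scales -/
theorem scaleN (α : ℝ) (hα0 : 0 ≤ α) (hα : α ≤ 1) : ∀ᶠ N : ℕ in atTop,
    (Real.log ((N : ℝ) / 3)) ^ α ≤ (Real.log N) ^ α ∧ (Real.log N) ^ α ≤ 2 * (Real.log ((N : ℝ) / 3)) ^ α := by
  filter_upwards [logN_ev.eventually_ge_atTop 4, eventually_ge_atTop 1] with N h1 h2
  have hN0 : (0 : ℝ) < N := by exact_mod_cast h2
  have hl3 : Real.log ((N : ℝ) / 3) = Real.log N - Real.log 3 := Real.log_div hN0.ne' (by norm_num)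
  have h30 : 0 ≤ Real.log 3 := Real.log_nonneg (by norm_num)
  have h32 : Real.log 3 ≤ 2 := by
    rw [Real.log_le_iff_le_exp (by norm_num)]
    have := Real.add_one_le_exp (2 : ℝ)
    linarith
  have hX0 : 0 ≤ Real.log ((N : ℝ) / 3) := by rw [hl3]; linarith
  constructor
  · apply Real.rpow_le_rpow hX0 _ hα0
    rw [hl3]; linarith
  · calc (Real.log N) ^ α ≤ (2 * Real.log ((N : ℝ) / 3)) ^ α := by
          apply Real.rpow_le_rpow (by linarith) _ hα0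
          rw [hl3]; linarith
      _ = 2 ^ α * (Real.log ((N : ℝ) / 3)) ^ α := Real.mul_rpow (by norm_num) hX0
      _ ≤ 2 * (Real.log ((N : ℝ) / 3)) ^ α := by
          apply mul_le_mul_of_nonneg_right _ (Real.rpow_nonneg hX0 _)
          calc (2 : ℝ) ^ α ≤ 2 ^ (1 : ℝ) := Real.rpow_le_rpow_of_exponent_le (by norm_num) hα
            _ = 2 := Real.rpow_one _

/-- the levels near `(log N) ^ δ` -/
theorem levA (t δ θ ε : ℝ) (ht : 1 < t) (hδ : 0 < δ) (hδθ : δ < θ) (hθ1 : θ < 1) (hε : 0 < ε) :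
    ∃ ρ : ℝ, 0 < ρ ∧ ρ < δ ∧ ∃ c : ℝ, 0 < c ∧ ∀ᶠ N : ℕ in atTop, ∀ w : ℕ, (Real.log N) ^ (δ - ρ) ≤ w →
      (w : ℝ) ≤ (Real.log N) ^ (δ + ρ) → ∀ H : Finset ℕ, Win t N H →
      (N : ℝ) * Real.exp (-((Real.log N) ^ θ)) ≤ fewC (cw (t / θ) / cw (t / δ) + ε) c H w N ∧
      (N : ℝ) * Real.exp (-((Real.log N) ^ θ)) ≤ manyC (cw (t / θ) / cw (t / δ) - ε) c H w N := by
  have hθ : 0 < θ := by linarith
  obtain ⟨e, he⟩ : ∃ e : ℝ, e = min (1 / 2000) (ε / 1000) := ⟨_, rfl⟩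
  have he0 : 0 < e := by rw [he]; exact lt_min (by norm_num) (by positivity)
  have he1 : e ≤ 1 / 2000 := by rw [he]; exact min_le_left _ _
  have he2 : 1000 * e ≤ ε := by
    have : e ≤ ε / 1000 := by rw [he]; exact min_le_right _ _
    linarith
  obtain ⟨ρ, h1, h2, h3, h4⟩ := avg_pow' t δ θ hδ hδθ hθ1 ht e he0
  have hu : 1 ≤ t / δ := by rw [le_div_iff₀ hδ]; linarith
  obtain ⟨b1, b2⟩ := cw_bounds (t / δ) hu
  refine ⟨ρ, h1, h2, e ^ 2 / 1000, by positivity, ?_⟩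
  filter_upwards [lev_final t θ (cw (t / δ)) e hθ hθ1 ht b1 b2 he0 he1 _ h4, scaleN (δ - ρ) (by linarith) (by linarith),
    scaleN (δ + ρ) (by linarith) (by linarith), eventually_ge_atTop 1] with N g1 g2 g3 g4
  intro w hw1 hw2 H hH
  have hX0 : 0 ≤ (Real.log ((N : ℝ) / 3)) ^ (δ - ρ) := by
    have := g2.2
    have h5 := Real.rpow_nonneg (Real.log_nonneg (show (1 : ℝ) ≤ N by exact_mod_cast g4)) (δ - ρ)
    linarith
  obtain ⟨f1, f2⟩ := g1 w ⟨by linarith [g2.1], by linarith [g3.2]⟩ H hH.1 hH.2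
  have hc1 : e ^ 2 / 1000 ≤ e / 2 := by nlinarith
  constructor
  · refine f1.trans ?_
    have h6 : fewC (cw (t / θ) / cw (t / δ) + 1000 * e) (e / 2) H w N ≤
      fewC (cw (t / θ) / cw (t / δ) + ε) (e ^ 2 / 1000) H w N := fewC_mono _ _ _ _ H w N g4 (by linarith) hc1
    refine le_trans (le_of_eq ?_) (Nat.cast_le.2 h6)
    unfold fewC
    congr! 4
  · refine f2.trans ?_
    have h6 : manyC (cw (t / θ) / cw (t / δ) - 1000 * e) (e ^ 2 / 1000) H w N ≤
      manyC (cw (t / θ) / cw (t / δ) - ε) (e ^ 2 / 1000) H w N := manyC_mono _ _ _ _ H w N g4 (by linarith) le_rfl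
    refine le_trans (le_of_eq ?_) (Nat.cast_le.2 h6)
    unfold manyC
    congr! 4

/-- the small levels, for a given exponent -/
theorem levS (t θ ε : ℝ) (ht : 1 < t) (hθ : 0 < θ) (hθ1 : θ < 1) (hε : 0 < ε) :
    ∃ δ : ℝ, 0 < δ ∧ ∃ c : ℝ, 0 < c ∧ ∀ᶠ N : ℕ in atTop, ∀ w : ℕ, (w : ℝ) ≤ (Real.log N) ^ δ →
      ∀ H : Finset ℕ, Win t N H →
      (N : ℝ) * Real.exp (-((Real.log N) ^ θ)) ≤ fewC (cw (t / θ) + ε) c H w N ∧
      (N : ℝ) * Real.exp (-((Real.log N) ^ θ)) ≤ manyC (cw (t / θ) - ε) c H w N := by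
  obtain ⟨e, he⟩ : ∃ e : ℝ, e = min (1 / 2000) (ε / 1000) := ⟨_, rfl⟩
  have he0 : 0 < e := by rw [he]; exact lt_min (by norm_num) (by positivity)
  have he1 : e ≤ 1 / 2000 := by rw [he]; exact min_le_left _ _
  have he2 : 1000 * e ≤ ε := by
    have : e ≤ ε / 1000 := by rw [he]; exact min_le_right _ _
    linarith
  obtain ⟨δ, h1, h2, h4⟩ := avg_small t θ hθ ht e he0
  refine ⟨δ, h1, e ^ 2 / 1000, by positivity, ?_⟩
  filter_upwards [lev_final t θ 1 e hθ hθ1 ht (by norm_num) (by norm_num) he0 he1 _ h4,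
    scaleN δ (by linarith) (by linarith), eventually_ge_atTop 1] with N g1 g3 g4
  intro w hw2 H hH
  obtain ⟨f1, f2⟩ := g1 w (by linarith [g3.2]) H hH.1 hH.2
  rw [div_one] at f1 f2
  have hc1 : e ^ 2 / 1000 ≤ e / 2 := by nlinarith
  constructor
  · refine f1.trans ?_
    have h6 : fewC (cw (t / θ) + 1000 * e) (e / 2) H w N ≤
      fewC (cw (t / θ) + ε) (e ^ 2 / 1000) H w N := fewC_mono _ _ _ _ H w N g4 (by linarith) hc1
    refine le_trans (le_of_eq ?_) (Nat.cast_le.2 h6)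
    unfold fewC
    congr! 4
  · refine f2.trans ?_
    have h6 : manyC (cw (t / θ) - 1000 * e) (e ^ 2 / 1000) H w N ≤
      manyC (cw (t / θ) - ε) (e ^ 2 / 1000) H w N := manyC_mono _ _ _ _ H w N g4 (by linarith) le_rfl
    refine le_trans (le_of_eq ?_) (Nat.cast_le.2 h6)
    unfold manyC
    congr! 4

/-- the small levels: both deviations -/
theorem levC (t κ : ℝ) (ht : 1 < t) (hκ : 0 < κ) :
    ∃ δ : ℝ, 0 < δ ∧ ∃ c : ℝ, 0 < c ∧ ∀ᶠ N : ℕ in atTop, ∀ w : ℕ, (w : ℝ) ≤ (Real.log N) ^ δ →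
      ∀ H : Finset ℕ, Win t N H →
      (N : ℝ) * Real.exp (-((Real.log N) ^ κ)) ≤ fewC (1 - c) c H w N ∧
      (N : ℝ) * Real.exp (-((Real.log N) ^ κ)) ≤ manyC (1 + c) c H w N := by
  obtain ⟨κ', hκ'⟩ : ∃ κ' : ℝ, κ' = min κ (1 / 2) := ⟨_, rfl⟩
  have hκ0 : 0 < κ' := by rw [hκ']; exact lt_min hκ (by norm_num)
  have hκκ : κ' ≤ κ := by rw [hκ']; exact min_le_left _ _
  have hκ2 : κ' ≤ 1 / 2 := by rw [hκ']; exact min_le_right _ _
  obtain ⟨u1, hu1, ho1⟩ := om_lt (t / κ')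
  obtain ⟨u2, hu2, ho2⟩ := om_gt (t / κ')
  have ht0 : 0 < t := by linarith
  have htk : 0 < t / κ' := by positivity
  have hu10 : 0 < u1 := by linarith
  have hu20 : 0 < u2 := by linarith
  have E0 : 0 < Real.exp Real.eulerMascheroniConstant := Real.exp_pos _
  have hc1 : cw u1 < 1 := by
    unfold cw
    calc _ < Real.exp Real.eulerMascheroniConstant * Real.exp (-Real.eulerMascheroniConstant) :=
          mul_lt_mul_of_pos_left ho1 E0
      _ = 1 := by rw [← Real.exp_add]; simp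
  have hc2 : 1 < cw u2 := by
    unfold cw
    calc _ > Real.exp Real.eulerMascheroniConstant * Real.exp (-Real.eulerMascheroniConstant) :=
          mul_lt_mul_of_pos_left ho2 E0
      _ = 1 := by rw [← Real.exp_add]; simp
  have hθ1 : t / u1 ≤ κ' := by
    rw [div_le_iff₀ hu10]
    rw [div_le_iff₀ hκ0] at hu1
    linarith
  have hθ2 : t / u2 ≤ κ' := by
    rw [div_le_iff₀ hu20]
    rw [div_le_iff₀ hκ0] at hu2
    linarith
  obtain ⟨δ1, a1, c1, a2, a3⟩ := levS t (t / u1) ((1 - cw u1) / 2) ht (by positivity) (by linarith) (by linarith)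
  obtain ⟨δ2, b1, c2, b2, b3⟩ := levS t (t / u2) ((cw u2 - 1) / 2) ht (by positivity) (by linarith) (by linarith)
  have e1 : t / (t / u1) = u1 := by field_simp
  have e2 : t / (t / u2) = u2 := by field_simp
  rw [e1] at a3
  rw [e2] at b3
  refine ⟨min δ1 δ2, lt_min a1 b1, min (min c1 c2) (min ((1 - cw u1) / 2) ((cw u2 - 1) / 2)),
    lt_min (lt_min a2 b2) (lt_min (by linarith) (by linarith)), ?_⟩
  set c := min (min c1 c2) (min ((1 - cw u1) / 2) ((cw u2 - 1) / 2)) with hc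
  have m1 : c ≤ c1 := (min_le_left _ _).trans (min_le_left _ _)
  have m2 : c ≤ c2 := (min_le_left _ _).trans (min_le_right _ _)
  have m3 : c ≤ (1 - cw u1) / 2 := (min_le_right _ _).trans (min_le_left _ _)
  have m4 : c ≤ (cw u2 - 1) / 2 := (min_le_right _ _).trans (min_le_right _ _)
  filter_upwards [a3, b3, logN_ev.eventually_ge_atTop 1, eventually_ge_atTop 1] with N g1 g2 g3 g4
  intro w hw H hH
  have hw1 : (w : ℝ) ≤ (Real.log N) ^ δ1 := hw.trans (Real.rpow_le_rpow_of_exponent_le g3 (min_le_left _ _))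
  have hw2 : (w : ℝ) ≤ (Real.log N) ^ δ2 := hw.trans (Real.rpow_le_rpow_of_exponent_le g3 (min_le_right _ _))
  constructor
  · refine (freq_mono (t / u1) κ N (by linarith) g3).trans ((g1 w hw1 H hH).1.trans (Nat.cast_le.2 ?_))
    exact fewC_mono _ _ _ _ H w N g4 (by linarith) m1
  · refine (freq_mono (t / u2) κ N (by linarith) g3).trans ((g2 w hw2 H hH).2.trans (Nat.cast_le.2 ?_))
    exact manyC_mono _ _ _ _ H w N g4 (by linarith) m2

/-- all the levels up to `(log N) ^ x` are bad -/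
def BadUpTo (t x : ℝ) : Prop := ∃ θ : ℝ, θ < 1 ∧ ∃ c : ℝ, 0 < c ∧ ∀ᶠ N : ℕ in atTop, ∀ w : ℕ,
  (w : ℝ) ≤ (Real.log N) ^ x → ∀ H : Finset ℕ, Win t N H →
    (N : ℝ) * Real.exp (-((Real.log N) ^ θ)) ≤ badC c H w N

theorem bad_start (t : ℝ) (ht : 1 < t) : ∃ x : ℝ, 0 < x ∧ BadUpTo t x := by
  obtain ⟨δ, h1, c, h2, h3⟩ := levC t (1 / 2) ht (by norm_num)
  refine ⟨δ, h1, 1 / 2, by norm_num, c ^ 2, by positivity, ?_⟩
  filter_upwards [h3, eventually_ge_atTop 1] with N g1 g2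
  intro w hw H hH
  refine (g1 w hw H hH).1.trans (Nat.cast_le.2 ?_)
  exact fewC_bad _ _ _ H w N g2 (by linarith) h2 (le_of_eq (by ring))

theorem bad_local (t δ : ℝ) (ht : 1 < t) (hδ : 0 < δ) (hδ1 : δ < 1) : ∃ ρ : ℝ, 0 < ρ ∧ ρ < δ ∧
    ∃ θ : ℝ, θ < 1 ∧ ∃ c : ℝ, 0 < c ∧ ∀ᶠ N : ℕ in atTop, ∀ w : ℕ, (Real.log N) ^ (δ - ρ) ≤ w →
      (w : ℝ) ≤ (Real.log N) ^ (δ + ρ) → ∀ H : Finset ℕ, Win t N H →
        (N : ℝ) * Real.exp (-((Real.log N) ^ θ)) ≤ badC c H w N := by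
  have ht0 : 0 < t := by linarith
  have htδ : t < t / δ := by
    rw [lt_div_iff₀ hδ]
    nlinarith
  obtain ⟨u, hu1, hu2, hu3⟩ := ex_ne (om (t / δ)) t (t / δ) ht.le htδ
  have hu0 : 0 < u := by linarith
  obtain ⟨θ, hθ⟩ : ∃ θ : ℝ, θ = t / u := ⟨_, rfl⟩
  have hθu : t / θ = u := by rw [hθ]; field_simp
  have hθ1 : θ < 1 := by rw [hθ, div_lt_one hu0]; exact hu1
  have hδθ : δ < θ := by
    rw [hθ, lt_div_iff₀ hu0]
    rw [lt_div_iff₀ hδ] at hu2
    linarith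
  have hE0 : 0 < Real.exp Real.eulerMascheroniConstant := Real.exp_pos _
  obtain ⟨b1, b2⟩ := cw_bounds (t / δ) (by rw [le_div_iff₀ hδ]; linarith)
  have hne : cw u ≠ cw (t / δ) := by
    unfold cw
    intro h
    exact hu3 (mul_left_cancel₀ hE0.ne' h)
  have hA0 : 0 < cw (t / δ) := by linarith
  rcases lt_or_gt_of_ne hne with h | h
  · have hr : cw u / cw (t / δ) < 1 := by rw [div_lt_one hA0]; exact h
    obtain ⟨ρ, h1, h2, c, h3, h4⟩ := levA t δ θ ((1 - cw u / cw (t / δ)) / 2) ht hδ hδθ hθ1 (by linarith)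
    rw [hθu] at h4
    refine ⟨ρ, h1, h2, θ, hθ1, (1 - (cw u / cw (t / δ) + (1 - cw u / cw (t / δ)) / 2)) * c, ?_, ?_⟩
    · apply mul_pos _ h3
      linarith
    filter_upwards [h4, eventually_ge_atTop 1] with N g1 g2
    intro w hw1 hw2 H hH
    refine (g1 w hw1 hw2 H hH).1.trans (Nat.cast_le.2 ?_)
    exact fewC_bad _ _ _ H w N g2 (by linarith) h3 le_rfl
  · have hr : 1 < cw u / cw (t / δ) := by rw [one_lt_div hA0]; exact h
    obtain ⟨ρ, h1, h2, c, h3, h4⟩ := levA t δ θ (cw u / cw (t / δ) - 1) ht hδ hδθ hθ1 (by linarith)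
    rw [hθu] at h4
    refine ⟨ρ, h1, h2, θ, hθ1, c, h3, ?_⟩
    filter_upwards [h4, eventually_ge_atTop 1] with N g1 g2
    intro w hw1 hw2 H hH
    refine (g1 w hw1 hw2 H hH).2.trans (Nat.cast_le.2 ?_)
    exact manyC_bad _ _ _ H w N g2 (by linarith) le_rfl

theorem bad_join (t x δ ρ : ℝ) (hx : BadUpTo t x) (hxδ : δ - ρ ≤ x) (θ c : ℝ) (hθ : θ < 1) (hc : 0 < c)
    (h : ∀ᶠ N : ℕ in atTop, ∀ w : ℕ, (Real.log N) ^ (δ - ρ) ≤ w →
      (w : ℝ) ≤ (Real.log N) ^ (δ + ρ) → ∀ H : Finset ℕ, Win t N H →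
        (N : ℝ) * Real.exp (-((Real.log N) ^ θ)) ≤ badC c H w N) (y : ℝ) (hy : y ≤ δ + ρ) : BadUpTo t y := by
  obtain ⟨θ', h1, c', h2, h3⟩ := hx
  refine ⟨max θ θ', max_lt hθ h1, min c c', lt_min hc h2, ?_⟩
  filter_upwards [h, h3, logN_ev.eventually_ge_atTop 1, eventually_ge_atTop 1] with N g1 g2 g3 g4
  intro w hw H hH
  rcases le_total (w : ℝ) ((Real.log N) ^ x) with h5 | h5
  · exact (freq_mono θ' _ N (le_max_right _ _) g3).trans ((g2 w h5 H hH).trans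
      (Nat.cast_le.2 (badC_mono _ _ H w N g4 (min_le_right _ _))))
  · have h6 : (Real.log N) ^ (δ - ρ) ≤ w := (Real.rpow_le_rpow_of_exponent_le g3 hxδ).trans h5
    have h7 : (w : ℝ) ≤ (Real.log N) ^ (δ + ρ) := hw.trans (Real.rpow_le_rpow_of_exponent_le g3 hy)
    exact (freq_mono θ _ N (le_max_left _ _) g3).trans ((g1 w h6 h7 H hH).trans
      (Nat.cast_le.2 (badC_mono _ _ H w N g4 (min_le_left _ _))))

theorem bad_mono (t x y : ℝ) (h : BadUpTo t x) (hy : y ≤ x) : BadUpTo t y := by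
  obtain ⟨θ', h1, c', h2, h3⟩ := h
  refine ⟨θ', h1, c', h2, ?_⟩
  filter_upwards [h3, logN_ev.eventually_ge_atTop 1] with N g1 g2
  intro w hw H hH
  exact g1 w (hw.trans (Real.rpow_le_rpow_of_exponent_le g2 hy)) H hH

/-- all the levels below a power of `log N` with an exponent less than one are bad -/
theorem bad_all (t δ : ℝ) (ht : 1 < t) (hδ1 : δ < 1) : BadUpTo t δ := by
  obtain ⟨x0, hx0, hb0⟩ := bad_start t ht
  rcases le_total δ x0 with h | h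
  · exact bad_mono t x0 δ hb0 h
  · set S : Set ℝ := {x | x ≤ δ ∧ BadUpTo t x} with hS
    have hne : S.Nonempty := ⟨x0, h, hb0⟩
    have hbdd : BddAbove S := ⟨δ, fun x hx => hx.1⟩
    set s := sSup S with hs
    have hs1 : x0 ≤ s := le_csSup hbdd ⟨h, hb0⟩
    have hs2 : s ≤ δ := csSup_le hne fun x hx => hx.1
    obtain ⟨ρ, h1, h2, θ, h3, c, h4, h5⟩ := bad_local t s ht (by linarith) (by linarith)
    obtain ⟨x, hx, hxs⟩ := exists_lt_of_lt_csSup hne (show s - ρ < sSup S by rw [← hs]; linarith)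
    have h6 : ∀ y, y ≤ s + ρ → BadUpTo t y := fun y hy => bad_join t x s ρ hx.2 hxs.le θ c h3 h4 h5 y hy
    rcases le_total δ (s + ρ) with h7 | h7
    · exact h6 δ h7
    · exfalso
      have h8 : s + ρ ∈ S := ⟨h7, h6 _ le_rfl⟩
      have := le_csSup hbdd h8
      linarith

end Pool.Agent.H560.MQ
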