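import Pool.Agent.H560.MQ.Class

/-!
Rows with many primes, compared with a weight.
-/

set_option autoImplicit false

open Finset Filter Topology
open Pool.Agent.H378R2 Pool.Agent.H510R2.Maier Pool.Agent.T2H52.MG
open Pool.Agent.R529.BU (ev_smallk ev_pow_le)

namespace Pool.Agent.H560.MQ

/-- many rows with many primes, with a weight -/
theorem rows_manyG (k : ℕ) (ε : ℝ) (hε : 0 < ε) (hε1 : ε < 1) (Z : ℕ) : ∃ X0 : ℝ, ∀ X : ℝ, X0 ≤ X →
    ∃ (ps : ℕ) (S : Finset ℕ), GoodP Z ps ∧ GoodS X S ∧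
      ∀ (z r Y : ℕ) (H : Finset ℕ) (A : ℝ) (G : ℕ → ℝ), (z : ℝ) ≤ Real.log X / 1100 → (Y : ℝ) ≤ (Real.log X) ^ k →
        H ⊆ Icc 1 Y → 1 ≤ A → A ≤ ((VH (WZ X z S ps) r H : ℝ) - 80) / BE (PZ X z S ps) → (∀ n, 0 ≤ G n) →
        ∑ n ∈ Icc 1 ⌊3 * X⌋₊, nu X (WZ X z S ps) r n * G n ≤ ε / 4 * (MPhi X / (2 * WZ X z S ps)) →
        ε / 200 * (X * Real.exp (-(3 / 2 * z))) ≤ 2 * (Real.log X) ^ (k + 1) *
          ((rowset X (fun n => n ≡ r [MOD WZ X z S ps] ∧ (1 - ε) * A * (1 + G n) ≤ Real.log (4 * X) * cP H n)).card : ℝ) := by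
  classical
  obtain ⟨X0, hX0⟩ := rows_sumsHk k (ε / 2) (by positivity) (by linarith) Z
  obtain ⟨X1, hX1⟩ := eventually_atTop.1 (ev_pow_le k)
  refine ⟨max (max X0 X1) 100000, fun X hX => ?_⟩
  have hX5 : 100000 ≤ X := (le_max_right _ _).trans hX
  have hX40 : 40 ≤ X := by linarith
  have hXk := hX1 X ((le_max_right _ _).trans ((le_max_left _ _).trans hX))
  have hXpos : 0 < X := by linarith
  obtain ⟨ps, S, hps, hS, hr⟩ := hX0 X ((le_max_left _ _).trans ((le_max_left _ _).trans hX))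
  refine ⟨ps, S, hps, hS, fun z r Y H A G hz hY hH hA hVA hG0 hGs => ?_⟩
  obtain ⟨r1, -, r3, r4⟩ := hr z r Y H hz hY hH
  have hL2 : 2 ≤ Real.log X := by
    have h1 : Real.exp 2 ≤ 1000 := by
      have h2 := Real.exp_one_lt_d9
      have h3 : Real.exp 2 = Real.exp 1 ^ 2 := by rw [← Real.exp_nat_mul]; norm_num
      have h4 : 0 < Real.exp 1 := Real.exp_pos 1
      rw [h3]
      nlinarith only [h2, h4]
    rw [Real.le_log_iff_exp_le hXpos]
    linarith
  have hl4 : Real.log (4 * X) ≤ 2 * Real.log X := by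
    rw [Real.log_mul (by norm_num) hXpos.ne']
    have : Real.log 4 ≤ 2 := by
      rw [show (4 : ℝ) = 2 ^ 2 by norm_num, Real.log_pow]
      have := Real.log_two_lt_d9
      push_cast; linarith
    linarith
  have hl40 : 0 ≤ Real.log (4 * X) := Real.log_nonneg (by linarith)
  set W := WZ X z S ps with hW
  set B := BE (PZ X z S ps) with hB
  have hB0 : 0 < B := BE_pos fun p hp => PZ_prime hp
  have hW0 : (0 : ℝ) < W := by exact_mod_cast WZ_pos X z S ps
  have hφ : (W.totient : ℝ) = W * B := totient_WZ X z S ps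
  have hM1 := MPhi_ge X (by linarith)
  set M := MPhi X with hM
  have hM0 : 0 < M := by linarith
  set V : ℝ := (VH W r H : ℝ) with hV
  set N1 := ∑ n ∈ Icc 1 ⌊3 * X⌋₊, nu X W r n with hN1
  have hMW : 0 < M / W := by positivity
  rw [le_div_iff₀ hB0] at hVA
  have hY4 : (Y : ℝ) ≤ X := by linarith
  have hT : (1 - ε / 4) * A * N1 ≤ ∑ n ∈ Icc 1 ⌊3 * X⌋₊, nu X W r n * thH H n := by
    refine le_trans ?_ r1
    have hMφ : 0 < M / W.totient := by rw [hφ]; positivity
    have hAM : A * (M / W) ≤ (V - 80) * (M / W.totient) := by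
      rw [hφ]
      calc A * (M / W) = (A * B) * (M / (W * B)) := by field_simp
        _ ≤ (V - 80) * (M / (W * B)) := mul_le_mul_of_nonneg_right hVA (by positivity)
    have h1 : (1 - ε / 2 / 4) * (A * (M / W)) ≤ (1 - ε / 2 / 4) * ((V - 80) * (M / W.totient)) :=
      mul_le_mul_of_nonneg_left hAM (by linarith)
    have h2 : (1 - ε / 2 / 4) * ((V - 80) * (M / W.totient)) ≤
        (1 - ε / 2 / 4) * (V * (M / W.totient)) - 40 * (M / W.totient) := by
      nlinarith only [hMφ, hε1, hε]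
    have h3 : (1 - ε / 4) * A * N1 ≤ (1 - ε / 2 / 4) * (A * (M / W)) := by
      have h4 : (1 - ε / 4) * A * N1 ≤ (1 - ε / 4) * A * ((1 + ε / 2 / 4) * (M / W)) := by
        apply mul_le_mul_of_nonneg_left r4
        have : 0 ≤ 1 - ε / 4 := by linarith
        positivity
      have h5 : (1 - ε / 4) * (1 + ε / 2 / 4) ≤ 1 - ε / 2 / 4 := by nlinarith only [hε]
      have h6 : 0 ≤ A * (M / W) := by positivity
      calc _ ≤ (1 - ε / 4) * A * ((1 + ε / 2 / 4) * (M / W)) := h4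
        _ = ((1 - ε / 4) * (1 + ε / 2 / 4)) * (A * (M / W)) := by ring
        _ ≤ _ := by gcongr
    linarith
  set g : ℕ → ℝ := fun n => if n ≡ r [MOD W] then thH H n - (1 - ε) * A * G n else 0 with hg
  have hgs : ∑ n ∈ Icc 1 ⌊3 * X⌋₊, nu X W r n * g n = ∑ n ∈ Icc 1 ⌊3 * X⌋₊, nu X W r n * thH H n -
      (1 - ε) * A * ∑ n ∈ Icc 1 ⌊3 * X⌋₊, nu X W r n * G n := by
    rw [Finset.mul_sum, ← Finset.sum_sub_distrib]
    apply Finset.sum_congr rfl
    intro n _
    rw [hg]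
    simp only
    split_ifs with h
    · ring
    · unfold nu
      rw [if_neg h]
      ring
  have hTG : (1 - ε / 2) * A * N1 ≤ ∑ n ∈ Icc 1 ⌊3 * X⌋₊, nu X W r n * g n := by
    rw [hgs]
    have h1 : ε / 4 * (M / (2 * W)) ≤ ε / 4 * N1 := by
      apply mul_le_mul_of_nonneg_left _ (by linarith)
      refine le_trans ?_ r3
      calc M / (2 * W) = 1 / 2 * (M / W) := by field_simp
        _ ≤ (1 - ε / 2 / 4) * (M / W) := mul_le_mul_of_nonneg_right (by linarith) hMW.le
    have h2 : (1 - ε) * A * ∑ n ∈ Icc 1 ⌊3 * X⌋₊, nu X W r n * G n ≤ A * (ε / 4 * N1) := by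
      have h3 : 0 ≤ ∑ n ∈ Icc 1 ⌊3 * X⌋₊, nu X W r n * G n :=
        Finset.sum_nonneg fun n _ => mul_nonneg (nu_nonneg _ _ _ _) (hG0 n)
      calc (1 - ε) * A * ∑ n ∈ Icc 1 ⌊3 * X⌋₊, nu X W r n * G n
          ≤ 1 * A * ∑ n ∈ Icc 1 ⌊3 * X⌋₊, nu X W r n * G n := by
            apply mul_le_mul_of_nonneg_right _ h3
            apply mul_le_mul_of_nonneg_right _ (by linarith)
            linarith
        _ ≤ A * (ε / 4 * N1) := by
            rw [one_mul]
            exact mul_le_mul_of_nonneg_left (hGs.trans h1) (by linarith)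
    have h4 : (1 - ε / 2) * A * N1 = (1 - ε / 4) * A * N1 - A * (ε / 4 * N1) := by ring
    rw [h4]
    linarith
  have hgK : ∀ n : ℕ, X < n → (n : ℝ) < 3 * X → g n ≤ 2 * (Real.log X) ^ (k + 1) := by
    intro n hn1 hn2
    rw [hg]
    simp only
    split_ifs
    · have h0 : thH H n - (1 - ε) * A * G n ≤ thH H n := by
        have : 0 ≤ (1 - ε) * A * G n := mul_nonneg (mul_nonneg (by linarith) (by linarith)) (hG0 n)
        linarith
      refine h0.trans ((thH_le H Y n hH (4 * X) (by linarith)).trans ?_)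
      have h1 : (cP H n : ℝ) ≤ Y := by exact_mod_cast cP_le H Y n hH
      calc Real.log (4 * X) * cP H n ≤ (2 * Real.log X) * (Real.log X) ^ k := by
            apply mul_le_mul hl4 (h1.trans hY) (Nat.cast_nonneg _) (by linarith)
        _ = _ := by ring
    · positivity
  have hcnt := count_many X hXpos W r g A ε N1 (2 * (Real.log X) ^ (k + 1)) hA hε hε1.le hgK rfl
    hTG
  have hsub : rowset X (fun n => (1 - ε) * A ≤ g n) ⊆
      rowset X (fun n => n ≡ r [MOD W] ∧ (1 - ε) * A * (1 + G n) ≤ Real.log (4 * X) * cP H n) := by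
    intro n hn
    obtain ⟨m1, m2, m3, m4⟩ := mem_rowset.1 hn
    have hmod : n ≡ r [MOD W] := by
      by_contra hmod
      rw [hg] at m4
      simp only [if_neg hmod] at m4
      have : 0 < (1 - ε) * A := mul_pos (by linarith) (by linarith)
      linarith
    refine mem_rowset.2 ⟨m1, m2, m3, hmod, ?_⟩
    have m5 : (1 - ε) * A ≤ thH H n - (1 - ε) * A * G n := by
      rw [hg] at m4
      simpa only [if_pos hmod] using m4
    have m6 : (1 - ε) * A * (1 + G n) ≤ thH H n := by linarith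
    exact m6.trans (thH_le H Y n hH (4 * X) (by linarith))
  have h1 : ((rowset X (fun n => (1 - ε) * A ≤ g n)).card : ℝ) ≤
      ((rowset X (fun n => n ≡ r [MOD W] ∧ (1 - ε) * A * (1 + G n) ≤ Real.log (4 * X) * cP H n)).card : ℝ) := by
    exact_mod_cast Finset.card_le_card hsub
  have hK : 0 ≤ 2 * (Real.log X) ^ (k + 1) := by positivity
  refine le_trans ?_ (hcnt.trans (mul_le_mul_of_nonneg_left h1 hK))
  have h2 := N1_ge hX40 z S ps (ε / 2 / 4) N1 (by linarith) r3
  have h3 : 0 < X * Real.exp (-(3 / 2 * z)) := by positivity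
  calc ε / 200 * (X * Real.exp (-(3 / 2 * z))) ≤ ε / 2 * (X * Real.exp (-(3 / 2 * z)) / 40) := by
        rw [show ε / 2 * (X * Real.exp (-(3 / 2 * z)) / 40) = ε / 80 * (X * Real.exp (-(3 / 2 * z))) by ring]
        apply mul_le_mul_of_nonneg_right _ h3.le
        linarith
    _ ≤ ε / 2 * N1 := by gcongr

end Pool.Agent.H560.MQ
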