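import Pool.Agent.H560.MQ.Rows

/-!
The number of the integers prime to the modulus, uniformly, and its sum over the classes of the rows.
-/

set_option autoImplicit false

open Finset Filter Topology
open Pool.Agent.H378R2 Pool.Agent.H510R2.Maier Pool.Agent.T2H52.MG
open Pool.Agent.R529.BU (om om_cont om_ge om_le QA_all RR_crude GG_le_RR)

namespace Pool.Agent.H560.MQ

/-- `e ^ γ ω(u)` -/
noncomputable def cw (u : ℝ) : ℝ := Real.exp Real.eulerMascheroniConstant * om u

theorem E_ge : 1 ≤ Real.exp Real.eulerMascheroniConstant := by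
  rw [← Real.exp_zero]
  exact Real.exp_le_exp.2 (by have := Real.one_half_lt_eulerMascheroniConstant; linarith)

theorem E_le : Real.exp Real.eulerMascheroniConstant ≤ 2 := by
  have h1 := Real.eulerMascheroniConstant_lt_two_thirds
  have h2 : Real.exp Real.eulerMascheroniConstant < Real.exp (2 / 3) := Real.exp_lt_exp.2 h1
  have h3 : Real.exp (2 / 3) ≤ 2 := by
    have h4 : Real.exp (2 / 3) ^ 3 = Real.exp 1 ^ 2 := by
      rw [← Real.exp_nat_mul, ← Real.exp_nat_mul]
      norm_num
    have h5 := Real.exp_one_lt_d9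
    have h6 : Real.exp 1 ^ 2 ≤ 2 ^ 3 := by
      have := Real.exp_pos 1
      nlinarith
    rw [← h4] at h6
    exact le_of_pow_le_pow_left₀ (by norm_num) (by norm_num) h6
  linarith

theorem cw_bounds (u : ℝ) (hu : 1 ≤ u) : 1 / 2 ≤ cw u ∧ cw u ≤ 2 := by
  unfold cw
  have h1 := om_ge u hu
  have h2 := om_le u hu
  have h3 := E_ge
  have h4 := E_le
  constructor
  · nlinarith
  · nlinarith

/-- Buchstab's asymptotic formula together with Mertens' theorem -/
theorem partA (u δ : ℝ) (hu : 1 < u) (hδ : 0 < δ) : ∃ η : ℝ, 0 < η ∧ η < u - 1 ∧ ∃ z0 : ℝ, 2 ≤ z0 ∧ ∀ z : ℕ, z0 ≤ z →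
    ∀ T : ℕ, (z : ℝ) ^ (u - η) ≤ T → (T : ℝ) ≤ (z : ℝ) ^ (u + η) →
      (cw u - δ) * T ≤ ((Pool.Agent.R529.BU.RR T z).card : ℝ) * (QQ z)⁻¹ ∧
      ((Pool.Agent.R529.BU.RR T z).card : ℝ) * (QQ z)⁻¹ ≤ (cw u + δ) * T := by
  obtain ⟨ε, hε⟩ : ∃ ε : ℝ, ε = min δ 1 / 10 := ⟨_, rfl⟩
  have hm : 0 < min δ 1 := lt_min hδ one_pos
  have hε0 : 0 < ε := by rw [hε]; positivity
  have hε1 : ε ≤ 1 / 10 := by rw [hε]; linarith [min_le_right δ 1]
  have hεδ : 10 * ε ≤ δ := by rw [hε]; linarith [min_le_left δ 1]
  -- continuity of `ω`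
  obtain ⟨η1, hη1, hc⟩ := Metric.continuousAt_iff.1 (om_cont.continuousAt (x := u)) ε hε0
  obtain ⟨η, hη⟩ : ∃ η : ℝ, η = min (η1 / 2) (min ((u - 1) / 2) 1) := ⟨_, rfl⟩
  have hη0 : 0 < η := by rw [hη]; exact lt_min (by positivity) (lt_min (by linarith) one_pos)
  have hηa : η < η1 := by
    have : η ≤ η1 / 2 := by rw [hη]; exact min_le_left _ _
    linarith
  have hηb : η ≤ (u - 1) / 2 := by rw [hη]; exact (min_le_right _ _).trans (min_le_left _ _)
  have hηc : η ≤ 1 := by rw [hη]; exact (min_le_right _ _).trans (min_le_right _ _)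
  obtain ⟨n, hn⟩ := exists_nat_gt (u + 1)
  have hn2 : 2 ≤ n := by
    have : (2 : ℝ) < n := by linarith
    have : (2 : ℕ) < n := by exact_mod_cast this
    omega
  obtain ⟨z1, hz1⟩ := QA_all n hn2 ((u - 1) / 2) ε (by linarith) hε0
  -- Mertens
  have hM := QQ_real.eventually (Ioo_mem_nhds
    (show Real.exp Real.eulerMascheroniConstant - ε < Real.exp Real.eulerMascheroniConstant by linarith)
    (show Real.exp Real.eulerMascheroniConstant < Real.exp Real.eulerMascheroniConstant + ε by linarith))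
  obtain ⟨z2, hz2⟩ := eventually_atTop.1 hM
  refine ⟨η, hη0, by linarith, max (max z1 z2) 2, le_max_right _ _, fun z hz T hT1 hT2 => ?_⟩
  have a1 : z1 ≤ z := (le_max_left _ _).trans ((le_max_left _ _).trans hz)
  have a2 : z2 ≤ z := (le_max_right _ _).trans ((le_max_left _ _).trans hz)
  have a3 : (2 : ℝ) ≤ z := (le_max_right _ _).trans hz
  have hz0 : (0 : ℝ) < z := by linarith
  have hlz : 0 < Real.log z := Real.log_pos (by linarith)
  have hTpos : (0 : ℝ) < T := lt_of_lt_of_le (by positivity) hT1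
  -- the quotient
  have hv1 : (u - η) * Real.log z ≤ Real.log T := by
    have := Real.log_le_log (by positivity) hT1
    rwa [Real.log_rpow hz0] at this
  have hv2 : Real.log T ≤ (u + η) * Real.log z := by
    have := Real.log_le_log hTpos hT2
    rwa [Real.log_rpow hz0] at this
  have hlT : 0 < Real.log T := lt_of_lt_of_le (mul_pos (by linarith) hlz) hv1
  set v := Real.log T / Real.log z with hv
  have hv3 : u - η ≤ v := by rw [hv, le_div_iff₀ hlz]; exact hv1
  have hv4 : v ≤ u + η := by rw [hv, div_le_iff₀ hlz]; exact hv2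
  have hv5 : 1 ≤ v := by linarith
  have hov : |om v - om u| < ε := by
    have := hc (show dist v u < η1 by rw [Real.dist_eq, abs_lt]; constructor <;> linarith)
    rwa [Real.dist_eq] at this
  have h1 := hz1 z a1 T (by
    refine le_trans ?_ hT1
    exact Real.rpow_le_rpow_of_exponent_le (by linarith) (by linarith)) (by
    refine hT2.trans ?_
    exact Real.rpow_le_rpow_of_exponent_le (by linarith) (by linarith))
  rw [← hv] at h1
  obtain ⟨h2, h3⟩ := hz2 z a2
  rw [Nat.floor_natCast] at h2 h3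
  rw [lt_div_iff₀ hlz] at h2
  rw [div_lt_iff₀ hlz] at h3
  set E := Real.exp Real.eulerMascheroniConstant with hE
  have hE1 : 1 ≤ E := E_ge
  have hE2 : E ≤ 2 := E_le
  set C := ((Pool.Agent.R529.BU.RR T z).card : ℝ) with hC
  have hC0 : 0 ≤ C := Nat.cast_nonneg _
  have hW : Pool.Agent.R529.BU.WW v = v * om v := rfl
  rw [hW] at h1
  obtain ⟨h4, h5⟩ := abs_le.1 h1
  obtain ⟨h6, h7⟩ := abs_lt.1 hov
  have ho1 := om_ge u hu.le
  have ho2 := om_le u hu.le
  have hTv : Real.log T = v * Real.log z := by rw [hv]; field_simp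
  -- `C log z`
  have h8 : C * Real.log z ≤ T * (om u + 2 * ε) := by
    have h9 : v * (C * Real.log z) ≤ v * (T * (om u + 2 * ε)) := by
      calc v * (C * Real.log z) = C * Real.log T := by rw [hTv]; ring
        _ ≤ T * (v * om v) + ε * T := by linarith
        _ ≤ T * (v * (om u + ε)) + ε * T := by
            have : v * om v ≤ v * (om u + ε) := mul_le_mul_of_nonneg_left (by linarith) (by linarith)
            have := mul_le_mul_of_nonneg_left this hTpos.le
            linarith
        _ ≤ v * (T * (om u + 2 * ε)) := by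
            have : ε * T * 1 ≤ ε * T * v := mul_le_mul_of_nonneg_left hv5 (by positivity)
            nlinarith
    exact le_of_mul_le_mul_left h9 (by linarith)
  have h9 : T * (om u - 2 * ε) ≤ C * Real.log z := by
    have h9 : v * (T * (om u - 2 * ε)) ≤ v * (C * Real.log z) := by
      calc v * (T * (om u - 2 * ε)) ≤ T * (v * (om u - ε)) - ε * T := by
            have : ε * T * 1 ≤ ε * T * v := mul_le_mul_of_nonneg_left hv5 (by positivity)
            nlinarith
        _ ≤ T * (v * om v) - ε * T := by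
            have : v * (om u - ε) ≤ v * om v := mul_le_mul_of_nonneg_left (by linarith) (by linarith)
            have := mul_le_mul_of_nonneg_left this hTpos.le
            linarith
        _ ≤ C * Real.log T := by linarith
        _ = v * (C * Real.log z) := by rw [hTv]; ring
    exact le_of_mul_le_mul_left h9 (by linarith)
  unfold cw
  rw [← hE]
  constructor
  · calc (E * om u - δ) * T ≤ (T * (om u - 2 * ε)) * (E - ε) := by
          have : E * om u - δ ≤ (om u - 2 * ε) * (E - ε) := by nlinarith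
          nlinarith
      _ ≤ (C * Real.log z) * (E - ε) := mul_le_mul_of_nonneg_right h9 (by linarith)
      _ = C * ((E - ε) * Real.log z) := by ring
      _ ≤ C * (QQ z)⁻¹ := mul_le_mul_of_nonneg_left h2.le hC0
  · calc C * (QQ z)⁻¹ ≤ C * ((E + ε) * Real.log z) := mul_le_mul_of_nonneg_left h3.le hC0
      _ = (C * Real.log z) * (E + ε) := by ring
      _ ≤ (T * (om u + 2 * ε)) * (E + ε) := mul_le_mul_of_nonneg_right h8 (by linarith)
      _ ≤ (E * om u + δ) * T := by
          have : (om u + 2 * ε) * (E + ε) ≤ E * om u + δ := by nlinarith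
          nlinarith

end Pool.Agent.H560.MQ
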