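import Pool.Graph.R_pool_sql_team_seeded_b0a926ef.R529.BU.Pr
import Pool.Graph.R_pool_sql_team_seeded_707910d6.T2H52.MG.A10

/-!
Rows of the matrices of Maier over a small modulus for an arbitrary set of shifts up to `(log X) ^ k`
(`T2H52.MG.A1` for `k` in place of `3`), and the numbers of the rows with few and with many primes.
-/

set_option autoImplicit false

open Finset Filter Topology
open Pool.Agent.H378R2 Pool.Agent.H510R2.Maier Pool.Agent.T2H52.MG
open Pool.Agent.R529.BU (ev_smallk ev_pow_le)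

namespace Pool.Agent.H560.MQ

set_option maxHeartbeats 4000000 in
/-- weighted sums over the rows -/
theorem rows_sumsHk (k : ℕ) (ε : ℝ) (hε : 0 < ε) (hε1 : ε ≤ 1) (Z : ℕ) : ∃ X0 : ℝ, ∀ X : ℝ, X0 ≤ X →
    ∃ (ps : ℕ) (S : Finset ℕ), GoodP Z ps ∧ GoodS X S ∧
      ∀ (z r Y : ℕ) (H : Finset ℕ), (z : ℝ) ≤ Real.log X / 1100 → (Y : ℝ) ≤ (Real.log X) ^ k → H ⊆ Icc 1 Y →
        (1 - ε / 4) * ((VH (WZ X z S ps) r H : ℝ) * (MPhi X / (WZ X z S ps).totient)) -
            40 * (MPhi X / (WZ X z S ps).totient) ≤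
          ∑ n ∈ Icc 1 ⌊3 * X⌋₊, nu X (WZ X z S ps) r n * thH H n ∧
        ∑ n ∈ Icc 1 ⌊3 * X⌋₊, nu X (WZ X z S ps) r n * thH H n ≤
          (1 + ε / 4) * ((VH (WZ X z S ps) r H : ℝ) * (MPhi X / (WZ X z S ps).totient)) +
            40 * (MPhi X / (WZ X z S ps).totient) ∧
        (1 - ε / 4) * (MPhi X / WZ X z S ps) ≤ ∑ n ∈ Icc 1 ⌊3 * X⌋₊, nu X (WZ X z S ps) r n ∧
        ∑ n ∈ Icc 1 ⌊3 * X⌋₊, nu X (WZ X z S ps) r n ≤ (1 + ε / 4) * (MPhi X / WZ X z S ps) := by
  obtain ⟨X1, hX1⟩ := bvrel_holds k Z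
  have hlogtop : Tendsto Real.log atTop atTop := Real.tendsto_log_atTop
  have ev1 := lphi_mphi (ε / 80) (by positivity)
  have ev2 : ∀ᶠ X : ℝ in atTop, (Real.log X) ^ k * (4 * (Real.log X) ^ k * (2 * Real.log X) +
      8 * Real.exp (Real.log X / 2) * (2 * Real.log X)) * Real.exp (Real.log X / 700) ≤ Real.exp (Real.log X) :=
    hlogtop.eventually (ev_smallk k)
  have ev3 := ev_pow_le k
  have ev4 : ∀ᶠ X : ℝ in atTop, 400 / ε * Real.exp (Real.log X / 700) ≤ X := by
    have h1 : Tendsto (fun L : ℝ => Real.exp (-(699 / 700) * L)) atTop (𝓝 0) := by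
      apply Real.tendsto_exp_atBot.comp
      exact tendsto_id.const_mul_atTop_of_neg (by norm_num)
    have h2 : ∀ᶠ X : ℝ in atTop, Real.exp (-(699 / 700) * Real.log X) < ε / 400 :=
      hlogtop.eventually (h1.eventually_lt_const (by positivity))
    filter_upwards [h2, eventually_gt_atTop (0 : ℝ)] with X h3 h4
    have h5 : Real.exp (Real.log X / 700) = X * Real.exp (-(699 / 700) * Real.log X) := by
      nth_rewrite 2 [← Real.exp_log h4]
      rw [← Real.exp_add]
      congr 1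
      ring
    rw [h5]
    calc 400 / ε * (X * Real.exp (-(699 / 700) * Real.log X)) ≤ 400 / ε * (X * (ε / 400)) := by gcongr
      _ = X := by field_simp
  have hev := ((((ev1.and ev2).and ev3).and ev4).and (eventually_ge_atTop X1)).and
    ((eventually_ge_atTop (40 : ℝ)).and (hlogtop.eventually_ge_atTop (2 : ℝ)))
  obtain ⟨X0, hX0⟩ := eventually_atTop.1 hev
  refine ⟨X0, fun X hX => ?_⟩
  obtain ⟨⟨⟨⟨⟨h1, h2⟩, h3⟩, h4⟩, h5⟩, h6, h7⟩ := hX0 X hX
  obtain ⟨ps, S, hps, hS, hbv⟩ := hX1 X h5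
  refine ⟨ps, S, hps, hS, fun z r Y H hz hY hH => ?_⟩
  have hXpos : 0 < X := by linarith
  obtain ⟨W2, hW2, hco, hWprod, hWDle⟩ := pz_decomp X z S ps
  set W := WZ X z S ps with hW
  have hW0 : 0 < W := WZ_pos X z S ps
  have hWr : (0 : ℝ) < W := by exact_mod_cast hW0
  have hφ0 : (0 : ℝ) < W.totient := by exact_mod_cast Nat.totient_pos.2 hW0
  have hφ2 : (0 : ℝ) < W2.totient := by exact_mod_cast Nat.totient_pos.2 hW2
  have hφle : (W.totient : ℝ) ≤ W := by exact_mod_cast Nat.totient_le W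
  have hWle : (W : ℝ) ≤ Real.exp (Real.log X / 700) := by
    refine (WZ_le X z S ps).trans ?_
    apply Real.exp_le_exp.2
    have : 0 ≤ Real.log X := by linarith
    linarith
  set L := Real.log X with hL
  have hexpL : Real.exp L = X := Real.exp_log hXpos
  have hsqrt : Real.sqrt X = Real.exp (L / 2) := by
    rw [← hexpL, Real.sqrt_eq_iff_mul_self_eq (Real.exp_pos _).le (Real.exp_pos _).le, ← Real.exp_add]
    congr 1; ring
  have hl4 : Real.log (4 * X) ≤ 2 * L := by
    rw [Real.log_mul (by norm_num) hXpos.ne']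
    have : Real.log 4 ≤ 2 := by
      rw [show (4 : ℝ) = 2 ^ 2 by norm_num, Real.log_pow]
      have := Real.log_two_lt_d9
      push_cast; linarith
    linarith
  have hl40 : 0 ≤ Real.log (4 * X) := Real.log_nonneg (by linarith)
  set E0 := X / (((WW X S ps).totient : ℝ) * L ^ k) with hE0
  have hEb0 := single_bound X (WW X S ps) ps k (by linarith) E0 hbv
  have hWp0 : ∀ p : ℕ, p.Prime → p ∣ WW X S ps → (p : ℝ) ≤ X := by
    intro p hp hpW
    have h8 := (mem_PW.1 ((prime_dvd_WW hp).1 hpW)).1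
    have h9 : (p : ℝ) ≤ yy X := by exact_mod_cast h8
    have h10 : (yy X : ℝ) ≤ L / 1000 := Nat.floor_le (by positivity)
    have h11 : L ≤ X := by
      have := Real.add_one_le_exp L
      linarith
    linarith
  have hWp : ∀ p : ℕ, p.Prime → p ∣ W → (p : ℝ) ≤ X := fun p hp hd =>
    hWp0 p hp (hd.trans ⟨W2, hWprod.symm⟩)
  have hWp2 : ∀ p : ℕ, p.Prime → p ∣ W2 → (p : ℝ) ≤ X := fun p hp hd =>
    hWp0 p hp (hd.trans ⟨W, by rw [← hWprod]; ring⟩)
  set E := (W2.totient : ℝ) * E0 + 2 * Real.sqrt (3 * X) * Real.log (3 * X) with hE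
  have hEb : ∀ b : ℕ, b.Coprime W → |EPhi X W b| ≤ E := by
    intro b hb
    apply EPhi_sub X (by linarith) W W2 hW0 hW2 hco hWp2 E0 _ b hb
    rw [hWprod]
    exact hEb0
  have hE0eq : (W2.totient : ℝ) * E0 = X / (W.totient * L ^ k) := by
    rw [hE0, ← hWprod, Nat.totient_mul hco]
    push_cast
    field_simp
  have hmat := matrix_sumH X (by linarith) W r Y H hH (by linarith) hWp E hEb
  have hM1 := MPhi_ge X h6
  set M := MPhi X with hM
  have hM0 : 0 < M := by linarith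
  -- the error
  have h3X : 2 * Real.sqrt (3 * X) * Real.log (3 * X) ≤ 4 * Real.sqrt X * Real.log (4 * X) := by
    have a1 : Real.sqrt (3 * X) ≤ 2 * Real.sqrt X := by
      rw [show 2 * Real.sqrt X = Real.sqrt (4 * X) by
        rw [Real.sqrt_mul (by norm_num), show (4 : ℝ) = 2 ^ 2 by norm_num, Real.sqrt_sq (by norm_num)]]
      exact Real.sqrt_le_sqrt (by linarith)
    have a2 : Real.log (3 * X) ≤ Real.log (4 * X) := Real.log_le_log (by linarith) (by linarith)
    have a3 : 0 ≤ Real.log (3 * X) := Real.log_nonneg (by linarith)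
    calc 2 * Real.sqrt (3 * X) * Real.log (3 * X) ≤ 2 * (2 * Real.sqrt X) * Real.log (4 * X) := by gcongr
      _ = _ := by ring
  have herr : Y * (E + (4 * Y * Real.log (4 * X) + 4 * Real.sqrt X * Real.log (4 * X))) ≤ 40 * (M / W.totient) := by
    have hY0 : (0 : ℝ) ≤ Y := Nat.cast_nonneg _
    have b1 : Y * ((W2.totient : ℝ) * E0) ≤ X / W.totient := by
      rw [hE0eq]
      calc Y * (X / (W.totient * L ^ k)) ≤ L ^ k * (X / (W.totient * L ^ k)) := by gcongr
        _ = X / W.totient := by field_simp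
    have b2 : Y * (4 * Y * Real.log (4 * X) + 8 * Real.sqrt X * Real.log (4 * X)) ≤ X / W.totient := by
      rw [le_div_iff₀ hφ0]
      calc Y * (4 * Y * Real.log (4 * X) + 8 * Real.sqrt X * Real.log (4 * X)) * W.totient
          ≤ L ^ k * (4 * L ^ k * (2 * L) + 8 * Real.exp (L / 2) * (2 * L)) * Real.exp (L / 700) := by
            rw [hsqrt]
            have := hφle.trans hWle
            gcongr
        _ ≤ X := by rw [← hexpL]; exact h2
    have b3 : X / W.totient ≤ 20 * (M / W.totient) := by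
      rw [mul_div_assoc']
      gcongr
      linarith
    calc Y * (E + (4 * Y * Real.log (4 * X) + 4 * Real.sqrt X * Real.log (4 * X)))
        ≤ Y * (((W2.totient : ℝ) * E0 + 4 * Real.sqrt X * Real.log (4 * X)) +
            (4 * Y * Real.log (4 * X) + 4 * Real.sqrt X * Real.log (4 * X))) := by
          apply mul_le_mul_of_nonneg_left _ hY0
          rw [hE]
          linarith
      _ = Y * ((W2.totient : ℝ) * E0) + Y * (4 * Y * Real.log (4 * X) + 8 * Real.sqrt X * Real.log (4 * X)) := by ring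
      _ ≤ X / W.totient + X / W.totient := add_le_add b1 b2
      _ ≤ _ := by linarith
  have hLM : |LPhi X - M| ≤ ε / 4 * M := by
    refine h1.trans ?_
    nlinarith
  rw [abs_le] at hLM
  have hnu := sum_nu X (by linarith) W r hW0 (by
    have : (400 : ℝ) ≤ 400 / ε := by
      rw [le_div_iff₀ hε]; nlinarith
    nlinarith [Real.exp_pos (L / 700)])
  rw [abs_le] at hnu hmat
  set N1 := ∑ n ∈ Icc 1 ⌊3 * X⌋₊, nu X W r n with hN1
  set T1 := ∑ n ∈ Icc 1 ⌊3 * X⌋₊, nu X W r n * thH H n with hT1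
  have hMW : 5 ≤ ε / 4 * (M / W) := by
    have c1 : 400 / ε * W ≤ X := by
      refine le_trans ?_ h4
      gcongr
    have c2 : 400 * W ≤ ε * X := by
      calc 400 * (W : ℝ) = ε * (400 / ε * W) := by field_simp
        _ ≤ ε * X := by gcongr
    have c3 : 20 ≤ ε * (M / W) := by
      rw [mul_div_assoc', le_div_iff₀ hWr]
      nlinarith
    linarith
  have hMW' : M * (1 / (W : ℝ)) = M / W := by ring
  rw [hMW'] at hnu
  set V : ℝ := (VH W r H : ℝ) with hV
  have hV0 : 0 ≤ V := Nat.cast_nonneg _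
  have hK0 : 0 < M / W.totient := by positivity
  refine ⟨?_, ?_, by linarith [hnu.1], by linarith [hnu.2]⟩
  · have d1 : (1 - ε / 4) * (V * (M / W.totient)) ≤ V * (LPhi X * (1 / W.totient)) := by
      have : (1 - ε / 4) * M ≤ LPhi X := by linarith [hLM.1]
      calc (1 - ε / 4) * (V * (M / W.totient)) = V * (((1 - ε / 4) * M) * (1 / W.totient)) := by ring
        _ ≤ _ := by gcongr
    linarith [hmat.1]
  · have d1 : V * (LPhi X * (1 / W.totient)) ≤ (1 + ε / 4) * (V * (M / W.totient)) := by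
      have : LPhi X ≤ (1 + ε / 4) * M := by linarith [hLM.2]
      calc V * (LPhi X * (1 / W.totient)) ≤ V * (((1 + ε / 4) * M) * (1 / W.totient)) := by gcongr
        _ = _ := by ring
    linarith [hmat.2]



/-- the number of the `h ∈ H` with `n + h` prime -/
def cP (H : Finset ℕ) (n : ℕ) : ℕ := (H.filter (fun h => (n + h).Prime)).card

theorem thH_ge (H : Finset ℕ) (n : ℕ) (X : ℝ) (hX : 0 < X) (hn : X < n) : Real.log X * cP H n ≤ thH H n := by
  unfold thH cP
  rw [Finset.card_filter]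
  push_cast
  rw [Finset.mul_sum]
  apply Finset.sum_le_sum
  intro p _
  split_ifs with h
  · unfold th
    rw [if_pos h, mul_one]
    apply Real.log_le_log hX
    push_cast
    have : (0 : ℝ) ≤ p := Nat.cast_nonneg _
    linarith
  · rw [mul_zero]
    exact th_nonneg _

theorem thH_le (H : Finset ℕ) (Y n : ℕ) (hH : H ⊆ Icc 1 Y) (x : ℝ) (hn : (n : ℝ) + Y ≤ x) :
    thH H n ≤ Real.log x * cP H n := by
  unfold thH cP
  rw [Finset.card_filter]
  push_cast
  rw [Finset.mul_sum]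
  apply Finset.sum_le_sum
  intro p hp
  have hp' := mem_Icc.1 (hH hp)
  unfold th
  split_ifs with h
  · rw [mul_one]
    have h1 : (0 : ℝ) < ((n + p : ℕ) : ℝ) := by exact_mod_cast h.pos
    apply Real.log_le_log h1
    have : (p : ℝ) ≤ Y := by exact_mod_cast hp'.2
    push_cast
    linarith
  · simp

theorem cP_le (H : Finset ℕ) (Y n : ℕ) (hH : H ⊆ Icc 1 Y) : cP H n ≤ Y := by
  unfold cP
  refine (Finset.card_filter_le _ _).trans ((Finset.card_le_card hH).trans ?_)
  simp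

theorem N1_ge {X : ℝ} (hX40 : 40 ≤ X) (z : ℕ) (S : Finset ℕ) (ps : ℕ) (δ N1 : ℝ) (hδ : δ ≤ 1 / 2)
    (h : (1 - δ) * (MPhi X / WZ X z S ps) ≤ N1) : X * Real.exp (-(3 / 2 * z)) / 40 ≤ N1 := by
  refine le_trans ?_ h
  have hW0 : (0 : ℝ) < WZ X z S ps := by exact_mod_cast WZ_pos X z S ps
  have hM1 := MPhi_ge X hX40
  have h4 : Real.exp (-(3 / 2 * (z : ℝ))) ≤ 1 / WZ X z S ps := by
    rw [Real.exp_neg, inv_eq_one_div]
    exact one_div_le_one_div_of_le hW0 (WZ_le X z S ps)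
  have h5 : 0 ≤ MPhi X / WZ X z S ps := by
    have : 0 ≤ MPhi X := by linarith
    positivity
  calc X * Real.exp (-(3 / 2 * z)) / 40 ≤ X * (1 / WZ X z S ps) / 40 := by gcongr
    _ = 1 / 2 * (X / 20 / WZ X z S ps) := by ring
    _ ≤ 1 / 2 * (MPhi X / WZ X z S ps) := by gcongr
    _ ≤ (1 - δ) * (MPhi X / WZ X z S ps) := mul_le_mul_of_nonneg_right (by linarith) h5

/-- many rows with few primes -/
theorem rows_few (k : ℕ) (ε : ℝ) (hε : 0 < ε) (hε1 : ε ≤ 1) (Z : ℕ) : ∃ X0 : ℝ, ∀ X : ℝ, X0 ≤ X →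
    ∃ (ps : ℕ) (S : Finset ℕ), GoodP Z ps ∧ GoodS X S ∧
      ∀ (z r Y : ℕ) (H : Finset ℕ) (A : ℝ), (z : ℝ) ≤ Real.log X / 1100 → (Y : ℝ) ≤ (Real.log X) ^ k →
        H ⊆ Icc 1 Y → 0 < A → ((VH (WZ X z S ps) r H : ℝ) + 80) / BE (PZ X z S ps) ≤ A →
        ε / 200 * (X * Real.exp (-(3 / 2 * z))) ≤
          ((rowset X (fun n => n ≡ r [MOD WZ X z S ps] ∧ Real.log X * cP H n ≤ (1 + ε) * A)).card : ℝ) := by
  classical
  obtain ⟨X0, hX0⟩ := rows_sumsHk k (ε / 2) (by positivity) (by linarith) Z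
  refine ⟨max X0 40, fun X hX => ?_⟩
  have hX40 : 40 ≤ X := (le_max_right _ _).trans hX
  have hXpos : 0 < X := by linarith
  obtain ⟨ps, S, hps, hS, hr⟩ := hX0 X ((le_max_left _ _).trans hX)
  refine ⟨ps, S, hps, hS, fun z r Y H A' hz hY hH hA' hVA => ?_⟩
  obtain ⟨-, r2, r3, -⟩ := hr z r Y H hz hY hH
  set W := WZ X z S ps with hW
  set B := BE (PZ X z S ps) with hB
  have hB0 : 0 < B := BE_pos fun p hp => PZ_prime hp
  have hW0 : (0 : ℝ) < W := by exact_mod_cast WZ_pos X z S ps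
  have hφ : (W.totient : ℝ) = W * B := totient_WZ X z S ps
  have hM1 := MPhi_ge X hX40
  set M := MPhi X with hM
  have hM0 : 0 < M := by linarith
  set V : ℝ := (VH W r H : ℝ) with hV
  have hV0 : 0 ≤ V := Nat.cast_nonneg _
  set N1 := ∑ n ∈ Icc 1 ⌊3 * X⌋₊, nu X W r n with hN1
  set A := (V + 80) / B with hA
  have hA0 : 0 < A := by positivity
  have hMW : 0 < M / W := by positivity
  have hT : ∑ n ∈ Icc 1 ⌊3 * X⌋₊, nu X W r n * thH H n ≤ (1 + ε / 2) * A * N1 := by
    refine r2.trans ?_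
    have hMφ : 0 < M / W.totient := by rw [hφ]; positivity
    calc (1 + ε / 2 / 4) * (V * (M / W.totient)) + 40 * (M / W.totient)
        ≤ (1 + ε / 2 / 4) * ((V + 80) * (M / W.totient)) := by nlinarith
      _ = (1 + ε / 2 / 4) * A * (M / W) := by
          rw [hA, hφ]; field_simp
      _ ≤ ((1 + ε / 2) * (1 - ε / 2 / 4)) * A * (M / W) := by
          have q1 : 1 + ε / 2 / 4 ≤ (1 + ε / 2) * (1 - ε / 2 / 4) := by nlinarith
          exact mul_le_mul_of_nonneg_right (mul_le_mul_of_nonneg_right q1 hA0.le) hMW.le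
      _ = (1 + ε / 2) * A * ((1 - ε / 2 / 4) * (M / W)) := by ring
      _ ≤ (1 + ε / 2) * A * N1 := by
          apply mul_le_mul_of_nonneg_left r3
          positivity
  set g : ℕ → ℝ := fun n => if n ≡ r [MOD W] then thH H n else 2 * ((1 + ε) * A) with hg
  have hg0 : ∀ n, 0 ≤ g n := by
    intro n
    rw [hg]
    simp only
    split_ifs
    · exact thH_nonneg _ _
    · positivity
  have hgs : ∑ n ∈ Icc 1 ⌊3 * X⌋₊, nu X W r n * g n = ∑ n ∈ Icc 1 ⌊3 * X⌋₊, nu X W r n * thH H n := by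
    apply Finset.sum_congr rfl
    intro n _
    rw [hg]
    simp only
    split_ifs with h
    · rfl
    · unfold nu
      rw [if_neg h, zero_mul, zero_mul]
  have hcnt := count_few X hXpos W r g hg0 A ε N1 hA0 hε hε1 rfl (by rw [hgs]; exact hT)
  have hsub : rowset X (fun n => g n ≤ (1 + ε) * A) ⊆
      rowset X (fun n => n ≡ r [MOD W] ∧ Real.log X * cP H n ≤ (1 + ε) * A') := by
    intro n hn
    obtain ⟨m1, m2, m3, m4⟩ := mem_rowset.1 hn
    have hmod : n ≡ r [MOD W] := by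
      by_contra hcon
      rw [hg] at m4
      simp only [if_neg hcon] at m4
      have : 0 < (1 + ε) * A := by positivity
      linarith
    refine mem_rowset.2 ⟨m1, m2, m3, hmod, ?_⟩
    have m5 : thH H n ≤ (1 + ε) * A := by
      rw [hg] at m4
      simpa only [if_pos hmod] using m4
    refine (thH_ge H n X hXpos m2).trans (m5.trans ?_)
    exact mul_le_mul_of_nonneg_left hVA (by linarith)
  have h1 : ((rowset X (fun n => g n ≤ (1 + ε) * A)).card : ℝ) ≤
      ((rowset X (fun n => n ≡ r [MOD W] ∧ Real.log X * cP H n ≤ (1 + ε) * A')).card : ℝ) := by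
    exact_mod_cast Finset.card_le_card hsub
  refine le_trans ?_ (hcnt.trans h1)
  have h2 := N1_ge hX40 z S ps (ε / 2 / 4) N1 (by linarith) r3
  have h3 : 0 < X * Real.exp (-(3 / 2 * z)) := by positivity
  calc ε / 200 * (X * Real.exp (-(3 / 2 * z))) ≤ ε / 4 * (X * Real.exp (-(3 / 2 * z)) / 40) := by
        rw [show ε / 4 * (X * Real.exp (-(3 / 2 * z)) / 40) = ε / 160 * (X * Real.exp (-(3 / 2 * z))) by ring]
        apply mul_le_mul_of_nonneg_right _ h3.le
        linarith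
    _ ≤ ε / 4 * N1 := by gcongr

/-- many rows with many primes -/
theorem rows_many (k : ℕ) (ε : ℝ) (hε : 0 < ε) (hε1 : ε < 1) (Z : ℕ) : ∃ X0 : ℝ, ∀ X : ℝ, X0 ≤ X →
    ∃ (ps : ℕ) (S : Finset ℕ), GoodP Z ps ∧ GoodS X S ∧
      ∀ (z r Y : ℕ) (H : Finset ℕ) (A : ℝ), (z : ℝ) ≤ Real.log X / 1100 → (Y : ℝ) ≤ (Real.log X) ^ k →
        H ⊆ Icc 1 Y → 1 ≤ A → A ≤ ((VH (WZ X z S ps) r H : ℝ) - 80) / BE (PZ X z S ps) →
        ε / 200 * (X * Real.exp (-(3 / 2 * z))) ≤ 2 * (Real.log X) ^ (k + 1) *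
          ((rowset X (fun n => n ≡ r [MOD WZ X z S ps] ∧ (1 - ε) * A ≤ Real.log (4 * X) * cP H n)).card : ℝ) := by
  classical
  obtain ⟨X0, hX0⟩ := rows_sumsHk k (ε / 2) (by positivity) (by linarith) Z
  obtain ⟨X1, hX1⟩ := eventually_atTop.1 (ev_pow_le k)
  refine ⟨max (max X0 X1) 100000, fun X hX => ?_⟩
  have hX5 : 100000 ≤ X := (le_max_right _ _).trans hX
  have hX40 : 40 ≤ X := by linarith
  have hXk := hX1 X ((le_max_right _ _).trans ((le_max_left _ _).trans hX))
  have hXpos : 0 < X := by linarith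
  obtain ⟨ps, S, hps, hS, hr⟩ := hX0 X ((le_max_left _ _).trans ((le_max_left _ _).trans hX))
  refine ⟨ps, S, hps, hS, fun z r Y H A hz hY hH hA hVA => ?_⟩
  obtain ⟨r1, -, r3, r4⟩ := hr z r Y H hz hY hH
  have hL2 : 2 ≤ Real.log X := by
    have h1 : Real.exp 2 ≤ 1000 := by
      have h2 := Real.exp_one_lt_d9
      have h3 : Real.exp 2 = Real.exp 1 ^ 2 := by rw [← Real.exp_nat_mul]; norm_num
      have h4 : 0 < Real.exp 1 := Real.exp_pos 1
      rw [h3]
      nlinarith only [h2, h4]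
    rw [Real.le_log_iff_exp_le hXpos]
    linarith
  have hl4 : Real.log (4 * X) ≤ 2 * Real.log X := by
    rw [Real.log_mul (by norm_num) hXpos.ne']
    have : Real.log 4 ≤ 2 := by
      rw [show (4 : ℝ) = 2 ^ 2 by norm_num, Real.log_pow]
      have := Real.log_two_lt_d9
      push_cast; linarith
    linarith
  have hl40 : 0 ≤ Real.log (4 * X) := Real.log_nonneg (by linarith)
  set W := WZ X z S ps with hW
  set B := BE (PZ X z S ps) with hB
  have hB0 : 0 < B := BE_pos fun p hp => PZ_prime hp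
  have hW0 : (0 : ℝ) < W := by exact_mod_cast WZ_pos X z S ps
  have hφ : (W.totient : ℝ) = W * B := totient_WZ X z S ps
  have hM1 := MPhi_ge X (by linarith)
  set M := MPhi X with hM
  have hM0 : 0 < M := by linarith
  set V : ℝ := (VH W r H : ℝ) with hV
  set N1 := ∑ n ∈ Icc 1 ⌊3 * X⌋₊, nu X W r n with hN1
  have hMW : 0 < M / W := by positivity
  rw [le_div_iff₀ hB0] at hVA
  have hY4 : (Y : ℝ) ≤ X := by linarith
  have hT : (1 - ε / 2) * A * N1 ≤ ∑ n ∈ Icc 1 ⌊3 * X⌋₊, nu X W r n * thH H n := by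
    refine le_trans ?_ r1
    have hMφ : 0 < M / W.totient := by rw [hφ]; positivity
    have hAM : A * (M / W) ≤ (V - 80) * (M / W.totient) := by
      rw [hφ]
      calc A * (M / W) = (A * B) * (M / (W * B)) := by field_simp
        _ ≤ (V - 80) * (M / (W * B)) := mul_le_mul_of_nonneg_right hVA (by positivity)
    have h1 : (1 - ε / 2 / 4) * (A * (M / W)) ≤ (1 - ε / 2 / 4) * ((V - 80) * (M / W.totient)) :=
      mul_le_mul_of_nonneg_left hAM (by linarith)
    have h2 : (1 - ε / 2 / 4) * ((V - 80) * (M / W.totient)) ≤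
        (1 - ε / 2 / 4) * (V * (M / W.totient)) - 40 * (M / W.totient) := by
      nlinarith only [hMφ, hε1, hε]
    have h3 : (1 - ε / 2) * A * N1 ≤ (1 - ε / 2 / 4) * (A * (M / W)) := by
      have h4 : (1 - ε / 2) * A * N1 ≤ (1 - ε / 2) * A * ((1 + ε / 2 / 4) * (M / W)) := by
        apply mul_le_mul_of_nonneg_left r4
        have : 0 ≤ 1 - ε / 2 := by linarith
        positivity
      have h5 : (1 - ε / 2) * (1 + ε / 2 / 4) ≤ 1 - ε / 2 / 4 := by nlinarith only [hε]
      have h6 : 0 ≤ A * (M / W) := by positivity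
      calc _ ≤ (1 - ε / 2) * A * ((1 + ε / 2 / 4) * (M / W)) := h4
        _ = ((1 - ε / 2) * (1 + ε / 2 / 4)) * (A * (M / W)) := by ring
        _ ≤ _ := by gcongr
    linarith
  set g : ℕ → ℝ := fun n => if n ≡ r [MOD W] then thH H n else 0 with hg
  have hgs : ∑ n ∈ Icc 1 ⌊3 * X⌋₊, nu X W r n * g n = ∑ n ∈ Icc 1 ⌊3 * X⌋₊, nu X W r n * thH H n := by
    apply Finset.sum_congr rfl
    intro n _
    rw [hg]
    simp only
    split_ifs with h
    · rfl
    · unfold nu
      rw [if_neg h, zero_mul, zero_mul]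
  have hgK : ∀ n : ℕ, X < n → (n : ℝ) < 3 * X → g n ≤ 2 * (Real.log X) ^ (k + 1) := by
    intro n hn1 hn2
    rw [hg]
    simp only
    split_ifs
    · refine (thH_le H Y n hH (4 * X) (by linarith)).trans ?_
      have h1 : (cP H n : ℝ) ≤ Y := by exact_mod_cast cP_le H Y n hH
      calc Real.log (4 * X) * cP H n ≤ (2 * Real.log X) * (Real.log X) ^ k := by
            apply mul_le_mul hl4 (h1.trans hY) (Nat.cast_nonneg _) (by linarith)
        _ = _ := by ring
    · positivity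
  have hcnt := count_many X hXpos W r g A ε N1 (2 * (Real.log X) ^ (k + 1)) hA hε hε1.le hgK rfl
    (by rw [hgs]; exact hT)
  have hsub : rowset X (fun n => (1 - ε) * A ≤ g n) ⊆
      rowset X (fun n => n ≡ r [MOD W] ∧ (1 - ε) * A ≤ Real.log (4 * X) * cP H n) := by
    intro n hn
    obtain ⟨m1, m2, m3, m4⟩ := mem_rowset.1 hn
    have hmod : n ≡ r [MOD W] := by
      by_contra hmod
      rw [hg] at m4
      simp only [if_neg hmod] at m4
      have : 0 < (1 - ε) * A := mul_pos (by linarith) (by linarith)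
      linarith
    refine mem_rowset.2 ⟨m1, m2, m3, hmod, ?_⟩
    have m5 : (1 - ε) * A ≤ thH H n := by
      rw [hg] at m4
      simpa only [if_pos hmod] using m4
    exact m5.trans (thH_le H Y n hH (4 * X) (by linarith))
  have h1 : ((rowset X (fun n => (1 - ε) * A ≤ g n)).card : ℝ) ≤
      ((rowset X (fun n => n ≡ r [MOD W] ∧ (1 - ε) * A ≤ Real.log (4 * X) * cP H n)).card : ℝ) := by
    exact_mod_cast Finset.card_le_card hsub
  have hK : 0 ≤ 2 * (Real.log X) ^ (k + 1) := by positivity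
  refine le_trans ?_ (hcnt.trans (mul_le_mul_of_nonneg_left h1 hK))
  have h2 := N1_ge hX40 z S ps (ε / 2 / 4) N1 (by linarith) r3
  have h3 : 0 < X * Real.exp (-(3 / 2 * z)) := by positivity
  calc ε / 200 * (X * Real.exp (-(3 / 2 * z))) ≤ ε / 2 * (X * Real.exp (-(3 / 2 * z)) / 40) := by
        rw [show ε / 2 * (X * Real.exp (-(3 / 2 * z)) / 40) = ε / 80 * (X * Real.exp (-(3 / 2 * z))) by ring]
        apply mul_le_mul_of_nonneg_right _ h3.le
        linarith
    _ ≤ ε / 2 * N1 := by gcongr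

end Pool.Agent.H560.MQ
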