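import Pool.Agent.H560.MQ.Sigma

/-!
The sizes of the parameters.
-/

set_option autoImplicit false

open Finset Filter Topology
open Pool.Agent.H378R2 Pool.Agent.H510R2.Maier Pool.Agent.T2H52.MG
open Pool.Agent.R529.LD (ev_rpow ratio_one)
open Pool.Agent.R529.BU (ev_pow_le)

namespace Pool.Agent.H560.MQ

/-- the bound for the primes of the modulus -/
noncomputable def zL (θ L : ℝ) : ℕ := ⌊1 / 4 * L ^ θ⌋₊

/-- the number of the classes -/
noncomputable def RL (t L : ℝ) : ℕ := ⌊L ^ t⌋₊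

theorem zL_le (θ L : ℝ) (hL : 0 ≤ L) : (zL θ L : ℝ) ≤ 1 / 4 * L ^ θ :=
  Nat.floor_le (by positivity)

theorem zL_top (θ : ℝ) (hθ : 0 < θ) : Tendsto (fun L => zL θ L) atTop atTop :=
  tendsto_nat_floor_atTop.comp ((tendsto_rpow_atTop hθ).const_mul_atTop (by norm_num))

theorem scales (t θ u η δ : ℝ) (hθ : 0 < θ) (hθ1 : θ < 1) (ht : 1 < t) (hu : u = t / θ) (hη : 0 < η) (hη1 : η < u - 1)
    (hδ : 0 < δ) : ∀ᶠ L : ℝ in atTop, (zL θ L : ℝ) ^ (u - η) + 1 ≤ δ * RL t L ∧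
      4 * (RL t L : ℝ) ≤ (zL θ L : ℝ) ^ (u + η) ∧ (zL θ L : ℝ) + 1 ≤ δ * RL t L ∧ (zL θ L : ℝ) ≤ L / 1100 ∧
      L ^ t / 2 ≤ RL t L ∧ (1 : ℝ) ≤ RL t L := by
  have huθ : θ * u = t := by rw [hu]; field_simp
  have hut : 1 < u := by rw [hu, lt_div_iff₀ hθ]; linarith
  have e1 := ev_rpow (t - θ * η) t (4 / δ) (by nlinarith)
  have e2 := ev_rpow t (t + θ * η) (4 * 8 ^ (u + η)) (by nlinarith)
  have e3 := ev_rpow θ t (4 / δ) (by linarith)
  have e4 := ev_rpow θ 1 1100 hθ1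
  have e5 := (tendsto_rpow_atTop (show 0 < t by linarith)).eventually_ge_atTop (max 2 (4 / δ))
  have e6 := (tendsto_rpow_atTop hθ).eventually_ge_atTop 8
  filter_upwards [e1, e2, e3, e4, e5, e6, eventually_ge_atTop (1 : ℝ)] with L g1 g2 g3 g4 g5 g6 g7
  have hL0 : 0 < L := lt_of_lt_of_le one_pos g7
  have h2 : (2 : ℝ) ≤ L ^ t := (le_max_left _ _).trans g5
  have h3 : 4 / δ ≤ L ^ t := (le_max_right _ _).trans g5
  have hLt : 0 < L ^ t := by positivity
  have hLθ : 0 < L ^ θ := by positivity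
  have hR1 : L ^ t / 2 ≤ RL t L := by
    have := (Nat.lt_floor_add_one (L ^ t)).le
    unfold RL
    linarith
  have hR2 : (RL t L : ℝ) ≤ L ^ t := Nat.floor_le hLt.le
  have hz1 := zL_le θ L hL0.le
  have hz2 : 1 / 8 * L ^ θ ≤ zL θ L := by
    have := (Nat.lt_floor_add_one (1 / 4 * L ^ θ)).le
    unfold zL
    linarith
  have hz0 : 0 ≤ (zL θ L : ℝ) := Nat.cast_nonneg _
  rw [div_mul_eq_mul_div, div_le_iff₀ hδ] at g1 g3
  rw [div_le_iff₀ hδ] at h3
  rw [Real.rpow_one] at g4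
  have hδR : δ * (L ^ t / 2) ≤ δ * RL t L := by gcongr
  refine ⟨?_, ?_, ?_, ?_, hR1, ?_⟩
  · have h4 : (zL θ L : ℝ) ^ (u - η) ≤ L ^ (t - θ * η) := by
      calc (zL θ L : ℝ) ^ (u - η) ≤ (L ^ θ) ^ (u - η) := by
            apply Real.rpow_le_rpow hz0 (by linarith) (by linarith)
        _ = L ^ (t - θ * η) := by
            rw [← Real.rpow_mul hL0.le]
            congr 1
            rw [mul_sub, huθ]
    nlinarith
  · have h4 : L ^ (t + θ * η) ≤ 8 ^ (u + η) * (zL θ L : ℝ) ^ (u + η) := by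
      rw [← Real.mul_rpow (by norm_num) hz0]
      calc L ^ (t + θ * η) = (L ^ θ) ^ (u + η) := by
            rw [← Real.rpow_mul hL0.le]
            congr 1
            rw [mul_add, huθ]
        _ ≤ _ := by
            apply Real.rpow_le_rpow hLθ.le (by linarith) (by linarith)
    have h5 : (0 : ℝ) < 8 ^ (u + η) := by positivity
    have h6 : 8 ^ (u + η) * (4 * (RL t L : ℝ)) ≤ 8 ^ (u + η) * (zL θ L : ℝ) ^ (u + η) := by
      calc 8 ^ (u + η) * (4 * (RL t L : ℝ)) ≤ 8 ^ (u + η) * (4 * L ^ t) := by gcongr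
        _ = 4 * 8 ^ (u + η) * L ^ t := by ring
        _ ≤ _ := g2.trans h4
    exact le_of_mul_le_mul_left h6 h5
  · nlinarith
  · linarith
  · linarith

/-- the lengths of the windows -/
theorem lens (t c : ℝ) (ht : 1 < t) (k : ℕ) (hk : t < k) : ∀ᶠ L : ℝ in atTop,
    (L + c) ^ t ≤ 3 * (RL t L : ℝ) ∧ (L + c) ^ t ≤ L ^ k ∧ L ^ t ≤ (L + c) ^ t * 2 := by
  have h1 := ratio_one t t c rfl
  have h2 := h1.eventually (Ioo_mem_nhds (show (1 / 2 : ℝ) < 1 by norm_num) (show (1 : ℝ) < 3 / 2 by norm_num))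
  have h3 := (tendsto_rpow_atTop (show 0 < t by linarith)).eventually_ge_atTop 2
  filter_upwards [h2, h3, ev_rpow t k (3 / 2) hk, eventually_ge_atTop (1 : ℝ)] with L g1 g2 g3 g4
  have hL0 : 0 < L := by linarith
  have hLt : 0 < L ^ t := by positivity
  obtain ⟨g5, g6⟩ := g1
  rw [lt_div_iff₀ hLt] at g5
  rw [div_lt_iff₀ hLt] at g6
  rw [Real.rpow_natCast] at g3
  have hR1 : L ^ t / 2 ≤ RL t L := by
    have := (Nat.lt_floor_add_one (L ^ t)).le
    unfold RL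
    linarith
  refine ⟨by linarith, by linarith, by linarith⟩

/-- the number of the rows is large -/
theorem rows_big (θ : ℝ) (hθ : 0 < θ) (hθ1 : θ < 1) (k : ℕ) (c : ℝ) (hc : 0 < c) : ∀ᶠ L : ℝ in atTop,
    2 * L ^ (k + 1) * Real.exp (-(1 / 2 * L ^ θ)) ≤ c * Real.exp (-(3 / 2 * zL θ L)) := by
  have h1 := isLittleO_rpow_exp_pos_mul_atTop ((k + 1 : ℝ) / θ) (show (0 : ℝ) < 1 / 8 by norm_num)
  have h2 := (h1.comp_tendsto (tendsto_rpow_atTop hθ)).def (show 0 < c / 2 by positivity)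
  filter_upwards [h2, eventually_ge_atTop (1 : ℝ)] with L g1 g2
  have hL0 : 0 < L := by linarith
  simp only [Function.comp] at g1
  have h5 : (L ^ θ) ^ ((k + 1 : ℝ) / θ) = L ^ (k + 1) := by
    rw [← Real.rpow_mul hL0.le, ← Real.rpow_natCast]
    congr 1
    push_cast
    field_simp
  rw [h5, Real.norm_eq_abs, abs_of_nonneg (by positivity), Real.norm_eq_abs, abs_of_nonneg (Real.exp_pos _).le] at g1
  have hz := zL_le θ L hL0.le
  calc 2 * L ^ (k + 1) * Real.exp (-(1 / 2 * L ^ θ)) ≤ 2 * (c / 2 * Real.exp (1 / 8 * L ^ θ)) * Real.exp (-(1 / 2 * L ^ θ)) := by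
        gcongr
    _ = c * Real.exp (-(3 / 8 * L ^ θ)) := by
        rw [show 2 * (c / 2 * Real.exp (1 / 8 * L ^ θ)) * Real.exp (-(1 / 2 * L ^ θ)) =
          c * (Real.exp (1 / 8 * L ^ θ) * Real.exp (-(1 / 2 * L ^ θ))) by ring, ← Real.exp_add]
        congr 2
        ring
    _ ≤ c * Real.exp (-(3 / 2 * zL θ L)) := by
        apply mul_le_mul_of_nonneg_left _ hc.le
        apply Real.exp_le_exp.2
        linarith

/-- the contribution of the weight -/
theorem weight_ev (θ : ℝ) (hθ : 0 < θ) (hθ1 : θ < 1) (ε : ℝ) (hε : 0 < ε) : ∀ᶠ X : ℝ in atTop,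
    ∀ W : ℝ, 0 < W → W ≤ Real.exp (3 / 2 * zL θ (Real.log X)) →
      36 * X / (W * zL θ (Real.log X)) + 27 * ((⌊(Real.log X) ^ 2⌋₊ : ℕ) : ℝ) ^ 3 + 27 ≤ ε / 4 * (X / 20 / (2 * W)) := by
  have hlt := Real.tendsto_log_atTop
  have hz : Tendsto (fun L : ℝ => (zL θ L : ℝ)) atTop atTop := tendsto_natCast_atTop_atTop.comp (zL_top θ hθ)
  have e1 := hlt.eventually (hz.eventually_ge_atTop (max 1 (36 * 320 / ε)))
  have e2 : ∀ᶠ L : ℝ in atTop, L ^ 6 ≤ Real.exp (1 / 4 * L) := by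
    have h1 := isLittleO_pow_exp_pos_mul_atTop 6 (show (0 : ℝ) < 1 / 4 by norm_num)
    filter_upwards [h1.def one_pos, eventually_ge_atTop (0 : ℝ)] with L g1 g2
    rw [Real.norm_eq_abs, abs_of_nonneg (by positivity), Real.norm_eq_abs, abs_of_nonneg (Real.exp_pos _).le, one_mul] at g1
    exact g1
  have e3 : ∀ᶠ L : ℝ in atTop, 54 * 320 / ε ≤ Real.exp (1 / 4 * L) :=
    (Real.tendsto_exp_atTop.comp (tendsto_id.const_mul_atTop (show (0 : ℝ) < 1 / 4 by norm_num))).eventually_ge_atTop _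
  have e4 := hlt.eventually (ev_rpow θ 1 2 hθ1)
  filter_upwards [e1, hlt.eventually e2, hlt.eventually e3, e4, hlt.eventually_ge_atTop (1 : ℝ), eventually_gt_atTop (0 : ℝ)]
    with X g1 g2 g3 g4 g5 g6
  intro W hW hWle
  set L := Real.log X with hL
  set z := zL θ L with hzdef
  have hexp : Real.exp L = X := Real.exp_log g6
  have hz1 : (1 : ℝ) ≤ z := (le_max_left _ _).trans g1
  have hz2 : 36 * 320 / ε ≤ z := (le_max_right _ _).trans g1
  rw [div_le_iff₀ hε] at hz2 g3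
  have hz0 : (0 : ℝ) < z := by linarith
  rw [Real.rpow_one] at g4
  have hzL : (z : ℝ) ≤ 1 / 8 * L := by
    have := zL_le θ L (by linarith)
    linarith
  have hf : ((⌊L ^ 2⌋₊ : ℕ) : ℝ) ≤ L ^ 2 := Nat.floor_le (by positivity)
  have hf3 : ((⌊L ^ 2⌋₊ : ℕ) : ℝ) ^ 3 ≤ L ^ 6 := by
    calc ((⌊L ^ 2⌋₊ : ℕ) : ℝ) ^ 3 ≤ (L ^ 2) ^ 3 := by gcongr
      _ = L ^ 6 := by ring
  have hL6 : 1 ≤ L ^ 6 := one_le_pow₀ g5
  have hXW : 0 < X / W := by positivity
  have a1 : 36 * X / (W * z) ≤ ε / 320 * (X / W) := by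
    have : 36 * X / (W * z) = 36 / z * (X / W) := by field_simp
    rw [this]
    apply mul_le_mul_of_nonneg_right _ hXW.le
    rw [div_le_div_iff₀ hz0 (by norm_num)]
    linarith
  have a2 : 27 * ((⌊L ^ 2⌋₊ : ℕ) : ℝ) ^ 3 + 27 ≤ ε / 320 * (X / W) := by
    have b1 : X / W ≥ Real.exp (3 / 4 * L) := by
      rw [ge_iff_le, le_div_iff₀ hW, ← hexp]
      calc Real.exp (3 / 4 * L) * W ≤ Real.exp (3 / 4 * L) * Real.exp (3 / 2 * z) := by gcongr
        _ = Real.exp (3 / 4 * L + 3 / 2 * z) := by rw [Real.exp_add]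
        _ ≤ Real.exp L := Real.exp_le_exp.2 (by linarith)
    have b2 : Real.exp (3 / 4 * L) = Real.exp (1 / 4 * L) * (Real.exp (1 / 4 * L) * Real.exp (1 / 4 * L)) := by
      rw [← Real.exp_add, ← Real.exp_add]; congr 1; ring
    have b3 : 1 ≤ Real.exp (1 / 4 * L) := Real.one_le_exp (by positivity)
    have b4 : 54 * L ^ 6 ≤ ε / 320 * (X / W) := by
      calc 54 * L ^ 6 ≤ (ε / 320 * Real.exp (1 / 4 * L)) * Real.exp (1 / 4 * L) := by
            apply mul_le_mul _ g2 (by positivity) (by positivity)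
            linarith
        _ ≤ (ε / 320 * Real.exp (1 / 4 * L)) * (Real.exp (1 / 4 * L) * Real.exp (1 / 4 * L)) := by
            apply mul_le_mul_of_nonneg_left _ (by positivity)
            exact le_mul_of_one_le_right (Real.exp_pos _).le b3
        _ = ε / 320 * Real.exp (3 / 4 * L) := by rw [b2]; ring
        _ ≤ ε / 320 * (X / W) := by gcongr
    linarith
  have a3 : ε / 4 * (X / 20 / (2 * W)) = ε / 320 * (X / W) + ε / 320 * (X / W) := by field_simp; ring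
  rw [a3]
  linarith

end Pool.Agent.H560.MQ
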