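import Pool.Agent.H560.MQ.VF

/-!
The versions for sums: the classes and the weights are shifted.
-/

set_option autoImplicit false

open Finset Filter Topology
open Pool.Agent.H378R2 Pool.Agent.H510R2.Maier Pool.Agent.T2H52.MG
open Pool.Agent.R529.LD (ev_rpow ratio_one)
open Pool.Agent.R529.BU (pi_real)

namespace Pool.Agent.H560.MQ

/-- the sum of the singular series over the classes, shifted -/
theorem sigma_shift (ε : ℝ) (hε : 0 < ε) (hε1 : ε ≤ 1) : ∃ Z2 : ℕ, ∀ᶠ X : ℝ in atTop, ∀ (ps : ℕ) (S : Finset ℕ) (z Z : ℕ),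
    Z2 + 2 ≤ Z → Z2 + 2 ≤ z → GoodP Z ps → GoodS X S → z ≤ yy X →
      (2 ∣ WZ X z S ps) ∧ ∀ a R : ℕ, (z : ℝ) + 1 ≤ ε / 16 * R →
        (1 - ε) * (R : ℝ) ≤ ∑ r ∈ Icc 1 R, (if Even (r + a) then 2 * C₂ * fQ (QZ X z S ps) (r + a) else 0) ∧
        ∑ r ∈ Icc 1 R, (if Even (r + a) then 2 * C₂ * fQ (QZ X z S ps) (r + a) else 0) ≤ (1 + ε) * (R : ℝ) := by
  classical
  obtain ⟨δ, hδ⟩ : ∃ δ : ℝ, δ = ε / 16 := ⟨_, rfl⟩
  have hδ0 : 0 < δ := by rw [hδ]; positivity
  have hδ1 : δ ≤ 1 / 16 := by rw [hδ]; linarith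
  obtain ⟨Z2, hZ2⟩ := C₂_near δ hδ0
  refine ⟨Z2, ?_⟩
  filter_upwards [small_mem Z2] with X h0
  intro ps S z Z hZ hz hps hS hzy
  have hsmall := h0 ps S z Z hZ hz hps hS hzy
  refine ⟨prime_dvd_WZ (hsmall 2 Nat.prime_two (by omega)), fun a R hR => ?_⟩
  have d1 := avg_fQ (Q := QZ X z S ps) (z := z) (fun q hq => QZ_prop hq) (a + R)
  have d1' := avg_fQ (Q := QZ X z S ps) (z := z) (fun q hq => QZ_prop hq) a
  have d2 := prod_Q_ge (Q := QZ X z S ps) (z := z) (fun q hq => QZ_prop hq)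
  have d3 : ∏ q ∈ QZ X z S ps, cf q ≤ C₂ + δ := by
    refine (prod_Q_le (Z := Z2) (fun q hq => (QZ_prop hq).2.1) ?_).trans hZ2.le
    intro q hq h3 hqZ
    exact mem_filter.2 ⟨hsmall q hq (by omega), h3⟩
  set f := fQ (QZ X z S ps) with hf
  have hsplit : ∑ s ∈ (Icc 1 (a + R)).filter Even, f s = ∑ s ∈ (Icc 1 a).filter Even, f s +
      ∑ r ∈ Icc 1 R, (if Even (r + a) then f (r + a) else 0) := by
    rw [Finset.sum_filter, Finset.sum_filter]
    have h1 : Icc 1 (a + R) = Icc 1 a ∪ (Icc 1 R).image (fun r => r + a) := by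
      ext s
      rw [mem_union, mem_image, mem_Icc, mem_Icc]
      constructor
      · intro h
        rcases le_or_gt s a with h2 | h2
        · left; omega
        · right; exact ⟨s - a, mem_Icc.2 ⟨by omega, by omega⟩, by omega⟩
      · rintro (h | ⟨r, hr, rfl⟩)
        · omega
        · rw [mem_Icc] at hr; omega
    rw [h1, Finset.sum_union, Finset.sum_image]
    · intro x _ y _ hxy
      simpa using hxy
    · rw [Finset.disjoint_left]
      intro s hs hs'
      obtain ⟨r, hr, rfl⟩ := mem_image.1 hs'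
      rw [mem_Icc] at hs hr
      omega
  have hmul : ∑ r ∈ Icc 1 R, (if Even (r + a) then 2 * C₂ * f (r + a) else 0) =
      2 * C₂ * ∑ r ∈ Icc 1 R, (if Even (r + a) then f (r + a) else 0) := by
    rw [Finset.mul_sum]
    apply Finset.sum_congr rfl
    intro r _
    split_ifs
    · rfl
    · rw [mul_zero]
  rw [hmul]
  rw [hsplit] at d1
  set T := ∑ r ∈ Icc 1 R, (if Even (r + a) then f (r + a) else 0) with hT
  set P := ∏ q ∈ QZ X z S ps, cf q with hP
  have hC := C₂_ge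
  have hC1 := C₂_le_one
  have hP0 : 0 < P := by linarith
  have hR0 : (0 : ℝ) ≤ R := Nat.cast_nonneg _
  have d4 : (z : ℝ) + 1 ≤ δ * R := by rw [hδ]; exact hR
  rw [abs_le] at d1 d1'
  push_cast at d1
  have hPP : ((a : ℝ) + R) / 2 * P⁻¹ = (a : ℝ) / 2 * P⁻¹ + (R : ℝ) / 2 * P⁻¹ := by ring
  rw [hPP] at d1
  have g1 : T - (R : ℝ) / 2 * P⁻¹ ≤ 2 * δ * R := by linarith [d1.2, d1'.1]
  have g2 : -(2 * δ * R) ≤ T - (R : ℝ) / 2 * P⁻¹ := by linarith [d1.1, d1'.2]
  have e1 : C₂ * P⁻¹ ≤ 1 := by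
    rw [← div_eq_mul_inv, div_le_one hP0]; exact d2
  have e2 : 1 - 2 * δ ≤ C₂ * P⁻¹ := by
    rw [← div_eq_mul_inv, le_div_iff₀ hP0]
    nlinarith
  have e3 : 2 * C₂ * ((R : ℝ) / 2 * P⁻¹) = (C₂ * P⁻¹) * R := by ring
  have e4 : (1 - 2 * δ) * R ≤ (C₂ * P⁻¹) * R := by gcongr
  have e5 : (C₂ * P⁻¹) * R ≤ 1 * R := by gcongr
  have e6 : 2 * C₂ * (T - (R : ℝ) / 2 * P⁻¹) ≤ 2 * C₂ * (2 * δ * R) := by
    apply mul_le_mul_of_nonneg_left g1 (by linarith)
  have e7 : 2 * C₂ * (-(2 * δ * R)) ≤ 2 * C₂ * (T - (R : ℝ) / 2 * P⁻¹) := by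
    apply mul_le_mul_of_nonneg_left g2 (by linarith)
  have e8 : 2 * C₂ * (2 * δ * R) ≤ 4 * δ * R := by
    have : 0 ≤ 2 * δ * R := by positivity
    nlinarith
  have e9 : 16 * δ * R = ε * R := by rw [hδ]; ring
  constructor
  · nlinarith
  · nlinarith

theorem GX_sum_shift (X : ℝ) (hX : 0 ≤ X) (a z D W r : ℕ) (ha : (a : ℝ) ≤ X) (hz : 12 ≤ z) (hW : 0 < W)
    (hco : ∀ p ∈ MP z D, W.Coprime p) :
    ∑ n ∈ Icc 1 ⌊3 * X⌋₊, nu X W r n * GX z D (n + a) ≤ 48 * X / (W * z) + 27 * (D : ℝ) ^ 3 + 27 := by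
  classical
  have hW0 : (0 : ℝ) < W := by exact_mod_cast hW
  have hz12 : (12 : ℝ) ≤ z := by exact_mod_cast hz
  have hP : ∀ p ∈ MP z D, p.Prime := fun p hp => (mem_filter.1 hp).2
  have hPz : ∀ p ∈ MP z D, (12 : ℝ) ≤ p := by
    intro p hp
    have h1 : z < p := (mem_Ioc.1 (mem_filter.1 hp).1).1
    have : (z : ℝ) ≤ p := by exact_mod_cast h1.le
    linarith
  set f : ℕ → ℝ := fun p => Real.exp (3 / p) - 1 with hf
  have hf0 : ∀ p, 0 ≤ f p := by
    intro p
    have : 0 ≤ 3 / (p : ℝ) := by positivity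
    have := Real.one_le_exp this
    rw [hf]
    simp only
    linarith
  have hGXf : ∀ n, GX z D n = ∏ p ∈ (MP z D).filter (fun p => p ∣ n), (1 + f p) - 1 := by
    intro n
    unfold GX
    rw [Real.exp_sum]
    congr 1
    apply Finset.prod_congr rfl
    intro p _
    rw [hf]
    ring
  have h1 : ∑ n ∈ Icc 1 ⌊3 * X⌋₊, nu X W r n * GX z D (n + a) ≤
      ∑ n ∈ (Icc 1 (⌊3 * X⌋₊ + a)).filter (fun n => n ≡ r + a [MOD W]),
        (∏ p ∈ (MP z D).filter (fun p => p ∣ n), (1 + f p) - 1) := by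
    have h2 : ∑ n ∈ Icc 1 ⌊3 * X⌋₊, nu X W r n * GX z D (n + a) ≤
        ∑ n ∈ (Icc 1 ⌊3 * X⌋₊).filter (fun n => n ≡ r [MOD W]), GX z D (n + a) := by
      rw [Finset.sum_filter]
      apply Finset.sum_le_sum
      intro n _
      split_ifs with h
      · have h3 := nu_le_one X W r n
        have h4 := GX_nonneg z D (n + a)
        have h5 := nu_nonneg X W r n
        nlinarith
      · unfold nu
        rw [if_neg h, zero_mul]
    refine h2.trans ?_
    have h3 : ∑ n ∈ (Icc 1 ⌊3 * X⌋₊).filter (fun n => n ≡ r [MOD W]), GX z D (n + a) =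
        ∑ m ∈ ((Icc 1 ⌊3 * X⌋₊).filter (fun n => n ≡ r [MOD W])).image (fun n => n + a), GX z D m := by
      rw [Finset.sum_image]
      intro x _ y _ hxy
      simpa using hxy
    rw [h3]
    have h4 : ∑ n ∈ (Icc 1 (⌊3 * X⌋₊ + a)).filter (fun n => n ≡ r + a [MOD W]),
        (∏ p ∈ (MP z D).filter (fun p => p ∣ n), (1 + f p) - 1) =
        ∑ n ∈ (Icc 1 (⌊3 * X⌋₊ + a)).filter (fun n => n ≡ r + a [MOD W]), GX z D n :=
      Finset.sum_congr rfl fun n _ => (hGXf n).symm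
    rw [h4]
    apply Finset.sum_le_sum_of_subset_of_nonneg
    · intro m hm
      obtain ⟨n, hn, rfl⟩ := mem_image.1 hm
      rw [mem_filter, mem_Icc] at hn ⊢
      exact ⟨⟨by omega, by omega⟩, hn.2.add_right a⟩
    · intro m _ _
      exact GX_nonneg z D m
  refine h1.trans ((row_excess (MP z D) hP f hf0 W (r + a) (⌊3 * X⌋₊ + a) hW hco).trans ?_)
  have hN : ((⌊3 * X⌋₊ + a : ℕ) : ℝ) ≤ 4 * X := by
    push_cast
    have := Nat.floor_le (show 0 ≤ 3 * X by linarith)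
    linarith
  have a1 : ∏ p ∈ MP z D, (1 + f p / p) - 1 ≤ 12 / z := by
    have h2 : ∏ p ∈ MP z D, (1 + f p / p) ≤ Real.exp (6 / z) := by
      calc ∏ p ∈ MP z D, (1 + f p / p) ≤ ∏ p ∈ MP z D, Real.exp (6 * (1 / (p : ℝ) ^ 2)) := by
            apply Finset.prod_le_prod
            · intro p hp
              have := hf0 p
              positivity
            · intro p hp
              have h3 := hPz p hp
              have h4 : f p ≤ 2 * (3 / p) := exp_sub_le (by positivity) (by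
                rw [div_le_one (by linarith)]; linarith)
              have h5 : f p / p ≤ 6 * (1 / (p : ℝ) ^ 2) := by
                calc f p / p ≤ (2 * (3 / p)) / p := by gcongr
                  _ = _ := by field_simp; norm_num
              have h6 := Real.add_one_le_exp (6 * (1 / (p : ℝ) ^ 2))
              linarith
        _ = Real.exp (6 * ∑ p ∈ MP z D, 1 / (p : ℝ) ^ 2) := by
            rw [← Real.exp_sum, Finset.mul_sum]
        _ ≤ Real.exp (6 / z) := by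
            apply Real.exp_le_exp.2
            have := sum_inv_sq z D (by omega)
            calc (6 : ℝ) * ∑ p ∈ MP z D, 1 / (p : ℝ) ^ 2 ≤ 6 * (1 / z) := by gcongr
              _ = 6 / z := by ring
    have h3 : Real.exp (6 / z) - 1 ≤ 2 * (6 / z) := exp_sub_le (by positivity) (by
      rw [div_le_one (by linarith)]; linarith)
    have h4 : 2 * (6 / (z : ℝ)) = 12 / z := by ring
    linarith
  have a2 : ∏ p ∈ MP z D, (1 + f p) ≤ 27 * (D : ℝ) ^ 3 + 27 := by
    have h2 : ∏ p ∈ MP z D, (1 + f p) = Real.exp (3 * ∑ p ∈ MP z D, 1 / (p : ℝ)) := by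
      rw [Finset.mul_sum, Real.exp_sum]
      apply Finset.prod_congr rfl
      intro p _
      rw [hf]
      simp only
      rw [mul_one_div]
      ring
    rw [h2]
    have he3 : Real.exp 3 ≤ 27 := by
      have h3 := Real.exp_one_lt_d9
      have h4 : Real.exp 3 = Real.exp 1 ^ 3 := by rw [← Real.exp_nat_mul]; norm_num
      rw [h4]
      calc Real.exp 1 ^ 3 ≤ 3 ^ 3 := pow_le_pow_left₀ (Real.exp_pos 1).le (by linarith) 3
        _ = 27 := by norm_num
    rcases Nat.eq_zero_or_pos D with h0 | h0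
    · subst h0
      have : MP z 0 = ∅ := by
        unfold MP
        rw [Finset.Ioc_eq_empty (by omega), Finset.filter_empty]
      rw [this]
      simp
    · have hD1 : (0 : ℝ) < D := by exact_mod_cast h0
      calc Real.exp (3 * ∑ p ∈ MP z D, 1 / (p : ℝ)) ≤ Real.exp (3 * (1 + Real.log D)) := by
            apply Real.exp_le_exp.2
            have := sum_inv z D
            linarith
        _ = Real.exp 3 * (D : ℝ) ^ 3 := by
            rw [mul_add, mul_one, Real.exp_add, show (3 : ℝ) * Real.log D = Real.log D * ((3 : ℕ) : ℝ) by push_cast; ring,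
              Real.exp_mul, Real.exp_log hD1, Real.rpow_natCast]
        _ ≤ 27 * (D : ℝ) ^ 3 := by gcongr
        _ ≤ _ := by linarith
  have a3 : ((⌊3 * X⌋₊ + a : ℕ) : ℝ) / W * (∏ p ∈ MP z D, (1 + f p / p) - 1) ≤ 48 * X / (W * z) := by
    calc ((⌊3 * X⌋₊ + a : ℕ) : ℝ) / W * (∏ p ∈ MP z D, (1 + f p / p) - 1) ≤ ((⌊3 * X⌋₊ + a : ℕ) : ℝ) / W * (12 / z) := by
          apply mul_le_mul_of_nonneg_left a1 (by positivity)
      _ ≤ 4 * X / W * (12 / z) := by gcongr
      _ = _ := by field_simp; ring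
  linarith

end Pool.Agent.H560.MQ
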