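import Pool.Agent.H560.MQ.Phi

/-!
The number of the integers up to `T` prime to the modulus, divided by the density.
-/

set_option autoImplicit false

open Finset Filter Topology
open Pool.Agent.H378R2 Pool.Agent.H510R2.Maier Pool.Agent.T2H52.MG
open Pool.Agent.R529.BU (om om_cont om_ge om_le QA_all RR_crude GG_le_RR)

namespace Pool.Agent.H560.MQ

theorem QQ_inv_le : ∃ z0 : ℝ, ∀ z : ℕ, z0 ≤ z → (QQ z)⁻¹ ≤ 3 * Real.log z := by
  have h1 := QQ_real.eventually_lt_const (show Real.exp Real.eulerMascheroniConstant < 3 by linarith [E_le])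
  obtain ⟨z0, hz0⟩ := eventually_atTop.1 (h1.and (eventually_gt_atTop (1 : ℝ)))
  refine ⟨z0, fun z hz => ?_⟩
  obtain ⟨h2, h3⟩ := hz0 z hz
  rw [Nat.floor_natCast, div_lt_iff₀ (Real.log_pos h3)] at h2
  exact h2.le

theorem BURR_le_RR {X : ℝ} {z : ℕ} (S : Finset ℕ) (ps T : ℕ) :
    (Pool.Agent.R529.BU.RR T z).card ≤ RR (WZ X z S ps) T := by
  unfold Pool.Agent.T2H52.MG.RR
  apply Finset.card_le_card
  intro m hm
  have h1 := Pool.Agent.R529.BU.mem_RR.1 hm
  rw [Finset.mem_filter, Finset.mem_Icc]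
  rw [Nat.floor_natCast] at h1
  refine ⟨h1.1, ?_⟩
  by_contra hcon
  rw [Nat.Prime.not_coprime_iff_dvd] at hcon
  obtain ⟨p, hp, hp1, hp2⟩ := hcon
  have h2 := h1.2 p hp hp1
  have h3 := PZ_le ((dvd_WZ_iff hp).1 hp2)
  have h4 : (p : ℝ) ≤ z := by exact_mod_cast h3
  linarith

theorem GG_lin (n : ℕ) (hn : 2 ≤ n) : ∃ z0 : ℝ, ∀ z : ℕ, z0 ≤ z → ∀ S : Finset ℕ, ∑ q ∈ S, (1 : ℝ) / q ≤ 6 / (Real.log z) ^ 2 →
    ∀ T : ℕ, (T : ℝ) ≤ (z : ℝ) ^ (n : ℝ) → ((GG z S T).card : ℝ) ≤ 1 + 8 / Real.log z * T := by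
  obtain ⟨z0, hz0⟩ := RR_crude n hn
  obtain ⟨z1, hz1⟩ := eventually_atTop.1 (Real.tendsto_log_atTop.eventually_ge_atTop (1 : ℝ))
  refine ⟨max z0 z1, fun z hz S hS T hT => ?_⟩
  have a1 := (le_max_left _ _).trans hz
  have a2 := (le_max_right _ _).trans hz
  have hl := hz1 z a2
  have h1 := hz0 z a1 T (Nat.cast_nonneg _) hT
  have h2 := GG_le_RR z S T
  have h3 : ∑ q ∈ S, ((T / q : ℕ) : ℝ) ≤ 6 / Real.log z * T := by
    calc ∑ q ∈ S, ((T / q : ℕ) : ℝ) ≤ ∑ q ∈ S, (T : ℝ) * (1 / q) := by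
          apply Finset.sum_le_sum
          intro q _
          refine Nat.cast_div_le.trans ?_
          rw [mul_one_div]
      _ = T * ∑ q ∈ S, (1 : ℝ) / q := by rw [Finset.mul_sum]
      _ ≤ T * (6 / Real.log z ^ 2) := by gcongr
      _ ≤ T * (6 / Real.log z) := by
          apply mul_le_mul_of_nonneg_left _ (Nat.cast_nonneg _)
          apply div_le_div_of_nonneg_left (by norm_num) (by linarith)
          nlinarith
      _ = _ := by ring
  calc ((GG z S T).card : ℝ) ≤ 1 + 2 * T / Real.log z + 6 / Real.log z * T := by linarith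
    _ = _ := by ring

theorem natlog_le (T : ℕ) : (Nat.log 2 T : ℝ) ≤ 2 * Real.log T := by
  rcases Nat.eq_zero_or_pos T with h | h
  · subst h; simp
  have h9 := Real.natLog_le_logb T 2
  have hT : (1 : ℝ) ≤ T := by exact_mod_cast h
  have hl := Real.log_nonneg hT
  have h10 : Real.logb 2 T ≤ 2 * Real.log T := by
    unfold Real.logb
    rw [div_le_iff₀ (Real.log_pos (by norm_num))]
    have := Real.log_two_gt_d9
    nlinarith
  have h11 : ((2 : ℕ) : ℝ) = 2 := by norm_num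
  rw [h11] at h9
  linarith

/-- the integers prime to the modulus -/
theorem RRW (u δ : ℝ) (hu : 1 < u) (hδ : 0 < δ) : ∃ η : ℝ, 0 < η ∧ η < u - 1 ∧ ∃ (z0 : ℝ) (Z0 : ℕ), 2 ≤ z0 ∧ 1 ≤ Z0 ∧
    ∀ (X : ℝ) (z Z ps : ℕ) (S : Finset ℕ), 1 ≤ X → z0 ≤ z → Z0 ≤ Z → z ≤ yy X → GoodP Z ps → GoodS X S →
      ∀ T : ℕ, (z : ℝ) ^ (u - η) ≤ T → (T : ℝ) ≤ (z : ℝ) ^ (u + η) →
        (cw u - δ) * T ≤ (RR (WZ X z S ps) T : ℝ) / BE (PZ X z S ps) ∧
        (RR (WZ X z S ps) T : ℝ) / BE (PZ X z S ps) ≤ (cw u + δ) * T := by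
  obtain ⟨d, hd⟩ : ∃ d : ℝ, d = min δ 1 / 8 := ⟨_, rfl⟩
  have hm : 0 < min δ 1 := lt_min hδ one_pos
  have hd0 : 0 < d := by rw [hd]; positivity
  have hd1 : d ≤ 1 / 8 := by rw [hd]; linarith [min_le_right δ 1]
  have hdδ : 8 * d ≤ δ := by rw [hd]; linarith [min_le_left δ 1]
  obtain ⟨η, hη0, hη1, z1, hz12, hz1⟩ := partA u d hu hd0
  obtain ⟨n, hn⟩ := exists_nat_gt (2 * u)
  have hn2 : 2 ≤ n := by
    have : (2 : ℝ) < n := by linarith
    have : (2 : ℕ) < n := by exact_mod_cast this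
    omega
  obtain ⟨z2, hz2⟩ := GG_lin n hn2
  obtain ⟨z3, hz3⟩ := QQ_inv_le
  have ev1 := Real.tendsto_log_atTop.eventually_ge_atTop (200 / d)
  have ev2 : ∀ᶠ x : ℝ in atTop, 3 * (2 * n + 1) * (Real.log x) ^ 2 ≤ d * x := by
    have h1 := (Real.isLittleO_pow_log_id_atTop (n := 2)).bound (show (0 : ℝ) < d / (3 * (2 * n + 1)) by positivity)
    filter_upwards [h1, eventually_ge_atTop (1 : ℝ)] with x h2 h3
    rw [id, Real.norm_of_nonneg (pow_nonneg (Real.log_nonneg h3) 2), Real.norm_of_nonneg (by linarith)] at h2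
    calc 3 * (2 * n + 1) * (Real.log x) ^ 2 ≤ 3 * (2 * n + 1) * (d / (3 * (2 * n + 1)) * x) := by gcongr
      _ = d * x := by field_simp
  obtain ⟨z4, hz4⟩ := eventually_atTop.1 (ev1.and ev2)
  refine ⟨η, hη0, hη1, max (max z1 z2) (max z3 z4), ⌈200 / d⌉₊ + 1, hz12.trans ((le_max_left _ _).trans (le_max_left _ _)),
    by omega, fun X z Z ps S hX hz hZ hzy hps hS T hT1 hT2 => ?_⟩
  have a1 : z1 ≤ z := ((le_max_left _ _).trans (le_max_left _ _)).trans hz
  have a2 : z2 ≤ z := ((le_max_right _ _).trans (le_max_left _ _)).trans hz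
  have a3 : z3 ≤ z := ((le_max_left _ _).trans (le_max_right _ _)).trans hz
  have a4 : z4 ≤ z := ((le_max_right _ _).trans (le_max_right _ _)).trans hz
  have hz2' : (2 : ℝ) ≤ z := hz12.trans a1
  have hz0 : (0 : ℝ) < z := by linarith
  have hz1' : (1 : ℝ) < z := by linarith
  obtain ⟨b1, b2⟩ := hz1 z a1 T hT1 hT2
  have b3 := hz2 z a2 S
  have b4 := hz3 z a3
  obtain ⟨b5, b6⟩ := hz4 z a4
  set ℓ := Real.log z with hℓ
  have hℓ0 : 0 < ℓ := Real.log_pos hz1'
  have hℓd : 200 ≤ ℓ * d := by rwa [div_le_iff₀ hd0] at b5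
  have hℓ1 : 1 ≤ ℓ := by nlinarith
  -- the sum over the bad set
  have hzX : ℓ ≤ Real.log (Real.log X) := by
    apply Real.log_le_log hz0
    have h1 : (z : ℝ) ≤ yy X := by exact_mod_cast hzy
    have h2 : (yy X : ℝ) ≤ Real.log X / 1000 := Nat.floor_le (div_nonneg (Real.log_nonneg hX) (by norm_num))
    have := Real.log_nonneg hX
    linarith
  have hSs : ∑ q ∈ S, (1 : ℝ) / q ≤ 6 / ℓ ^ 2 := by
    refine hS.2.trans ?_
    apply div_le_div_of_nonneg_left (by norm_num) (by positivity)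
    exact pow_le_pow_left₀ hℓ0.le hzX 2
  have hT0 : (0 : ℝ) < T := lt_of_lt_of_le (Real.rpow_pos_of_pos hz0 _) hT1
  have hTz : (z : ℝ) ≤ T := by
    refine le_trans ?_ hT1
    calc (z : ℝ) = (z : ℝ) ^ (1 : ℝ) := (Real.rpow_one _).symm
      _ ≤ _ := Real.rpow_le_rpow_of_exponent_le hz1'.le (by linarith)
  have hTn : (T : ℝ) ≤ (z : ℝ) ^ (n : ℝ) := hT2.trans (Real.rpow_le_rpow_of_exponent_le hz1'.le (by linarith))
  have b3' := b3 hSs
  set B := BE (PZ X z S ps) with hB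
  have hB0 : 0 < B := BE_pos fun p hp => PZ_prime hp
  have hQ0 : 0 < QQ z := QQ_pos z
  have hQB : QQ z ≤ B := QQ_le_BEZ S ps
  have hZ1 : (1 : ℝ) ≤ Z := by
    have : 1 ≤ Z := by omega
    exact_mod_cast this
  have hZd : 200 / d ≤ Z := by
    refine (Nat.le_ceil _).trans ?_
    have : ⌈200 / d⌉₊ ≤ Z := by omega
    exact_mod_cast this
  have hZd' : 1 / (Z : ℝ) ≤ d / 200 := by
    rw [div_le_iff₀ hd0] at hZd
    rw [div_le_div_iff₀ (by linarith) (by norm_num)]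
    linarith
  have hs6 : 6 / ℓ ^ 2 ≤ d / 8 := by
    rw [div_le_div_iff₀ (by positivity) (by norm_num)]
    nlinarith
  have hBQ := BEZ_le hzy S ps Z (by omega) hps (6 / ℓ ^ 2) hSs
  rw [← hB] at hBQ
  obtain ⟨hc1, hc2⟩ := cw_bounds u hu.le
  set C := ((Pool.Agent.R529.BU.RR T z).card : ℝ) with hC
  have hC0 : 0 ≤ C := Nat.cast_nonneg _
  have hBinv : B⁻¹ ≤ (QQ z)⁻¹ := inv_anti₀ hQ0 hQB
  constructor
  · rw [le_div_iff₀ hB0]
    have h1 : C ≤ (RR (WZ X z S ps) T : ℝ) := Nat.cast_le.2 (BURR_le_RR S ps T)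
    refine le_trans ?_ h1
    -- `B ≤ QQ / (1 - s)`
    have h2 : (cw u - d) * T * QQ z ≤ C := by
      have := mul_le_mul_of_nonneg_right b1 hQ0.le
      rwa [mul_assoc C, inv_mul_cancel₀ hQ0.ne', mul_one] at this
    refine le_trans ?_ h2
    have h3 : B * (1 - d / 4) ≤ QQ z := by
      refine le_trans ?_ hBQ
      apply mul_le_mul_of_nonneg_left _ hB0.le
      linarith
    have h4 : (cw u - δ) ≤ (cw u - d) * (1 - d / 4) := by nlinarith
    calc (cw u - δ) * T * B ≤ ((cw u - d) * (1 - d / 4)) * T * B := by gcongr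
      _ = (cw u - d) * T * (B * (1 - d / 4)) := by ring
      _ ≤ (cw u - d) * T * QQ z := by
          apply mul_le_mul_of_nonneg_left h3
          apply mul_nonneg _ hT0.le
          linarith
  · -- upper bound
    have g6 : (RR (WZ X z S ps) T : ℝ) ≤ (HH z S ps T).card := by exact_mod_cast RR_HH hzy S ps T
    have g7 := GG_le_RR z S T
    have g8 : ∑ q ∈ S, ((T / q : ℕ) : ℝ) ≤ 6 / ℓ ^ 2 * T := by
      calc ∑ q ∈ S, ((T / q : ℕ) : ℝ) ≤ ∑ q ∈ S, (T : ℝ) * (1 / q) := by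
            apply Finset.sum_le_sum
            intro q _
            refine Nat.cast_div_le.trans ?_
            rw [mul_one_div]
        _ = T * ∑ q ∈ S, (1 : ℝ) / q := by rw [Finset.mul_sum]
        _ ≤ T * (6 / ℓ ^ 2) := by gcongr
        _ = _ := by ring
    have g9 : ((HH z S ps T).card : ℝ) ≤ C + 6 / ℓ ^ 2 * T + ((2 * n + 1) * ℓ + 16 / ℓ * (T * (d / 200))) := by
      have hnn : 0 ≤ (2 * n + 1) * ℓ + 16 / ℓ * ((T : ℝ) * (d / 200)) := by positivity
      rcases hps with rfl | ⟨hps, hpZ⟩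
      · have g10 : ((HH z S 1 T).card : ℝ) ≤ (GG z S T).card := by exact_mod_cast Finset.card_le_card (HH_one z S T)
        linarith
      · have g10 : ((HH z S ps T).card : ℝ) ≤ (GG z S T).card + (HH z S ps (T / ps)).card := by
          exact_mod_cast HH_rec z S ps T hps
        have g11 := HH_bound z S ps T hps (8 / ℓ) (by positivity)
          (fun T' hT' => b3' T' (le_trans (by exact_mod_cast hT') hTn)) (T / ps) (Nat.div_le_self _ _)
        have g12 : (Nat.log 2 (T / ps) : ℝ) ≤ 2 * (n * ℓ) := by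
          have g13 : (Nat.log 2 (T / ps) : ℝ) ≤ Nat.log 2 T := by
            exact_mod_cast Nat.log_mono_right (Nat.div_le_self _ _)
          have g14 := natlog_le T
          have g15 : Real.log T ≤ n * ℓ := by
            have := Real.log_le_log hT0 hTn
            rwa [Real.log_rpow hz0] at this
          linarith
        have g16 : ((T / ps : ℕ) : ℝ) ≤ T * (d / 200) := by
          have g17 : ((T / ps : ℕ) : ℝ) ≤ T / ps := Nat.cast_div_le
          refine g17.trans ?_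
          rw [div_eq_mul_one_div]
          apply mul_le_mul_of_nonneg_left _ hT0.le
          refine le_trans ?_ hZd'
          have : (Z : ℝ) ≤ ps := by exact_mod_cast hpZ.le
          exact one_div_le_one_div_of_le (by linarith) this
        have g18 : 2 * (8 / ℓ) * ((T / ps : ℕ) : ℝ) ≤ 16 / ℓ * (T * (d / 200)) := by
          have : 2 * (8 / ℓ) = 16 / ℓ := by ring
          rw [this]
          gcongr
        linarith
    rw [div_eq_mul_inv]
    have g20 : (RR (WZ X z S ps) T : ℝ) * B⁻¹ ≤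
        (C + (6 / ℓ ^ 2 * T + ((2 * n + 1) * ℓ + 16 / ℓ * (T * (d / 200))))) * (QQ z)⁻¹ := by
      apply mul_le_mul _ hBinv (inv_nonneg.2 hB0.le) (by positivity)
      linarith
    refine g20.trans ?_
    rw [add_mul]
    have g21 : (6 / ℓ ^ 2 * T + ((2 * n + 1) * ℓ + 16 / ℓ * (T * (d / 200)))) * (QQ z)⁻¹ ≤ 3 * d * T := by
      calc (6 / ℓ ^ 2 * T + ((2 * n + 1) * ℓ + 16 / ℓ * (T * (d / 200)))) * (QQ z)⁻¹ ≤
            (6 / ℓ ^ 2 * T + ((2 * n + 1) * ℓ + 16 / ℓ * (T * (d / 200)))) * (3 * ℓ) := by gcongr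
        _ = 18 / ℓ * T + 3 * (2 * n + 1) * ℓ ^ 2 + 48 * (T * (d / 200)) := by field_simp; ring
        _ ≤ d * T + d * z + 48 * (T * (d / 200)) := by
            have : 18 / ℓ ≤ d := by rw [div_le_iff₀ hℓ0]; nlinarith
            have := mul_le_mul_of_nonneg_right this hT0.le
            linarith
        _ ≤ 3 * d * T := by nlinarith
    nlinarith

end Pool.Agent.H560.MQ
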