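import Pool.Agent.H560.MQ.Excess

/-!
The singular series over the classes and over the rows.
-/

set_option autoImplicit false

open Finset Filter Topology
open Pool.Agent.H378R2 Pool.Agent.H510R2.Maier Pool.Agent.T2H52.MG

namespace Pool.Agent.H560.MQ

/-- small primes divide the modulus -/
theorem small_mem (Z2 : ℕ) : ∀ᶠ X : ℝ in atTop, ∀ (ps : ℕ) (S : Finset ℕ) (z Z : ℕ), Z2 + 2 ≤ Z → Z2 + 2 ≤ z →
    GoodP Z ps → GoodS X S → z ≤ yy X → ∀ q : ℕ, q.Prime → q ≤ Z2 + 2 → q ∈ PZ X z S ps := by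
  have hll : Tendsto (fun X : ℝ => Real.log (Real.log X)) atTop atTop := Real.tendsto_log_atTop.comp Real.tendsto_log_atTop
  filter_upwards [hll.eventually_ge_atTop (max (Z2 : ℝ) 2)] with X b3
  intro ps S z Z hZ hz hps hS hzy q hq hqZ
  refine (mem_PZ hzy).2 ⟨by omega, hq, ?_, ?_⟩
  · intro hqS
    have h5 := (hS.1 q hqS).2.1
    have h7 : (Z2 : ℝ) + 2 < z2 X + 1 := by
      have h8 : 2 ≤ Real.log (Real.log X) := (le_max_right _ _).trans b3
      have h9 : (Z2 : ℝ) ≤ Real.log (Real.log X) := (le_max_left _ _).trans b3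
      have h10 : Real.log (Real.log X) ^ 3 ≤ z2 X := Nat.le_ceil _
      nlinarith [sq_nonneg (Real.log (Real.log X))]
    have h8 : Z2 + 2 < z2 X + 1 := by exact_mod_cast h7
    omega
  · rcases hps with h | ⟨h, h'⟩
    · have := hq.one_lt
      omega
    · omega

/-- the sum of the singular series over the classes -/
theorem sigma_sum (ε : ℝ) (hε : 0 < ε) (hε1 : ε ≤ 1) : ∃ Z2 : ℕ, ∀ᶠ X : ℝ in atTop, ∀ (ps : ℕ) (S : Finset ℕ) (z Z : ℕ),
    Z2 + 2 ≤ Z → Z2 + 2 ≤ z → GoodP Z ps → GoodS X S → z ≤ yy X →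
      (2 ∣ WZ X z S ps) ∧ ∀ R : ℕ, (z : ℝ) + 1 ≤ ε / 8 * R →
        (1 - ε) * (R : ℝ) ≤ ∑ s ∈ (Icc 1 R).filter Even, 2 * C₂ * fQ (QZ X z S ps) s ∧
        ∑ s ∈ (Icc 1 R).filter Even, 2 * C₂ * fQ (QZ X z S ps) s ≤ (1 + ε) * (R : ℝ) := by
  obtain ⟨δ, hδ⟩ : ∃ δ : ℝ, δ = ε / 16 := ⟨_, rfl⟩
  have hδ0 : 0 < δ := by rw [hδ]; positivity
  have hδ1 : δ ≤ 1 / 16 := by rw [hδ]; linarith
  obtain ⟨Z2, hZ2⟩ := C₂_near δ hδ0
  refine ⟨Z2, ?_⟩
  filter_upwards [small_mem Z2] with X h0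
  intro ps S z Z hZ hz hps hS hzy
  have hsmall := h0 ps S z Z hZ hz hps hS hzy
  refine ⟨prime_dvd_WZ (hsmall 2 Nat.prime_two (by omega)), fun R hR => ?_⟩
  have d1 := avg_fQ (Q := QZ X z S ps) (z := z) (fun q hq => QZ_prop hq) R
  have d2 := prod_Q_ge (Q := QZ X z S ps) (z := z) (fun q hq => QZ_prop hq)
  have d3 : ∏ q ∈ QZ X z S ps, cf q ≤ C₂ + δ := by
    refine (prod_Q_le (Z := Z2) (fun q hq => (QZ_prop hq).2.1) ?_).trans hZ2.le
    intro q hq h3 hqZ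
    exact mem_filter.2 ⟨hsmall q hq (by omega), h3⟩
  set P := ∏ q ∈ QZ X z S ps, cf q with hP
  have hC := C₂_ge
  have hC1 := C₂_le_one
  have hP0 : 0 < P := by linarith
  have hR0 : (0 : ℝ) ≤ R := Nat.cast_nonneg _
  have d4 : (z : ℝ) + 1 ≤ 2 * δ * R := by rw [hδ]; linarith
  rw [abs_le] at d1
  rw [← Finset.mul_sum]
  set T := ∑ s ∈ (Icc 1 R).filter Even, fQ (QZ X z S ps) s with hT
  have e1 : C₂ * P⁻¹ ≤ 1 := by
    rw [← div_eq_mul_inv, div_le_one hP0]; exact d2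
  have e2 : 1 - 2 * δ ≤ C₂ * P⁻¹ := by
    rw [← div_eq_mul_inv, le_div_iff₀ hP0]
    nlinarith
  have e3 : 2 * C₂ * ((R : ℝ) / 2 * P⁻¹) = (C₂ * P⁻¹) * R := by ring
  have e4 : (1 - 2 * δ) * R ≤ (C₂ * P⁻¹) * R := by gcongr
  have e5 : (C₂ * P⁻¹) * R ≤ 1 * R := by gcongr
  have e6 : 2 * C₂ * (T - (R : ℝ) / 2 * P⁻¹) ≤ 2 * C₂ * (2 * δ * R) := by
    apply mul_le_mul_of_nonneg_left _ (by linarith)
    linarith
  have e7 : 2 * C₂ * (-(2 * δ * R)) ≤ 2 * C₂ * (T - (R : ℝ) / 2 * P⁻¹) := by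
    apply mul_le_mul_of_nonneg_left _ (by linarith)
    linarith
  have e8 : 2 * C₂ * (2 * δ * R) ≤ 4 * δ * R := by
    have : 0 ≤ 2 * δ * R := by positivity
    nlinarith
  have e9 : 16 * δ * R = ε * R := by rw [hδ]; ring
  constructor
  · nlinarith
  · nlinarith

/-- the singular series of an element of a row -/
theorem sing_row {X : ℝ} {z Z D : ℕ} {S : Finset ℕ} {ps : ℕ} (hzy : z ≤ yy X) (hD : 2 ≤ D) (hZ : 1 ≤ Z)
    (hps : GoodP Z ps) {m r : ℕ} (hm : 0 < m) (hmr : m ≡ r [MOD WZ X z S ps]) :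
    sing m ≤ 2 * C₂ * fQ (QZ X z S ps) r * (Real.exp (3 * ∑ q ∈ S, 1 / (q : ℝ) + 3 / Z + 3 * (Real.log m / Real.log D / D)) *
      (1 + GX z D m)) := by
  classical
  have hD' : (2 : ℝ) ≤ D := by exact_mod_cast hD
  have hZ' : (1 : ℝ) ≤ Z := by exact_mod_cast hZ
  have h1 := sing_le (Q := QZ X z S ps) (fun q hq => ⟨(QZ_prop hq).1, (QZ_prop hq).2.1⟩) m
  rw [fQ_mod (Q := QZ X z S ps) (W := WZ X z S ps) (fun q hq => prime_dvd_WZ (mem_filter.1 hq).1) hmr] at h1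
  refine h1.trans ?_
  have hf := fQ_ge (QZ X z S ps) (fun q hq => (QZ_prop hq).2.1) r
  have hC := two_C₂
  apply mul_le_mul_of_nonneg_left _ (by positivity)
  have hG : 1 + GX z D m = Real.exp (∑ p ∈ (MP z D).filter (fun p => p ∣ m), 3 / (p : ℝ)) := by
    unfold GX
    ring
  rw [hG, ← Real.exp_add]
  apply Real.exp_le_exp.2
  have h2 : (m.primeFactors.filter (fun p => 2 < p)).filter (fun p => p ∉ QZ X z S ps) ⊆
      (S ∪ (m.primeFactors.filter (fun p => p = ps))) ∪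
        (m.primeFactors.filter (fun p => D < p) ∪ (MP z D).filter (fun p => p ∣ m)) := by
    intro p hp
    obtain ⟨h1, h2⟩ := mem_filter.1 hp
    obtain ⟨h3, h4⟩ := mem_filter.1 h1
    rw [mem_union, mem_union, mem_union]
    by_contra hcon
    push Not at hcon
    obtain ⟨⟨h5, h6⟩, h7, h8⟩ := hcon
    apply h2
    have hpp := Nat.prime_of_mem_primeFactors h3
    refine mem_filter.2 ⟨(mem_PZ hzy).2 ⟨?_, hpp, h5, ?_⟩, h4⟩
    · by_contra h9
      apply h8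
      refine mem_filter.2 ⟨mem_filter.2 ⟨mem_Ioc.2 ⟨not_le.1 h9, ?_⟩, hpp⟩, Nat.dvd_of_mem_primeFactors h3⟩
      by_contra h10
      exact h7 (mem_filter.2 ⟨h3, not_le.1 h10⟩)
    · intro h8
      exact h6 (mem_filter.2 ⟨h3, h8⟩)
  have hnn : ∀ p : ℕ, 0 ≤ 3 / (p : ℝ) := fun p => by positivity
  refine (Finset.sum_le_sum_of_subset_of_nonneg h2 (fun p _ _ => hnn p)).trans ?_
  have h2 : ∀ A B : Finset ℕ, ∑ p ∈ A ∪ B, 3 / (p : ℝ) ≤ ∑ p ∈ A, 3 / (p : ℝ) + ∑ p ∈ B, 3 / (p : ℝ) := by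
    intro A B
    rw [← Finset.sum_union_inter]
    have : 0 ≤ ∑ p ∈ A ∩ B, 3 / (p : ℝ) := Finset.sum_nonneg fun p _ => hnn p
    linarith
  refine (h2 _ _).trans ?_
  have h3 := h2 S (m.primeFactors.filter (fun p => p = ps))
  have h3' := h2 (m.primeFactors.filter (fun p => D < p)) ((MP z D).filter (fun p => p ∣ m))
  have h4 : ∑ q ∈ S, 3 / (q : ℝ) = 3 * ∑ q ∈ S, 1 / (q : ℝ) := by
    rw [Finset.mul_sum]
    apply Finset.sum_congr rfl
    intro q _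
    ring
  have h5 : ∑ p ∈ m.primeFactors.filter (fun p => p = ps), 3 / (p : ℝ) ≤ 3 / Z := by
    rcases hps with h | ⟨h, h'⟩
    · have : m.primeFactors.filter (fun p => p = ps) = ∅ := by
        rw [Finset.filter_eq_empty_iff]
        intro p hp hpe
        have := (Nat.prime_of_mem_primeFactors hp).one_lt
        omega
      rw [this, Finset.sum_empty]
      positivity
    · have h6 : m.primeFactors.filter (fun p => p = ps) ⊆ {ps} := by
        intro p hp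
        rw [mem_singleton]
        exact (mem_filter.1 hp).2
      refine (Finset.sum_le_sum_of_subset_of_nonneg h6 (fun p _ _ => hnn p)).trans ?_
      rw [Finset.sum_singleton]
      have : (Z : ℝ) ≤ ps := by exact_mod_cast h'.le
      gcongr
  have h6 : ∑ p ∈ m.primeFactors.filter (fun p => D < p), 3 / (p : ℝ) ≤ 3 * (Real.log m / Real.log D / D) := by
    calc ∑ p ∈ m.primeFactors.filter (fun p => D < p), 3 / (p : ℝ)
        ≤ ∑ p ∈ m.primeFactors.filter (fun p => D < p), 3 / (D : ℝ) := by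
          apply Finset.sum_le_sum
          intro p hp
          have : (D : ℝ) ≤ p := by exact_mod_cast (mem_filter.1 hp).2.le
          gcongr
      _ = ((m.primeFactors.filter (fun p => D < p)).card : ℝ) * (3 / D) := by rw [Finset.sum_const, nsmul_eq_mul]
      _ ≤ (Real.log m / Real.log D) * (3 / D) := by
          apply mul_le_mul_of_nonneg_right (card_big m D hm hD) (by positivity)
      _ = _ := by ring
  linarith

theorem sing_row_ge {X : ℝ} {z : ℕ} {S : Finset ℕ} {ps : ℕ} {m r : ℕ} (hm : 0 < m) (hmr : m ≡ r [MOD WZ X z S ps]) :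
    2 * C₂ * fQ (QZ X z S ps) r ≤ sing m := by
  rw [← fQ_mod (Q := QZ X z S ps) (W := WZ X z S ps) (fun q hq => prime_dvd_WZ (mem_filter.1 hq).1) hmr]
  exact sing_ge (fun q hq => ⟨(QZ_prop hq).1, (QZ_prop hq).2.1⟩) hm

theorem sigma_ge {X : ℝ} {z : ℕ} {S : Finset ℕ} {ps : ℕ} (r : ℕ) : 1 ≤ 2 * C₂ * fQ (QZ X z S ps) r := by
  have h1 := fQ_ge (QZ X z S ps) (fun q hq => (QZ_prop hq).2.1) r
  have h2 := two_C₂
  nlinarith

end Pool.Agent.H560.MQ
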