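import Pool.Agent.H560.MQ.GenS
import Pool.Agent.H560.MQ.Alg

/-!
The number of the representations `m = p + q` with a small prime `p`.
-/

set_option autoImplicit false

open Finset Filter Topology
open Pool.Agent.H378R2 Pool.Agent.H510R2.Maier Pool.Agent.T2H52.MG
open Pool.Agent.R529.LD (ev_rpow ratio_one)
open Pool.Agent.R529.BU (pi_real ev_pow_le)

namespace Pool.Agent.H560.MQ

theorem pp_facts4 (t ε : ℝ) (ht : 1 < t) (hε : 0 < ε) (hε1 : ε ≤ 1 / 2) : ∀ᶠ L : ℝ in atTop,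
    ((PP ⌊(L + Real.log 4) ^ t⌋₊).card : ℝ) ≤ (1 + ε) * (L ^ t / (t * Real.log L)) ∧
    (1 - ε) * (L ^ t / (t * Real.log L)) ≤ (PP ⌊L ^ t⌋₊).card ∧
    (Real.log L) ^ 2 ≤ (PP ⌊L ^ t⌋₊).card ∧ L + Real.log 4 ≤ (1 + ε) * L ∧
    (L + Real.log 4) ^ t ≤ (1 + ε) * L ^ t ∧ Real.exp 1 ≤ L ^ t ∧ 3 < L := by
  have ht0 : 0 < t := by linarith
  obtain ⟨d, hd⟩ : ∃ d : ℝ, d = ε / 4 := ⟨_, rfl⟩
  have hd0 : 0 < d := by rw [hd]; positivity
  have hd1 : d ≤ 1 / 8 := by rw [hd]; linarith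
  have h1 := ratio_one t t (Real.log 4) rfl
  have h2 := h1.eventually_lt_const (show (1 : ℝ) < 1 + d by linarith)
  have htop := tendsto_rpow_atTop ht0
  have hp1 := htop.eventually (pi_real d hd0)
  have hp2 := (htop.comp (tendsto_atTop_add_const_right atTop (Real.log 4) tendsto_id)).eventually (pi_real d hd0)
  have h3 : ∀ᶠ L : ℝ in atTop, 4 * t * (Real.log L) ^ 3 ≤ L ^ t := by
    have h4 := (isLittleO_log_rpow_atTop (show (0 : ℝ) < t / 3 by positivity)).def
      (show (0 : ℝ) < 1 / (4 * t) by positivity)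
    filter_upwards [h4, eventually_ge_atTop (1 : ℝ)] with L g1 g2
    have hL0 : 0 < L := by linarith
    have hl := Real.log_nonneg g2
    rw [Real.norm_eq_abs, abs_of_nonneg hl, Real.norm_eq_abs, abs_of_nonneg (by positivity)] at g1
    have g3 : (Real.log L) ^ 3 ≤ (1 / (4 * t) * L ^ (t / 3)) ^ 3 := pow_le_pow_left₀ hl g1 3
    have g4 : (L ^ (t / 3)) ^ 3 = L ^ t := by
      rw [← Real.rpow_natCast, ← Real.rpow_mul hL0.le]
      congr 1
      push_cast
      ring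
    rw [mul_pow, g4] at g3
    have g5 : (1 / (4 * t)) ^ 3 ≤ 1 / (4 * t) := by
      apply pow_le_of_le_one (by positivity) _ (by norm_num)
      rw [div_le_one (by positivity)]
      linarith
    have hLt : 0 < L ^ t := by positivity
    calc 4 * t * (Real.log L) ^ 3 ≤ 4 * t * ((1 / (4 * t)) ^ 3 * L ^ t) := by gcongr
      _ ≤ 4 * t * (1 / (4 * t) * L ^ t) := by gcongr
      _ = L ^ t := by field_simp
  have h4 : ∀ᶠ L : ℝ in atTop, 2 * t / d * Real.log L ≤ L ^ t := by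
    have h5 := (isLittleO_log_rpow_atTop ht0).def (show (0 : ℝ) < d / (2 * t) by positivity)
    filter_upwards [h5, eventually_ge_atTop (1 : ℝ)] with L g1 g2
    have hl := Real.log_nonneg g2
    rw [Real.norm_eq_abs, abs_of_nonneg hl, Real.norm_eq_abs, abs_of_nonneg (by positivity)] at g1
    calc 2 * t / d * Real.log L ≤ 2 * t / d * (d / (2 * t) * L ^ t) := by gcongr
      _ = L ^ t := by field_simp
  filter_upwards [h2, hp1, hp2, h3, h4, htop.eventually_ge_atTop (Real.exp 1),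
    eventually_ge_atTop (max 4 (Real.log 4 / ε))] with L g1 g2 g3 g4 g5 g6 g7
  have hL4 : (4 : ℝ) ≤ L := (le_max_left _ _).trans g7
  have hL5 : Real.log 4 / ε ≤ L := (le_max_right _ _).trans g7
  rw [div_le_iff₀ hε] at hL5
  have hL0 : 0 < L := by linarith
  have hLt : 0 < L ^ t := by positivity
  rw [div_lt_iff₀ hLt] at g1
  have hlog : 0 < Real.log L := Real.log_pos (by linarith)
  have hlog1 : 1 ≤ Real.log L := by
    rw [Real.le_log_iff_exp_le hL0]
    have := Real.exp_one_lt_d9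
    linarith
  have hl4' : 0 ≤ Real.log 4 := Real.log_nonneg (by norm_num)
  simp only [Function.comp, id] at g3
  rw [Real.log_rpow hL0] at g2
  rw [Real.log_rpow (by linarith)] at g3
  have hl44 : Real.log L ≤ Real.log (L + Real.log 4) := Real.log_le_log hL0 (by linarith)
  have hbase : 0 < L ^ t / (t * Real.log L) := by positivity
  have hY2 : 2 ≤ ⌊L ^ t⌋₊ := by
    apply Nat.le_floor
    have := Real.exp_one_gt_d9
    push_cast
    linarith
  have hY3 : 2 ≤ ⌊(L + Real.log 4) ^ t⌋₊ := by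
    refine hY2.trans (Nat.floor_le_floor ?_)
    exact Real.rpow_le_rpow hL0.le (by linarith) ht0.le
  have c1 := card_PP _ hY2
  have c2 := card_PP _ hY3
  have c1' : ((PP ⌊L ^ t⌋₊).card : ℝ) + 1 = Nat.primeCounting ⌊L ^ t⌋₊ := by exact_mod_cast c1
  have c2' : ((PP ⌊(L + Real.log 4) ^ t⌋₊).card : ℝ) + 1 = Nat.primeCounting ⌊(L + Real.log 4) ^ t⌋₊ := by exact_mod_cast c2
  have hlow : (1 - 2 * d) * (L ^ t / (t * Real.log L)) ≤ (PP ⌊L ^ t⌋₊).card := by
    have e1 : (1 - d) * (L ^ t / (t * Real.log L)) ≤ Nat.primeCounting ⌊L ^ t⌋₊ := by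
      rw [← mul_div_assoc, div_le_iff₀ (by positivity)]
      exact g2.1
    have e2 : 1 ≤ d * (L ^ t / (t * Real.log L)) := by
      rw [← mul_div_assoc, le_div_iff₀ (by positivity)]
      rw [div_mul_eq_mul_div, div_le_iff₀ hd0] at g5
      nlinarith
    linarith
  refine ⟨?_, ?_, ?_, by linarith, ?_, g6, by linarith⟩
  · have e1 : (Nat.primeCounting ⌊(L + Real.log 4) ^ t⌋₊ : ℝ) ≤ (1 + d) * (L + Real.log 4) ^ t / (t * Real.log L) := by
      rw [le_div_iff₀ (by positivity)]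
      refine le_trans ?_ g3.2
      gcongr
    have e2 : (1 + d) * (L + Real.log 4) ^ t / (t * Real.log L) ≤ (1 + ε) * (L ^ t / (t * Real.log L)) := by
      rw [← mul_div_assoc]
      apply div_le_div_of_nonneg_right _ (by positivity)
      calc (1 + d) * (L + Real.log 4) ^ t ≤ (1 + d) * ((1 + d) * L ^ t) := by
            apply mul_le_mul_of_nonneg_left g1.le (by linarith)
        _ = ((1 + d) * (1 + d)) * L ^ t := by ring
        _ ≤ (1 + ε) * L ^ t := by
            apply mul_le_mul_of_nonneg_right _ hLt.le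
            nlinarith
    linarith
  · refine le_trans ?_ hlow
    apply mul_le_mul_of_nonneg_right _ hbase.le
    linarith
  · refine le_trans ?_ hlow
    have e1 : 4 * (Real.log L) ^ 2 ≤ L ^ t / (t * Real.log L) := by
      rw [le_div_iff₀ (by positivity)]
      calc 4 * (Real.log L) ^ 2 * (t * Real.log L) = 4 * t * (Real.log L) ^ 3 := by ring
        _ ≤ _ := g4
    nlinarith [sq_nonneg (Real.log L)]
  · refine g1.le.trans ?_
    apply mul_le_mul_of_nonneg_right _ hLt.le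
    linarith


theorem HS_card (Y : ℕ) : (HS Y).card = (PP Y).card := by
  unfold HS
  exact Finset.card_image_of_injOn (HS_inj Y)

theorem cP_HS (Y n : ℕ) : cP (HS Y) n = cntG Y (n + Y + 1) := by
  classical
  unfold cP cntG HS
  rw [Finset.filter_image, Finset.card_image_of_injOn]
  · congr 1
    apply Finset.filter_congr
    intro p hp
    have := Pool.Agent.T2H52.MG.mem_PP.1 hp
    rw [show n + (Y + 1 - p) = n + Y + 1 - p by omega]
  · intro x hx y hy hxy
    exact HS_inj Y (mem_coe.2 (mem_filter.1 (mem_coe.1 hx)).1) (mem_coe.2 (mem_filter.1 (mem_coe.1 hy)).1) hxy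

theorem VH_HS_even {W r Y : ℕ} (hW : 2 ∣ W) (h : 0 < VH W r (HS Y)) : Even (r + (Y + 1)) := by
  unfold VH at h
  obtain ⟨q, hq⟩ := Finset.card_pos.1 h
  rw [mem_filter] at hq
  obtain ⟨h1, h4⟩ := hq
  unfold HS at h1
  obtain ⟨p, hp, rfl⟩ := mem_image.1 h1
  obtain ⟨⟨h2, h3⟩, h5⟩ := Pool.Agent.T2H52.MG.mem_PP.1 hp
  have hodd : Odd p := h5.odd_of_ne_two (by omega)
  have h6 : Odd (r + (Y + 1 - p)) := by
    rw [← Nat.not_even_iff_odd, even_iff_two_dvd]
    intro hd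
    exact Nat.not_coprime_of_dvd_of_dvd (by norm_num) hd hW h4
  have h7 : r + (Y + 1) = (r + (Y + 1 - p)) + p := by omega
  rw [h7]
  exact h6.add_odd hodd

/-- few small primes -/
theorem sums_few (t θ δ : ℝ) (hθ : 0 < θ) (hθ1 : θ < 1) (ht : 1 < t) (hδ : 0 < δ) : ∀ᶠ X : ℝ in atTop,
    ∃ M : Finset ℕ, (∀ m ∈ M, Even m ∧ X < m ∧ (m : ℝ) < 4 * X ∧
      (reps m ((Real.log m) ^ t) : ℝ) ≤ (cw (t / θ) + δ) *
        (sing m * ((Real.log m) ^ t / (Real.log ((Real.log m) ^ t) * Real.log m)))) ∧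
      X * Real.exp (-(1 / 2 * (Real.log X) ^ θ)) ≤ M.card := by
  classical
  obtain ⟨ε, hεdef⟩ : ∃ ε : ℝ, ε = min δ 1 / 40 := ⟨_, rfl⟩
  have hm : 0 < min δ 1 := lt_min hδ one_pos
  have hε : 0 < ε := by rw [hεdef]; positivity
  have hε1 : ε ≤ 1 / 40 := by rw [hεdef]; linarith [min_le_right δ 1]
  have hεδ : 40 * ε ≤ δ := by rw [hεdef]; linarith [min_le_left δ 1]
  have hut : 1 < t / θ := by rw [lt_div_iff₀ hθ]; linarith
  obtain ⟨Z0, hZ0⟩ := few_gen t θ ε hθ hθ1 ht hε (by linarith)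
  obtain ⟨Z2, hZ2⟩ := sigma_shift ε hε (by linarith)
  obtain ⟨k, hk⟩ := exists_nat_gt t
  have hlt := Real.tendsto_log_atTop
  have hz : Tendsto (fun L : ℝ => zL θ L) atTop atTop := zL_top θ hθ
  filter_upwards [hZ0 (max Z0 (Z2 + 2)) (le_max_left _ _), hZ2, hlt.eventually (pp_facts4 t ε ht hε (by linarith)),
    zL_yy θ hθ hθ1, hlt.eventually (hz.eventually_ge_atTop (Z2 + 2)), eventually_ge_atTop (8 : ℝ),
    hlt.eventually (scales t θ (t / θ) ((t / θ - 1) / 2) (ε / 16) hθ hθ1 ht rfl (by linarith) (by linarith) (by positivity)),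
    hlt.eventually (lens t (Real.log 4) ht k hk), ev_pow_le k]
    with X g1 g2 g3 g4 g5 g6 g7 g8 g9
  obtain ⟨ps, S, hps, hS, hmain⟩ := g1
  obtain ⟨p1, p2, p3, p4, p5, p6, p7⟩ := g3
  have hX0 : 0 < X := by linarith
  have hl4 : Real.log (4 * X) = Real.log X + Real.log 4 := by
    rw [Real.log_mul (by norm_num) hX0.ne']
    ring
  obtain ⟨h2W, hsig⟩ := g2 ps S (zL θ (Real.log X)) (max Z0 (Z2 + 2)) (le_max_right _ _) g5 hps hS g4.1
  set L := Real.log X with hL
  set Y := ⌊(L + Real.log 4) ^ t⌋₊ with hYdef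
  obtain ⟨hs1, -⟩ := hsig (Y + 1) (RL t L) g7.2.2.1
  set σ : ℕ → ℝ := fun r => if Even (r + (Y + 1)) then 2 * C₂ * fQ (QZ X (zL θ L) S ps) (r + (Y + 1)) else 0 with hσ
  have hsum : (1 - ε) * (RL t L : ℝ) ≤ ∑ r ∈ Icc 1 (RL t L), σ r := hs1
  have hl30 : 0 ≤ Real.log 4 := Real.log_nonneg (by norm_num)
  have hL0 : 0 < L := by linarith
  have hlogL : 0 < Real.log L := Real.log_pos (by linarith)
  have hYle : (Y : ℝ) ≤ (L + Real.log 4) ^ t := Nat.floor_le (by positivity)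
  have hYX : (Y : ℝ) + 1 < X := by
    have h1 := hYle.trans (g8.2.1.trans g9)
    linarith
  obtain ⟨r, hr, hσr, hcnt⟩ := hmain σ Y (HS Y) (HS_sub _) (by
      rw [hl4]
      exact hYle) (by
      refine p3.trans ?_
      rw [HS_card]
      have : PP ⌊L ^ t⌋₊ ⊆ PP Y := by
        unfold PP
        apply Finset.filter_subset_filter
        apply Finset.Icc_subset_Icc le_rfl
        apply Nat.floor_le_floor
        exact Real.rpow_le_rpow hL0.le (by linarith) (by linarith)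
      exact_mod_cast Finset.card_le_card this) hsum
  have hre : Even (r + (Y + 1)) := by
    by_contra hcon
    rw [hσ] at hσr
    simp only [if_neg hcon] at hσr
    linarith
  refine ⟨(rowset X (fun n => n ≡ r [MOD WZ X (zL θ L) S ps] ∧
    L * cP (HS Y) n ≤ (cw (t / θ) + 12 * ε) * (σ r * (HS Y).card))).image (fun n => n + (Y + 1)), ?_, ?_⟩
  swap
  · rw [Finset.card_image_of_injective _ (fun a b hab => by simpa using hab)]
    exact hcnt
  intro m hm
  obtain ⟨n, hn, rfl⟩ := mem_image.1 hm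
  obtain ⟨m1, m2, m3, m4, m5⟩ := mem_rowset.1 hn
  have m4' : n + (Y + 1) ≡ r + (Y + 1) [MOD WZ X (zL θ L) S ps] := m4.add_right (Y + 1)
  have hcast : ((n + (Y + 1) : ℕ) : ℝ) = n + (Y + 1) := by push_cast; ring
  rw [cP_HS, HS_card, show n + Y + 1 = n + (Y + 1) by ring] at m5
  have hmX : X < ((n + (Y + 1) : ℕ) : ℝ) := by
    rw [hcast]
    have : (0 : ℝ) ≤ Y := Nat.cast_nonneg _
    linarith
  have hmX4 : ((n + (Y + 1) : ℕ) : ℝ) < 4 * X := by
    rw [hcast]
    linarith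
  set m := n + (Y + 1) with hmdef
  have heven : Even m := by
    have h2 := m4'.of_dvd h2W
    rw [even_iff_two_dvd]
    exact (Nat.ModEq.dvd_iff h2 dvd_rfl).2 hre.two_dvd
  refine ⟨heven, hmX, hmX4, ?_⟩
  have hh0 : (0 : ℝ) < m := by linarith
  have hm4 : 4 < m := by
    have : (4 : ℝ) < m := by linarith
    exact_mod_cast this
  have hlh1 : L ≤ Real.log m := Real.log_le_log hX0 hmX.le
  have hlh2 : Real.log m ≤ L + Real.log 4 := by
    have h3 : Real.log m ≤ Real.log (4 * X) := Real.log_le_log hh0 hmX4.le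
    rw [hl4] at h3
    exact h3
  have hlh0 : 0 < Real.log m := by linarith
  set y := (Real.log m) ^ t with hy
  have hy1 : L ^ t ≤ y := Real.rpow_le_rpow hL0.le hlh1 (by linarith)
  have hy2 : y ≤ (L + Real.log 4) ^ t := Real.rpow_le_rpow hlh0.le hlh2 (by linarith)
  have hw : (reps m y : ℝ) ≤ cntG Y m := by
    exact_mod_cast reps_le heven hm4 (Nat.floor_le_floor hy2)
  have hsing : σ r ≤ sing m := by
    rw [hσ]
    simp only [if_pos hre]
    exact sing_row_ge (by omega) m4'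
  have hsing0 : 0 < sing m := lt_of_lt_of_le (lt_of_lt_of_le hε hσr) hsing
  have hq := quot_mono p6 hy1
  rw [Real.log_rpow hL0] at hq
  have hq0 : 0 < L ^ t / (t * Real.log L) := by positivity
  obtain ⟨hc1, hc2⟩ := cw_bounds (t / θ) hut.le
  have hmain2 : (reps m y : ℝ) * Real.log m ≤ (cw (t / θ) + δ) * (sing m * (y / Real.log y)) :=
    alg_few (cw (t / θ)) ε δ (sing m) (σ r) (PP Y).card (L ^ t / (t * Real.log L)) (y / Real.log y) L (Real.log m)
      (cntG Y m) (reps m y) hε hε1 hεδ hc1 hc2 (hε.le.trans hσr) hsing (Nat.cast_nonneg _) p1 hq0 hq m5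
      (Nat.cast_nonneg _) hw (hlh2.trans p4) hL0
  rw [show (cw (t / θ) + δ) * (sing m * (y / (Real.log y * Real.log m))) =
    ((cw (t / θ) + δ) * (sing m * (y / Real.log y))) / Real.log m by
      have : 0 < y / Real.log y := lt_of_lt_of_le hq0 hq
      field_simp]
  rw [le_div_iff₀ hlh0]
  exact hmain2

/-- many small primes -/
theorem sums_many (t θ δ : ℝ) (hθ : 0 < θ) (hθ1 : θ < 1) (ht : 1 < t) (hδ : 0 < δ) : ∀ᶠ X : ℝ in atTop,
    ∃ M : Finset ℕ, (∀ m ∈ M, Even m ∧ X < m ∧ (m : ℝ) < 4 * X ∧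
      (cw (t / θ) - δ) * (sing m * ((Real.log m) ^ t / (Real.log ((Real.log m) ^ t) * Real.log m))) ≤
        (reps m ((Real.log m) ^ t) : ℝ)) ∧
      X * Real.exp (-(1 / 2 * (Real.log X) ^ θ)) ≤ M.card := by
  classical
  obtain ⟨ε, hεdef⟩ : ∃ ε : ℝ, ε = min δ 1 / 40 := ⟨_, rfl⟩
  have hm : 0 < min δ 1 := lt_min hδ one_pos
  have hε : 0 < ε := by rw [hεdef]; positivity
  have hε1 : ε ≤ 1 / 40 := by rw [hεdef]; linarith [min_le_right δ 1]
  have hεδ : 40 * ε ≤ δ := by rw [hεdef]; linarith [min_le_left δ 1]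
  have hut : 1 < t / θ := by rw [lt_div_iff₀ hθ]; linarith
  obtain ⟨Z0, hZ0⟩ := many_genS t θ ε hθ hθ1 ht hε (by linarith)
  obtain ⟨Z2, hZ2⟩ := sigma_shift ε hε (by linarith)
  obtain ⟨k, hk⟩ := exists_nat_gt t
  have hlt := Real.tendsto_log_atTop
  have hll : Tendsto (fun X : ℝ => Real.log (Real.log X)) atTop atTop := hlt.comp hlt
  have hz : Tendsto (fun L : ℝ => zL θ L) atTop atTop := zL_top θ hθ
  obtain ⟨Z, hZdef⟩ : ∃ Z : ℕ, Z = Z0 + Z2 + 2 + ⌈12 / ε⌉₊ := ⟨_, rfl⟩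
  have hZ12 : 12 / ε ≤ Z := by
    refine (Nat.le_ceil _).trans ?_
    have : ⌈12 / ε⌉₊ ≤ Z := by omega
    exact_mod_cast this
  filter_upwards [hZ0 Z (by omega), hZ2, hlt.eventually (pp_facts4 t ε ht hε (by linarith)),
    zL_yy θ hθ hθ1, hlt.eventually (hz.eventually_ge_atTop (Z2 + 2)), eventually_ge_atTop (8 : ℝ),
    hlt.eventually (scales t θ (t / θ) ((t / θ - 1) / 2) (ε / 16) hθ hθ1 ht rfl (by linarith) (by linarith) (by positivity)),
    hll.eventually_ge_atTop (max 1 (72 / ε)), hlt.eventually_ge_atTop (max 4 (48 / ε)),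
    hlt.eventually (lens t (Real.log 4) ht k hk), ev_pow_le k]
    with X g1 g2 g3 g4 g5 g6 g7 g8 g9 g10 g11
  obtain ⟨ps, S, hps, hS, hmain⟩ := g1
  obtain ⟨p1, p2, p3, p4, p5, p6, p7⟩ := g3
  have hX0 : 0 < X := by linarith
  have hl4 : Real.log (4 * X) = Real.log X + Real.log 4 := by
    rw [Real.log_mul (by norm_num) hX0.ne']
    ring
  obtain ⟨h2W, hsig⟩ := g2 ps S (zL θ (Real.log X)) Z (by omega) g5 hps hS g4.1
  have hS2 := hS.2
  set L := Real.log X with hL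
  set Y := ⌊L ^ t⌋₊ with hYdef
  obtain ⟨-, hs2⟩ := hsig (Y + 1) (RL t L) g7.2.2.1
  set σ : ℕ → ℝ := fun r => if Even (r + (Y + 1)) then 2 * C₂ * fQ (QZ X (zL θ L) S ps) (r + (Y + 1)) else 0 with hσ
  have hσn : ∀ r, 0 ≤ σ r := by
    intro r
    rw [hσ]
    simp only
    split_ifs
    · have := sigma_ge (X := X) (z := zL θ L) (S := S) (ps := ps) (r + (Y + 1))
      linarith
    · exact le_rfl
  have hsum : ∑ r ∈ Icc 1 (RL t L), σ r ≤ (1 + ε) * (RL t L : ℝ) := hs2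
  have hl30 : 0 ≤ Real.log 4 := Real.log_nonneg (by norm_num)
  have hL0 : 0 < L := by linarith
  have hlogL : 0 < Real.log L := Real.log_pos (by linarith)
  have hYle : (Y : ℝ) ≤ L ^ t := Nat.floor_le (by positivity)
  have hLt4 : L ^ t ≤ (L + Real.log 4) ^ t := Real.rpow_le_rpow hL0.le (by linarith) (by linarith)
  have hYX : (Y : ℝ) + 1 < X := by
    have h1 := hYle.trans (hLt4.trans (g10.2.1.trans g11))
    linarith
  obtain ⟨r, hr, hV, hcnt⟩ := hmain σ Y (Y + 1) (HS Y) (by push_cast; exact hYX.le) (HS_sub _) (by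
      rw [hl4]
      exact hYle.trans hLt4) (by rw [HS_card]; exact p3) hσn hsum
  have hre : Even (r + (Y + 1)) := VH_HS_even h2W hV
  refine ⟨(rowset X (fun n => n ≡ r [MOD WZ X (zL θ L) S ps] ∧
    (cw (t / θ) - 12 * ε) * (max (σ r) ε * (HS Y).card) * (1 + GX (zL θ L) ⌊L ^ 2⌋₊ (n + (Y + 1))) ≤
      Real.log (4 * X) * cP (HS Y) n)).image (fun n => n + (Y + 1)), ?_, ?_⟩
  swap
  · rw [Finset.card_image_of_injective _ (fun a b hab => by simpa using hab)]
    exact hcnt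
  intro m hm
  obtain ⟨n, hn, rfl⟩ := mem_image.1 hm
  obtain ⟨m1, m2, m3, m4, m5⟩ := mem_rowset.1 hn
  have m4' : n + (Y + 1) ≡ r + (Y + 1) [MOD WZ X (zL θ L) S ps] := m4.add_right (Y + 1)
  have hcast : ((n + (Y + 1) : ℕ) : ℝ) = n + (Y + 1) := by push_cast; ring
  rw [cP_HS, HS_card, show n + Y + 1 = n + (Y + 1) by ring] at m5
  have hmX : X < ((n + (Y + 1) : ℕ) : ℝ) := by
    rw [hcast]
    have : (0 : ℝ) ≤ Y := Nat.cast_nonneg _
    linarith
  have hmX4 : ((n + (Y + 1) : ℕ) : ℝ) < 4 * X := by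
    rw [hcast]
    linarith
  set m := n + (Y + 1) with hmdef
  have heven : Even m := by
    have h2 := m4'.of_dvd h2W
    rw [even_iff_two_dvd]
    exact (Nat.ModEq.dvd_iff h2 dvd_rfl).2 hre.two_dvd
  refine ⟨heven, hmX, hmX4, ?_⟩
  have hh0 : (0 : ℝ) < m := by linarith
  have hlh1 : L ≤ Real.log m := Real.log_le_log hX0 hmX.le
  have hlh2 : Real.log m ≤ L + Real.log 4 := by
    have h3 : Real.log m ≤ Real.log (4 * X) := Real.log_le_log hh0 hmX4.le
    rw [hl4] at h3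
    exact h3
  have hlh0 : 0 < Real.log m := by linarith
  -- the exponent
  have hD1 : L ^ 2 / 2 ≤ (⌊L ^ 2⌋₊ : ℝ) := by
    have := (Nat.lt_floor_add_one (L ^ 2)).le
    nlinarith
  have hD3 : (3 : ℝ) ≤ (⌊L ^ 2⌋₊ : ℝ) := by nlinarith
  have hD2 : 2 ≤ ⌊L ^ 2⌋₊ := by
    have : (2 : ℝ) ≤ (⌊L ^ 2⌋₊ : ℝ) := by linarith
    exact_mod_cast this
  have hrow := sing_row (X := X) (z := zL θ L) (Z := Z) (D := ⌊L ^ 2⌋₊) (S := S) (ps := ps) g4.1 hD2 (by omega) hps
    (m := m) (r := r + (Y + 1)) (by omega) m4'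
  have hexpo : 3 * ∑ q ∈ S, 1 / (q : ℝ) + 3 / Z + 3 * (Real.log m / Real.log (⌊L ^ 2⌋₊ : ℕ) / (⌊L ^ 2⌋₊ : ℕ)) ≤ ε := by
    have a1 : 3 * ∑ q ∈ S, 1 / (q : ℝ) ≤ ε / 4 := by
      have h1 : 1 ≤ Real.log L := (le_max_left _ _).trans g8
      have h2 : 72 / ε ≤ Real.log L := (le_max_right _ _).trans g8
      rw [div_le_iff₀ hε] at h2
      have h3 : 6 / Real.log L ^ 2 ≤ ε / 12 := by
        rw [div_le_div_iff₀ (by positivity) (by norm_num)]
        nlinarith
      linarith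
    have a2 : 3 / (Z : ℝ) ≤ ε / 4 := by
      have hZ0 : (0 : ℝ) < Z := lt_of_lt_of_le (by positivity) hZ12
      rw [div_le_iff₀ hε] at hZ12
      rw [div_le_div_iff₀ hZ0 (by norm_num)]
      linarith
    have a3 : 3 * (Real.log m / Real.log (⌊L ^ 2⌋₊ : ℕ) / (⌊L ^ 2⌋₊ : ℕ)) ≤ ε / 4 := by
      have b1 : 48 / ε ≤ L := (le_max_right _ _).trans g9
      rw [div_le_iff₀ hε] at b1
      have b2 : 1 ≤ Real.log (⌊L ^ 2⌋₊ : ℕ) := by
        rw [Real.le_log_iff_exp_le (by linarith)]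
        have := Real.exp_one_lt_d9
        linarith
      have b3 : Real.log m ≤ 2 * L := by nlinarith
      calc 3 * (Real.log m / Real.log (⌊L ^ 2⌋₊ : ℕ) / (⌊L ^ 2⌋₊ : ℕ)) ≤ 3 * (2 * L / 1 / (L ^ 2 / 2)) := by gcongr
        _ = 12 / L := by field_simp; ring
        _ ≤ ε / 4 := by
            rw [div_le_div_iff₀ hL0 (by norm_num)]
            linarith
    linarith
  have hG := GX_nonneg (zL θ L) ⌊L ^ 2⌋₊ m
  set G := GX (zL θ L) ⌊L ^ 2⌋₊ m with hGdef
  have hσr : 2 * C₂ * fQ (QZ X (zL θ L) S ps) (r + (Y + 1)) = σ r := by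
    rw [hσ]
    simp only [if_pos hre]
  rw [hσr] at hrow
  have hσr0 := hσn r
  have hsing : (1 - ε) * sing m ≤ σ r * (1 + G) := by
    have h1 : sing m ≤ σ r * (Real.exp ε * (1 + G)) := by
      refine hrow.trans ?_
      gcongr
    have h2 : (1 - ε) * Real.exp ε ≤ 1 := by
      have h4 : 1 - ε ≤ Real.exp (-ε) := by
        have := Real.add_one_le_exp (-ε)
        linarith
      calc (1 - ε) * Real.exp ε ≤ Real.exp (-ε) * Real.exp ε := by gcongr
        _ = 1 := by rw [← Real.exp_add, neg_add_cancel, Real.exp_zero]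
    calc (1 - ε) * sing m ≤ (1 - ε) * (σ r * (Real.exp ε * (1 + G))) := by
          apply mul_le_mul_of_nonneg_left h1
          linarith
      _ = ((1 - ε) * Real.exp ε) * (σ r * (1 + G)) := by ring
      _ ≤ 1 * (σ r * (1 + G)) := by
          apply mul_le_mul_of_nonneg_right h2
          positivity
      _ = _ := one_mul _
  have hsing0 : 0 < sing m := sing_pos m
  set y := (Real.log m) ^ t with hy
  have hy1 : L ^ t ≤ y := Real.rpow_le_rpow hL0.le hlh1 (by linarith)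
  have hy2 : y ≤ (L + Real.log 4) ^ t := Real.rpow_le_rpow hlh0.le hlh2 (by linarith)
  have hw : (cntG Y m : ℝ) ≤ reps m y := by
    exact_mod_cast le_reps (Nat.floor_le_floor hy1)
  set Q := L ^ t / (t * Real.log L) with hQ
  have hQ0 : 0 < Q := by positivity
  have hq : y / Real.log y ≤ (1 + ε) * Q := by
    refine (quot_mono (p6.trans hy1) hy2).trans ?_
    rw [Real.log_rpow (by linarith), hQ, ← mul_div_assoc]
    have h1 : Real.log L ≤ Real.log (L + Real.log 4) := Real.log_le_log hL0 (by linarith)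
    gcongr
  have hy0 : 0 < y / Real.log y := by
    have h1 := quot_mono p6 hy1
    rw [Real.log_rpow hL0] at h1
    exact lt_of_lt_of_le hQ0 h1
  obtain ⟨hc1, hc2⟩ := cw_bounds (t / θ) hut.le
  have hl4' : Real.log (4 * X) ≤ (1 + ε) * Real.log m := by
    rw [hl4]
    exact p4.trans (mul_le_mul_of_nonneg_left hlh1 (by linarith))
  have hk2 : (cw (t / θ) - δ) * (sing m * (y / Real.log y)) ≤ Real.log m * reps m y :=
    alg_many (cw (t / θ)) ε δ (sing m) (σ r) (max (σ r) ε) (PP Y).card G Q (y / Real.log y) (Real.log (4 * X))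
      (Real.log m) (cntG Y m) (reps m y) hε hε1 hεδ hc1 hc2 hG hsing0 hσr0 hsing (le_max_left _ _) p2 hQ0 hq hy0 m5
      (Nat.cast_nonneg _) hw hl4' hlh0
  have hly : 0 < Real.log y := by
    by_contra hcon
    push Not at hcon
    have : y / Real.log y ≤ 0 := div_nonpos_of_nonneg_of_nonpos (by positivity) hcon
    linarith
  rw [show (cw (t / θ) - δ) * (sing m * (y / (Real.log y * Real.log m))) =
    ((cw (t / θ) - δ) * (sing m * (y / Real.log y))) / Real.log m by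
      field_simp]
  rw [div_le_iff₀ hlh0, mul_comm (reps m y : ℝ)]
  exact hk2

end Pool.Agent.H560.MQ
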